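import Pool.Agent.Y953.SC.Gen
import Pool.Agent.Y769.SC.Kap

/-!
# From the Bessel kernel to exponentials, for integrals over segments
-/

set_option autoImplicit false

open Complex MeasureTheory Metric Set Filter Topology
open Pool.Agent.Y245.SC

namespace Pool.Agent.E8helper32.SA

open Pool.Agent.Y953.SC (summable_prod_exp hasSum_regroup e1 norm_e1 sum1 coeff_zero fib_neg fib_pos)

theorem hs_congr {ι : Type} {f g : ι → ℂ} {s : ℂ} (h : HasSum f s)
    (hfg : ∀ i, g i = f i) : HasSum g s := by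
  rw [show g = f from funext hfg]
  exact h

theorem hasSum_int {ι : Type} [Countable ι] {f : ι → ℝ → ℂ}
    {g : ℝ → ℂ} {u : ι → ℝ} (hu : Summable u) (hf : ∀ i, Continuous (f i))
    (hb : ∀ i, ∀ s ∈ Icc (0 : ℝ) 1, ‖f i s‖ ≤ u i)
    (hs : ∀ s ∈ Icc (0 : ℝ) 1, HasSum (fun i => f i s) (g s)) :
    HasSum (fun i => ∫ s in (0 : ℝ)..1, f i s) (∫ s in (0 : ℝ)..1, g s) := by
  have hm : ∀ s ∈ Set.uIoc (0 : ℝ) 1, s ∈ Icc (0 : ℝ) 1 := by
    intro s hs
    rw [uIoc_of_le zero_le_one] at hs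
    exact ⟨hs.1.le, hs.2⟩
  refine intervalIntegral.hasSum_integral_of_dominated_convergence (fun i _ => u i) ?_ ?_ ?_
    ?_ ?_
  · intro i
    exact (hf i).aestronglyMeasurable
  · intro i
    exact Eventually.of_forall fun s hs => hb i s (hm s hs)
  · exact Eventually.of_forall fun s _ => hu
  · exact intervalIntegrable_const
  · exact Eventually.of_forall fun s h => hs s (hm s h)

/-- the coefficients of the expansion of a constant family of integrals vanish -/
theorem family {e : ℕ → ℝ → ℂ} {s W : ℝ → ℂ} {C K B D : ℝ}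
    (hC : 0 ≤ C) (hK : 0 ≤ K) (hB : 0 ≤ B)
    (hec : ∀ m, Continuous (e m)) (hsc : Continuous s) (hWc : Continuous W)
    (he : ∀ m, ∀ ω ∈ Icc (0 : ℝ) 1, ‖e m ω‖ ≤ C * K ^ m)
    (hs : ∀ ω ∈ Icc (0 : ℝ) 1, ‖s ω‖ ≤ B) (hW : ∀ ω ∈ Icc (0 : ℝ) 1, ‖W ω‖ ≤ D) {H : ℂ → ℝ → ℂ}
    (hH : ∀ t : ℂ, ∀ ω ∈ Icc (0 : ℝ) 1,
      HasSum (fun m => e m ω * ((s ω + t) ^ m / (m.factorial : ℂ))) (H t ω)) {Δ : ℂ}
    (h0 : ∀ t : ℂ, ∫ ω in (0 : ℝ)..1, H t ω * W ω = Δ) (i : ℕ) (hi : 0 < i) :
    HasSum (fun l : ℕ => ∫ ω in (0 : ℝ)..1, e (l + i) ω * (s ω ^ l / (l.factorial : ℂ)) * W ω)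
      0 := by
  set A : ℕ → ℕ → ℂ := fun l i => ∫ ω in (0 : ℝ)..1,
    e (l + i) ω * (s ω ^ l / (l.factorial : ℂ)) * W ω with hA
  have h1 : ∀ t : ℂ, HasSum (fun p : ℕ × ℕ => A p.1 p.2 * (t ^ p.2 / (p.2.factorial : ℂ))) Δ := by
    intro t
    have h2 := hasSum_int
      (f := fun (p : ℕ × ℕ) ω => e (p.1 + p.2) ω * (s ω ^ p.1 / (p.1.factorial : ℂ)) *
        (t ^ p.2 / (p.2.factorial : ℂ)) * W ω) (g := fun ω => H t ω * W ω)
      (u := fun p => C * K ^ (p.1 + p.2) * (B ^ p.1 / (p.1.factorial : ℝ)) *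
        (‖t‖ ^ p.2 / (p.2.factorial : ℝ)) * D)
      ((summable_prod_exp C K B ‖t‖ hK hB (norm_nonneg _)).mul_right D) ?_ ?_ ?_
    · rw [h0 t] at h2
      refine hs_congr h2 fun p => ?_
      rw [hA]
      simp only
      rw [mul_comm, ← intervalIntegral.integral_const_mul]
      congr 1
      ext ω
      ring
    · intro p
      exact (((hec _).mul ((hsc.pow _).div_const _)).mul continuous_const).mul hWc
    · intro p ω hω
      rw [norm_mul, norm_mul, norm_mul, norm_div, norm_div, norm_pow, norm_pow,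
        Complex.norm_natCast, Complex.norm_natCast]
      have e1 := he (p.1 + p.2) ω hω
      have e2 := hs ω hω
      have e3 := hW ω hω
      gcongr
    · intro ω hω
      exact (hasSum_regroup hK (fun m => he m ω hω) (hH t ω hω)).mul_right (W ω)
  have h2 : ∀ i, Summable fun l => A l i := by
    intro i
    have h3 := (h1 1).summable.comp_injective (i := fun l : ℕ => (l, i))
      (fun l l' h => by simpa using congrArg Prod.fst h)
    have h4 := h3.mul_right (i.factorial : ℂ)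
    refine h4.congr fun l => ?_
    have h6 : (i.factorial : ℂ) ≠ 0 := by exact_mod_cast i.factorial_ne_zero
    simp only [Function.comp, one_pow]
    field_simp
  have h3 : ∀ t : ℂ, HasSum (fun i => ((∑' l, A l i) / (i.factorial : ℂ)) * t ^ i) Δ := by
    intro t
    have h4 := h1 t
    rw [← (Equiv.prodComm ℕ ℕ).hasSum_iff] at h4
    have h4' : HasSum (fun p : ℕ × ℕ => A p.2 p.1 * (t ^ p.1 / (p.1.factorial : ℂ))) Δ :=
      hs_congr h4 fun p => rfl
    have h8 : ∀ i, HasSum (fun l => A l i * (t ^ i / (i.factorial : ℂ)))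
        ((∑' l, A l i) * (t ^ i / (i.factorial : ℂ))) := fun i => (h2 i).hasSum.mul_right _
    have h5 := h4'.prod_fiberwise (g := fun i => (∑' l, A l i) * (t ^ i / (i.factorial : ℂ))) h8
    refine hs_congr h5 fun i => ?_
    ring
  -- subtract the constant
  have h3' : ∀ t : ℂ, HasSum (fun i => ((∑' l, A l i) / (i.factorial : ℂ) -
      if i = 0 then Δ else 0) * t ^ i) 0 := by
    intro t
    have h5 : HasSum (fun i : ℕ => (if i = 0 then Δ else 0) * t ^ i) Δ := by
      have := hasSum_ite_eq (0 : ℕ) (Δ * t ^ 0)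
      rw [pow_zero, mul_one] at this
      refine hs_congr this fun i => ?_
      by_cases hi : i = 0
      · subst hi; simp
      · simp [hi]
    have h6 := (h3 t).sub h5
    rw [sub_self] at h6
    refine hs_congr h6 fun i => ?_
    ring
  have h4 := coeff_zero h3' i
  rw [if_neg hi.ne', sub_zero] at h4
  have h6 : (i.factorial : ℂ) ≠ 0 := by exact_mod_cast i.factorial_ne_zero
  have h5 : ∑' l, A l i = 0 := by
    rcases div_eq_zero_iff.1 h4 with h | h
    · exact h
    · exact absurd h h6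
  have h7 := (h2 i).hasSum
  rw [h5] at h7
  exact h7

/-- **The bound.** -/
theorem wbound {a : ℝ} (ha : 0 < a) {x X W : ℝ → ℂ} (hx : Continuous x) (hX : Continuous X)
    (hW : Continuous W) {Δ : ℂ}
    (h : ∀ b : ℂ, ∫ s in (0 : ℝ)..1, (X s - b) ^ 2 * kap a ((X s - b) * x s) * W s = Δ) :
    ∃ C : ℝ, ∀ α : ℂ, 1 ≤ ‖α‖ →
      ‖∫ s in (0 : ℝ)..1, exp (α * x s - a / α * X s) * W s‖ ≤ C := by
  have hk : S_KAP := Pool.Agent.Y769.SC.kap
  obtain ⟨B1, hB1⟩ := (isCompact_Icc (a := (0 : ℝ)) (b := 1)).exists_bound_of_continuousOn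
    hX.continuousOn
  obtain ⟨B2, hB2⟩ := (isCompact_Icc (a := (0 : ℝ)) (b := 1)).exists_bound_of_continuousOn
    hx.continuousOn
  obtain ⟨B3, hB3⟩ := (isCompact_Icc (a := (0 : ℝ)) (b := 1)).exists_bound_of_continuousOn
    hW.continuousOn
  obtain ⟨B, hB, hXB, hxB, hWB⟩ : ∃ B : ℝ, 1 ≤ B ∧ (∀ ω ∈ Icc (0 : ℝ) 1, ‖X ω‖ ≤ B) ∧
      (∀ ω ∈ Icc (0 : ℝ) 1, ‖x ω‖ ≤ B) ∧ ∀ ω ∈ Icc (0 : ℝ) 1, ‖W ω‖ ≤ B := by
    refine ⟨max 1 (max B1 (max B2 B3)), le_max_left _ _, fun ω hω => ?_, fun ω hω => ?_,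
      fun ω hω => ?_⟩
    · exact (hB1 ω hω).trans ((le_max_left _ _).trans (le_max_right _ _))
    · exact (hB2 ω hω).trans ((le_max_left _ _).trans ((le_max_right _ _).trans
        (le_max_right _ _)))
    · exact (hB3 ω hω).trans ((le_max_right _ _).trans ((le_max_right _ _).trans
        (le_max_right _ _)))
  have hB0 : 0 ≤ B := by linarith
  have ha' : (a : ℂ) ≠ 0 := by exact_mod_cast ha.ne'
  have ce1 : ∀ m, Continuous (fun ω => e1 a (x ω) m) := by
    intro m
    match m with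
    | 0 => exact continuous_const
    | 1 => exact continuous_const
    | k + 2 => exact (continuous_const.mul (hx.pow k)).div_const _
  have f1 := family (e := fun m ω => e1 a (x ω) m) (s := X) (W := W) (C := 1)
    (K := (a + 1) * B) (B := B) (D := B) zero_le_one (by positivity) hB0 ce1 hX hW
    (fun m ω hω => norm_e1 ha hB (hxB ω hω) m) hXB hWB (fun t ω _ => sum1 hk ha (x ω) (X ω) t)
    (Δ := Δ) (fun t => by
      rw [← h (-t)]
      simp only [sub_zero])
  refine ⟨Real.exp (a * B) * Real.exp B * B, fun α hα => ?_⟩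
  have hα0 : α ≠ 0 := norm_pos_iff.1 (by linarith)
  obtain ⟨β, hβ⟩ : ∃ β : ℂ, β = -(a / α) := ⟨_, rfl⟩
  have hαβ : α * β = -(a : ℂ) := by rw [hβ]; field_simp
  have hβ0 : β ≠ 0 := fun h0 => ha' (by rw [h0, mul_zero] at hαβ; exact neg_eq_zero.1 hαβ.symm)
  have hβn : ‖β‖ * ‖α‖ = a := by
    rw [← norm_mul, mul_comm β, hαβ, norm_neg, norm_real, Real.norm_of_nonneg ha.le]
  set T : ℕ × ℕ → ℂ := fun p => ∫ ω in (0 : ℝ)..1, ((β * X ω) ^ p.1 / (p.1.factorial : ℂ)) *
    ((α * x ω) ^ p.2 / (p.2.factorial : ℂ)) * W ω with hT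
  have hsumT : HasSum T (∫ ω in (0 : ℝ)..1, exp (α * x ω - a / α * X ω) * W ω) := by
    refine hasSum_int
      (u := fun p => 1 * 1 ^ (p.1 + p.2) * ((‖β‖ * B) ^ p.1 / (p.1.factorial : ℝ)) *
        ((‖α‖ * B) ^ p.2 / (p.2.factorial : ℝ)) * B)
      ((summable_prod_exp 1 1 (‖β‖ * B) (‖α‖ * B) zero_le_one (by positivity)
        (by positivity)).mul_right B) ?_ ?_ ?_
    · intro p
      exact ((((continuous_const.mul hX).pow _).div_const _).mul
        (((continuous_const.mul hx).pow _).div_const _)).mul hW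
    · intro p ω hω
      rw [norm_mul, norm_mul, norm_div, norm_div, norm_pow, norm_pow, norm_mul, norm_mul,
        Complex.norm_natCast, Complex.norm_natCast, one_pow, one_mul, one_mul]
      have g1 := hXB ω hω
      have g2 := hxB ω hω
      have g3 := hWB ω hω
      gcongr
    · intro ω hω
      have g1 : HasSum (fun m : ℕ => (1 : ℂ) * ((β * X ω + α * x ω) ^ m / (m.factorial : ℂ)))
          (exp (α * x ω - a / α * X ω)) := by
        have e0 : α * x ω - a / α * X ω = β * X ω + α * x ω := by rw [hβ]; ring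
        rw [e0, Complex.exp_eq_exp_ℂ]
        refine hs_congr (NormedSpace.expSeries_div_hasSum_exp (β * X ω + α * x ω)) fun m => ?_
        rw [one_mul]
      have g2 := hasSum_regroup (e := fun _ => (1 : ℂ)) (C := 1) (K := 1) zero_le_one
        (fun m => by simp) g1
      refine hs_congr (g2.mul_right (W ω)) fun p => ?_
      rw [one_mul]
  -- the part with negative powers
  set T' : ℕ × ℕ → ℂ := fun p => if p.2 < p.1 then T p else 0 with hT'
  have hTb : ∀ p : ℕ × ℕ, ‖T' p‖ ≤ ((a * B) ^ p.1 / (p.1.factorial : ℝ)) *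
      (B ^ p.2 / (p.2.factorial : ℝ)) * B := by
    intro p
    rw [hT']
    simp only
    split_ifs with hp
    swap
    · rw [norm_zero]; positivity
    have g0 : ‖T p‖ ≤ (((‖β‖ * B) ^ p.1 / (p.1.factorial : ℝ)) *
        ((‖α‖ * B) ^ p.2 / (p.2.factorial : ℝ)) * B) * |(1 : ℝ) - 0| := by
      rw [hT]
      refine intervalIntegral.norm_integral_le_of_norm_le_const fun ω hω => ?_
      rw [uIoc_of_le zero_le_one] at hω
      have hω' : ω ∈ Icc (0 : ℝ) 1 := ⟨hω.1.le, hω.2⟩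
      rw [norm_mul, norm_mul, norm_div, norm_div, norm_pow, norm_pow, norm_mul, norm_mul,
        Complex.norm_natCast, Complex.norm_natCast]
      have g1 := hXB ω hω'
      have g2 := hxB ω hω'
      have g3 := hWB ω hω'
      gcongr
    rw [sub_zero, abs_one, mul_one] at g0
    refine g0.trans ?_
    have g4 : (‖β‖ * B) ^ p.1 * (‖α‖ * B) ^ p.2 ≤ (a * B) ^ p.1 * B ^ p.2 := by
      have g5 : ‖β‖ ^ p.1 * ‖α‖ ^ p.2 ≤ a ^ p.1 := by
        calc ‖β‖ ^ p.1 * ‖α‖ ^ p.2 ≤ ‖β‖ ^ p.1 * ‖α‖ ^ p.1 :=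
              mul_le_mul_of_nonneg_left (pow_le_pow_right₀ hα hp.le) (by positivity)
          _ = a ^ p.1 := by rw [← mul_pow, hβn]
      calc (‖β‖ * B) ^ p.1 * (‖α‖ * B) ^ p.2
          = (‖β‖ ^ p.1 * ‖α‖ ^ p.2) * (B ^ p.1 * B ^ p.2) := by rw [mul_pow, mul_pow]; ring
        _ ≤ a ^ p.1 * (B ^ p.1 * B ^ p.2) := mul_le_mul_of_nonneg_right g5 (by positivity)
        _ = (a * B) ^ p.1 * B ^ p.2 := by rw [mul_pow]; ring
    rw [div_mul_div_comm, div_mul_div_comm]
    gcongr
  have hsb : Summable fun p : ℕ × ℕ => ((a * B) ^ p.1 / (p.1.factorial : ℝ)) *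
      (B ^ p.2 / (p.2.factorial : ℝ)) * B := by
    have := (summable_prod_exp 1 1 (a * B) B zero_le_one (by positivity) hB0).mul_right B
    refine this.congr fun p => ?_
    rw [one_pow, one_mul, one_mul]
  have hsT' : Summable T' := Summable.of_norm_bounded hsb hTb
  have hfib := hsumT.tsum_fiberwise fun p : ℕ × ℕ => (p.1 : ℤ) - p.2
  have hfib' := hsT'.hasSum.tsum_fiberwise fun p : ℕ × ℕ => (p.1 : ℤ) - p.2
  have hz : ∀ n : ℤ, ∑' b : (fun p : ℕ × ℕ => (p.1 : ℤ) - p.2) ⁻¹' {n}, T' b =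
      ∑' b : (fun p : ℕ × ℕ => (p.1 : ℤ) - p.2) ⁻¹' {n}, T b := by
    intro n
    rcases le_or_gt n 0 with hn | hn
    · obtain ⟨m, rfl⟩ : ∃ m : ℕ, n = -(m : ℤ) := ⟨n.natAbs, by omega⟩
      rw [fib_neg, tsum_range T (fun l l' hl => by simpa using congrArg Prod.fst hl),
        tsum_range T' (fun l l' hl => by simpa using congrArg Prod.fst hl)]
      have g1 := (f1 (m + 2) (by omega)).mul_left (α ^ m / (-(a : ℂ)) ^ (m + 1))
      rw [mul_zero] at g1
      have g2 : HasSum (fun l : ℕ => T (l, l + m)) 0 := by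
        refine hs_congr g1 fun l => ?_
        rw [hT]
        simp only
        rw [← intervalIntegral.integral_const_mul]
        congr 1
        ext ω
        have e : e1 a (x ω) (l + (m + 2)) =
          (-(a : ℂ)) ^ (l + m + 1) * x ω ^ (l + m) / ((l + m).factorial : ℂ) := rfl
        rw [e, ← hαβ, mul_pow, mul_pow]
        have q1 : ((l + m).factorial : ℂ) ≠ 0 := by exact_mod_cast (l + m).factorial_ne_zero
        have q2 : (l.factorial : ℂ) ≠ 0 := by exact_mod_cast l.factorial_ne_zero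
        generalize ((l + m).factorial : ℂ) = F1 at *
        generalize (l.factorial : ℂ) = F2 at *
        field_simp
        try ring
      rw [g2.tsum_eq]
      have g3 : ∀ l : ℕ, T' (l, l + m) = 0 := by
        intro l
        rw [hT']
        simp only
        rw [if_neg (by omega)]
      simp only [g3, tsum_zero]
    · refine tsum_congr fun b => ?_
      have hb : ((b : ℕ × ℕ).1 : ℤ) - (b : ℕ × ℕ).2 = n := b.2
      rw [hT']
      simp only
      rw [if_pos (by omega)]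
  have h9 := hfib'.unique (hs_congr hfib fun n => hz n)
  rw [← h9]
  calc ‖∑' p, T' p‖ ≤ ∑' p : ℕ × ℕ, ((a * B) ^ p.1 / (p.1.factorial : ℝ)) *
      (B ^ p.2 / (p.2.factorial : ℝ)) * B := tsum_of_norm_bounded hsb.hasSum hTb
    _ = Real.exp (a * B) * Real.exp B * B := by
      rw [tsum_mul_right]
      congr 1
      have s1 : Summable fun n : ℕ => (a * B) ^ n / (n.factorial : ℝ) :=
        Real.summable_pow_div_factorial _
      have s2 : Summable fun n : ℕ => B ^ n / (n.factorial : ℝ) :=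
        Real.summable_pow_div_factorial _
      have s3 := s1.mul_of_nonneg s2 (fun n => by positivity) (fun n => by positivity)
      rw [← s1.tsum_mul_tsum s2 s3, Real.exp_eq_exp_ℝ, NormedSpace.exp_eq_tsum_div]

end Pool.Agent.E8helper32.SA
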