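import Pool.Agent.E8helper32.SA.Ph

/-!
# The parameters of the asymptotics
-/

set_option autoImplicit false

open Complex MeasureTheory Metric Set Filter Topology ComplexConjugate

namespace Pool.Agent.E8helper32.SA

open Pool.Agent.Y245.SC (seg t_SEG)

variable {a Λ μ K : ℝ} {q : ℕ} {T E : ℂ → ℂ} {δ : ℝ}

/-- the exponent `β` -/
noncomputable def bet (μ : ℝ) : ℝ := 2 / (μ - 1)

/-- the angle -/
noncomputable def chi (E : ℂ → ℂ) (μ : ℝ) : ℝ := arg (-E 0) / (μ - 1)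

/-- the base point -/
noncomputable def s0 (E : ℂ → ℂ) (μ r : ℝ) : ℂ := -((bet μ * Real.log r : ℝ) : ℂ) + chi E μ * I

/-- the point `t` -/
noncomputable def t0 (E : ℂ → ℂ) (q : ℕ) (μ r : ℝ) : ℂ := exp (s0 E μ r / q)

/-- the unimodular constant -/
noncomputable def omg (E : ℂ → ℂ) (μ : ℝ) : ℂ := exp ((1 - μ) * (chi E μ * I))

/-- the square root -/
noncomputable def nu (a : ℝ) (E : ℂ → ℂ) (q : ℕ) (μ r : ℝ) : ℂ :=
  (-(a * Nf E q μ (t0 E q μ r) * omg E μ)) ^ (((2 : ℕ) : ℂ)⁻¹)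

/-- the limit of `nu` -/
noncomputable def nu0 (a : ℝ) (E : ℂ → ℂ) (μ : ℝ) : ℝ := √(a * (μ * ‖E 0‖))

theorem bet_pos (hμ : 1 < μ) : 0 < bet μ := div_pos two_pos (by linarith)

theorem s0_re (r : ℝ) : (s0 E μ r).re = -(bet μ * Real.log r) := by
  unfold s0
  rw [add_re, neg_re, ofReal_re]
  simp

theorem t0_norm (r : ℝ) : ‖t0 E q μ r‖ = Real.exp (-(bet μ * Real.log r) / q) := by
  unfold t0
  rw [norm_exp, ← ofReal_natCast, div_ofReal_re, s0_re]

theorem t0_lim (hq : 0 < q) (hμ : 1 < μ) : Tendsto (t0 E q μ) atTop (𝓝 0) := by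
  have hq' : (0 : ℝ) < q := Nat.cast_pos.2 hq
  rw [tendsto_zero_iff_norm_tendsto_zero]
  have h1 : Tendsto (fun r : ℝ => -(bet μ * Real.log r) / q) atTop atBot := by
    refine Tendsto.atBot_div_const hq' ?_
    exact tendsto_neg_atTop_atBot.comp (Real.tendsto_log_atTop.const_mul_atTop (bet_pos hμ))
  refine (Real.tendsto_exp_atBot.comp h1).congr fun r => ?_
  rw [t0_norm]
  rfl

theorem nu0_pos (ha : 0 < a) (hμ : 1 < μ) (hE0 : E 0 ≠ 0) : 0 < nu0 a E μ :=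
  Real.sqrt_pos.2 (mul_pos ha (mul_pos (by linarith) (norm_pos_iff.2 hE0)))

theorem omg_mul (hμ : 1 < μ) : -(E 0 * omg E μ) = ‖E 0‖ := by
  have h1 : omg E μ = exp (-(arg (-E 0) * I)) := by
    unfold omg chi
    congr 1
    have : ((μ : ℂ) - 1) ≠ 0 := by
      intro h
      have : (μ : ℂ) = ((1 : ℝ) : ℂ) := by rw [ofReal_one]; linear_combination h
      have := ofReal_injective this
      linarith
    push_cast
    field_simp
    ring
  have h2 := norm_mul_exp_arg_mul_I (-E 0)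
  rw [norm_neg] at h2
  have h3 : exp (arg (-E 0) * I) * exp (-(arg (-E 0) * I)) = 1 := by
    rw [← exp_add, add_neg_cancel, exp_zero]
  rw [h1]
  generalize exp (-(arg (-E 0) * I)) = A at h3 ⊢
  generalize exp (arg (-E 0) * I) = B at h2 h3
  linear_combination (-A) * h2 + (‖E 0‖ : ℂ) * h3

theorem rad_zero (hμ : 1 < μ) : -(a * Nf E q μ 0 * omg E μ) = ((a * (μ * ‖E 0‖) : ℝ) : ℂ) := by
  rw [Nf_zero]
  have := omg_mul (E := E) hμ
  push_cast
  linear_combination a * μ * this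

theorem nu_lim (ha : 0 < a) (hq : 0 < q) (hμ : 1 < μ) (S : Sm E q μ δ K) :
    Tendsto (nu a E q μ) atTop (𝓝 (nu0 a E μ : ℂ)) := by
  have hpos : 0 < a * (μ * ‖E 0‖) := mul_pos ha (mul_pos (by linarith) (norm_pos_iff.2 S.hE0))
  have h1 : Tendsto (fun r => -(a * Nf E q μ (t0 E q μ r) * omg E μ)) atTop
      (𝓝 ((a * (μ * ‖E 0‖) : ℝ) : ℂ)) := by
    rw [← rad_zero (q := q) hμ]
    have hN : ContinuousAt (Nf E q μ) 0 := ((Nf_diff S.hE).differentiableAt
      (isOpen_ball.mem_nhds (mem_ball_self S.hδ))).continuousAt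
    exact (((hN.tendsto.comp (t0_lim hq hμ)).const_mul _).mul_const _).neg
  have h2 : ContinuousAt (fun x : ℂ => x ^ (((2 : ℕ) : ℂ)⁻¹)) ((a * (μ * ‖E 0‖) : ℝ) : ℂ) :=
    continuousAt_cpow_const (ofReal_mem_slitPlane.2 hpos)
  have h3 := h2.tendsto.comp h1
  have h4 : ((a * (μ * ‖E 0‖) : ℝ) : ℂ) ^ (((2 : ℕ) : ℂ)⁻¹) = (nu0 a E μ : ℂ) := by
    unfold nu0
    rw [Real.sqrt_eq_rpow, ofReal_cpow hpos.le]
    congr 1
    push_cast
    norm_num
  rw [h4] at h3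
  exact h3

theorem nu_sq (r : ℝ) : nu a E q μ r ^ 2 = -(a * Nf E q μ (t0 E q μ r) * omg E μ) := by
  unfold nu
  exact cpow_nat_inv_pow _ two_ne_zero

/-- the parameter `α` -/
noncomputable def alf (a : ℝ) (E : ℂ → ℂ) (q : ℕ) (μ r : ℝ) : ℂ :=
  r * nu a E q μ r * exp (-s0 E μ r)

theorem s0_mul (hμ : 1 < μ) {r : ℝ} (hr : 0 < r) :
    exp ((1 - μ) * s0 E μ r) = r ^ 2 * omg E μ := by
  unfold s0 omg
  rw [mul_add, exp_add]
  congr 1
  have h1 : ((1 - μ) * -((bet μ * Real.log r : ℝ) : ℂ) : ℂ) = ((2 * Real.log r : ℝ) : ℂ) := by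
    have h2 : (1 - μ) * -(bet μ * Real.log r) = 2 * Real.log r := by
      unfold bet
      have : μ - 1 ≠ 0 := by linarith
      field_simp
      ring
    rw [← h2]
    push_cast
    ring
  rw [h1, ← ofReal_exp, two_mul, Real.exp_add, Real.exp_log hr]
  push_cast
  ring

/-- **The phase identity.** -/
theorem Ji_eq (hμ : 1 < μ) (S : Sm E q μ δ K)
    (hT : ∀ σ : ℂ, σ.re < Λ → T σ = E (exp (σ / q)) * exp (-(μ * σ))) {r : ℝ}
    (hr : 0 < r) (hnu : nu a E q μ r ≠ 0) (ht : t0 E q μ r ∈ ball (0 : ℂ) δ) {y : ℂ}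
    (hy : (s0 E μ r + y).re < Λ) :
    Ji a T (alf a E q μ r) (s0 E μ r + y) =
      exp (r * nu a E q μ r * hp E q μ (t0 E q μ r) y) * (exp (s0 E μ r) * exp y) := by
  have hN := S.Nne ht
  have hrc : (r : ℂ) ≠ 0 := ofReal_ne_zero.2 hr.ne'
  have hsq := nu_sq (a := a) (E := E) (q := q) (μ := μ) r
  have hsm := s0_mul (E := E) hμ hr
  have hte : t0 E q μ r * exp (y / q) = exp ((s0 E μ r + y) / q) := by
    unfold t0
    rw [← exp_add]
    congr 1
    ring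
  unfold Ji alf hp
  rw [hT _ hy, ← exp_add (s0 E μ r) y, hte]
  congr 1
  congr 1
  have e1 : exp (-(μ * (s0 E μ r + y))) = exp ((1 - μ) * s0 E μ r) * exp (-s0 E μ r) *
      exp (-(μ * y)) := by
    rw [← exp_add, ← exp_add]
    congr 1
    ring
  have e2 : exp (s0 E μ r + y) = exp (s0 E μ r) * exp y := exp_add _ _
  have e3 : exp (-s0 E μ r) ≠ 0 := exp_ne_zero _
  have e4 : exp (-s0 E μ r) * exp (s0 E μ r) = 1 := by
    rw [← exp_add, neg_add_cancel, exp_zero]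
  rw [e1, e2, hsm]
  set n := nu a E q μ r with hn
  set N := Nf E q μ (t0 E q μ r) with hNdef
  set X := E (exp ((s0 E μ r + y) / q)) * exp (-(μ * y)) with hX
  have h5 : (a : ℂ) / (r * n * exp (-s0 E μ r)) * (E (exp ((s0 E μ r + y) / q)) *
      (r ^ 2 * omg E μ * exp (-s0 E μ r) * exp (-(μ * y)))) = -(r * n * (X / N)) := by
    have h6 : (a : ℂ) * omg E μ = -(n ^ 2 / N) := by
      rw [hsq]
      field_simp
    calc (a : ℂ) / (r * n * exp (-s0 E μ r)) * (E (exp ((s0 E μ r + y) / q)) *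
        (r ^ 2 * omg E μ * exp (-s0 E μ r) * exp (-(μ * y))))
        = (a * omg E μ) * (r / n) * X := by rw [hX]; field_simp
      _ = -(n ^ 2 / N) * (r / n) * X := by rw [h6]
      _ = _ := by field_simp
  rw [h5]
  linear_combination (r * n * exp y) * e4

end Pool.Agent.E8helper32.SA
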