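import Pool.Agent.E8helper32.SA.Ci

/-!
# The arc
-/

set_option autoImplicit false

open Complex MeasureTheory Metric Set Filter Topology ComplexConjugate

namespace Pool.Agent.E8helper32.SA

open Pool.Agent.Y245.SC (seg t_SEG)

variable {a Λ μ K : ℝ} {q : ℕ} {T E : ℂ → ℂ} {δ : ℝ}

/-- the exponent on the arc -/
noncomputable def Hr (a : ℝ) (E : ℂ → ℂ) (q : ℕ) (μ r θ : ℝ) : ℂ :=
  r * nu a E q μ r * (hp E q μ (t0 E q μ r) (θ * I) - hp E q μ (t0 E q μ r) 0)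

theorem t0_small (hq : 0 < q) (hμ : 1 < μ) (hδ : 0 < δ) :
    ∀ᶠ r in atTop, ‖t0 E q μ r‖ * Real.exp 6 < δ := by
  have h1 : Tendsto (fun r => ‖t0 E q μ r‖ * Real.exp 6) atTop (𝓝 (‖(0 : ℂ)‖ * Real.exp 6)) :=
    (t0_lim hq hμ).norm.mul_const _
  rw [norm_zero, zero_mul] at h1
  exact h1.eventually (gt_mem_nhds hδ)

theorem theta_ball {θ : ℝ} (hθ : θ ∈ Icc (-Real.pi) Real.pi) : (θ * I : ℂ) ∈ ball (0 : ℂ) 6 := by
  rw [mem_ball_zero_iff, norm_mul, norm_I, mul_one, norm_real, Real.norm_eq_abs]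
  have := abs_le.2 ⟨hθ.1, hθ.2⟩
  linarith [Real.pi_lt_four]

theorem arc_lim (ha : 0 < a) (hq : 0 < q) (hμ : 1 < μ) (S : Sm E q μ δ K) :
    Tendsto (fun r => (√r : ℂ) * ∫ θ in (-Real.pi)..Real.pi, exp (Hr a E q μ r θ) * exp (θ * I))
      atTop (𝓝 (∫ u : ℝ, exp ((-(nu0 a E μ * ((1 + μ) / 2) * u ^ 2) : ℝ) : ℂ))) := by
  have hμ0 : 0 < μ := by linarith
  have hn0 : 0 < nu0 a E μ := nu0_pos ha hμ S.hE0
  have hnl := nu_lim (q := q) ha hq hμ S
  have htl := t0_lim (E := E) hq hμ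
  have hts := t0_small (E := E) hq hμ S.hδ
  obtain ⟨C1, hC1⟩ := gm_norm hμ0
  obtain ⟨C2, hC2⟩ := S.qp_quad hq
  have hc : 0 < nu0 a E μ / Real.pi ^ 2 := by positivity
  refine lap (m := nu0 a E μ * ((1 + μ) / 2)) hc ?_ ?_ ?_
  · -- continuity
    filter_upwards [hts] with r ht
    unfold Hr
    have h1 : ContinuousOn (fun θ : ℝ => gm μ θ + (qp E q μ (t0 E q μ r) (θ * I) -
        qp E q μ (t0 E q μ r) 0)) (Icc (-Real.pi) Real.pi) := by
      refine ContinuousOn.add ?_ (ContinuousOn.sub ?_ continuousOn_const)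
      · unfold gm
        fun_prop
      · intro θ hθ
        have h2 := (S.qp_diffAt (arg_bd hq ht (theta_ball hθ)).2).continuousAt
        have h3 : ContinuousAt (fun θ : ℝ => (θ * I : ℂ)) θ := by fun_prop
        exact (ContinuousAt.comp (g := qp E q μ (t0 E q μ r)) (f := fun θ : ℝ => (θ * I : ℂ)) h2
          h3).continuousWithinAt
    have h4 : ContinuousOn (fun θ : ℝ => r * nu a E q μ r * (gm μ θ +
        (qp E q μ (t0 E q μ r) (θ * I) - qp E q μ (t0 E q μ r) 0))) (Icc (-Real.pi) Real.pi) :=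
      continuousOn_const.mul h1
    refine h4.congr fun θ _ => ?_
    simp only
    rw [hp_eq]
  · -- domination
    have h1 : Tendsto (fun r => ‖nu a E q μ r - nu0 a E μ‖ * C1 +
        ‖nu a E q μ r‖ * (C2 * ‖t0 E q μ r‖)) atTop (𝓝 0) := by
      have h2 : Tendsto (fun r => ‖nu a E q μ r - nu0 a E μ‖ * C1 +
          ‖nu a E q μ r‖ * (C2 * ‖t0 E q μ r‖)) atTop
          (𝓝 (‖(nu0 a E μ - nu0 a E μ : ℂ)‖ * C1 + ‖(nu0 a E μ : ℂ)‖ * (C2 * ‖(0 : ℂ)‖))) :=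
        ((hnl.sub_const _).norm.mul_const _).add (hnl.norm.mul (htl.norm.const_mul _))
      rw [sub_self, norm_zero, zero_mul, mul_zero, mul_zero, add_zero] at h2
      exact h2
    filter_upwards [h1.eventually (gt_mem_nhds hc), hts, eventually_gt_atTop 0] with r h2 ht hr θ hθ
    unfold Hr
    rw [hp_eq, mul_assoc, re_ofReal_mul]
    have e1 : nu a E q μ r * (gm μ θ + (qp E q μ (t0 E q μ r) (θ * I) -
        qp E q μ (t0 E q μ r) 0)) = (nu0 a E μ : ℂ) * gm μ θ +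
        ((nu a E q μ r - nu0 a E μ) * gm μ θ + nu a E q μ r *
          (qp E q μ (t0 E q μ r) (θ * I) - qp E q μ (t0 E q μ r) 0)) := by ring
    rw [e1, add_re, re_ofReal_mul]
    have h3 := gm_re hμ0 hθ
    have h4 := hC1 θ hθ
    have h5 := hC2 _ ht θ hθ
    have h6 : ((nu a E q μ r - nu0 a E μ) * gm μ θ + nu a E q μ r *
          (qp E q μ (t0 E q μ r) (θ * I) - qp E q μ (t0 E q μ r) 0)).re ≤
        nu0 a E μ / Real.pi ^ 2 * θ ^ 2 := by
      refine (re_le_norm _).trans ((norm_add_le _ _).trans ?_)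
      rw [norm_mul, norm_mul]
      calc ‖nu a E q μ r - nu0 a E μ‖ * ‖gm μ θ‖ + ‖nu a E q μ r‖ *
            ‖qp E q μ (t0 E q μ r) (θ * I) - qp E q μ (t0 E q μ r) 0‖
          ≤ ‖nu a E q μ r - nu0 a E μ‖ * (C1 * θ ^ 2) + ‖nu a E q μ r‖ *
            (C2 * ‖t0 E q μ r‖ * θ ^ 2) := by gcongr
        _ = (‖nu a E q μ r - nu0 a E μ‖ * C1 +
            ‖nu a E q μ r‖ * (C2 * ‖t0 E q μ r‖)) * θ ^ 2 := by ring
        _ ≤ _ := by gcongr
    have h7 : nu0 a E μ * (gm μ θ).re ≤ -(2 * (nu0 a E μ / Real.pi ^ 2 * θ ^ 2)) := by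
      calc nu0 a E μ * (gm μ θ).re ≤ nu0 a E μ * -(2 / Real.pi ^ 2 * θ ^ 2) := by gcongr
        _ = _ := by ring
    calc r * (nu0 a E μ * (gm μ θ).re + ((nu a E q μ r - nu0 a E μ) * gm μ θ + nu a E q μ r *
          (qp E q μ (t0 E q μ r) (θ * I) - qp E q μ (t0 E q μ r) 0)).re)
        ≤ r * (-(2 * (nu0 a E μ / Real.pi ^ 2 * θ ^ 2)) + nu0 a E μ / Real.pi ^ 2 * θ ^ 2) := by
          gcongr
      _ = _ := by ring
  · -- the limit
    intro u
    have h1 : Tendsto (fun r : ℝ => nu a E q μ r * ((r : ℂ) * gm μ (u / √r))) atTop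
        (𝓝 ((nu0 a E μ : ℂ) * ((-((1 + μ) / 2 * u ^ 2) : ℝ) : ℂ))) := hnl.mul (gm_lim hμ0 u)
    have e : (nu0 a E μ : ℂ) * ((-((1 + μ) / 2 * u ^ 2) : ℝ) : ℂ) =
        ((-(nu0 a E μ * ((1 + μ) / 2) * u ^ 2) : ℝ) : ℂ) := by
      push_cast; ring
    rw [e] at h1
    have hinv : Tendsto (fun r : ℝ => |u / √r|) atTop (𝓝 0) := by
      have := ((tendsto_inv_atTop_zero.comp Real.tendsto_sqrt_atTop).const_mul u).abs
      rw [mul_zero, abs_zero] at this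
      exact this
    have h2 : Tendsto (fun r : ℝ => nu a E q μ r * ((r : ℂ) *
        (qp E q μ (t0 E q μ r) ((u / √r : ℝ) * I) - qp E q μ (t0 E q μ r) 0))) atTop (𝓝 0) := by
      have h3 : Tendsto (fun r => ‖nu a E q μ r‖ * (C2 * ‖t0 E q μ r‖ * u ^ 2)) atTop
          (𝓝 (‖(nu0 a E μ : ℂ)‖ * (C2 * ‖(0 : ℂ)‖ * u ^ 2))) :=
        hnl.norm.mul ((htl.norm.const_mul _).mul_const _)
      rw [norm_zero, mul_zero, zero_mul, mul_zero] at h3
      refine squeeze_zero_norm' ?_ h3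
      filter_upwards [hts, eventually_gt_atTop 0, hinv.eventually (gt_mem_nhds Real.pi_pos)]
        with r ht hr hu
      have h4 := hC2 _ ht (u / √r) (abs_le.1 hu.le)
      rw [norm_mul, norm_mul, norm_real, Real.norm_of_nonneg hr.le]
      have h5 : r * (u / √r) ^ 2 = u ^ 2 := by
        rw [div_pow, Real.sq_sqrt hr.le]; field_simp
      calc ‖nu a E q μ r‖ * (r * ‖qp E q μ (t0 E q μ r) ((u / √r : ℝ) * I) -
            qp E q μ (t0 E q μ r) 0‖)
          ≤ ‖nu a E q μ r‖ * (r * (C2 * ‖t0 E q μ r‖ * (u / √r) ^ 2)) := by gcongr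
        _ = ‖nu a E q μ r‖ * (C2 * ‖t0 E q μ r‖ * (r * (u / √r) ^ 2)) := by ring
        _ = _ := by rw [h5]
    have h3 := h1.add h2
    rw [add_zero] at h3
    refine h3.congr fun r => ?_
    unfold Hr
    rw [hp_eq]
    ring

end Pool.Agent.E8helper32.SA
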