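import Pool.Agent.E8helper32.SA.Glue

/-!
# Continuation of germs in convex open sets
-/

set_option autoImplicit false

open Complex Metric Set Filter Topology

namespace Pool.Agent.E8helper32.SA

/-- one step: from `U ∩ ball x0 R` to `U ∩ ball x0 (R + s / 3)` -/
theorem convex_step {U : Set ℂ} (hU : Convex ℝ U) (hUo : IsOpen U) {x0 : ℂ} (hx0 : x0 ∈ U)
    {s : ℝ} (hs : 0 < s) (P : ℂ → (ℂ → ℂ) → Prop)
    (hP : ∀ x f g, P x f → f =ᶠ[𝓝 x] g → P x g)
    (hE : ∀ x ∈ U, ∀ f, P x f → ∃ E : ℂ → ℂ, DifferentiableOn ℂ E (ball x s) ∧ E =ᶠ[𝓝 x] f ∧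
      ∀ y ∈ ball x s, y ∈ U → P y E) {f : ℂ → ℂ} {R : ℝ} (hR : 0 < R)
    (h : ∃ G : ℂ → ℂ, DifferentiableOn ℂ G (U ∩ ball x0 R) ∧ G =ᶠ[𝓝 x0] f ∧
      ∀ y ∈ U ∩ ball x0 R, P y G) :
    ∃ G : ℂ → ℂ, DifferentiableOn ℂ G (U ∩ ball x0 (R + s / 3)) ∧ G =ᶠ[𝓝 x0] f ∧
      ∀ y ∈ U ∩ ball x0 (R + s / 3), P y G := by
  classical
  obtain ⟨G, hG, hGf, hGP⟩ := h
  have hVo : IsOpen (U ∩ ball x0 R) := hUo.inter isOpen_ball
  have hVc : Convex ℝ (U ∩ ball x0 R) := hU.inter (convex_ball x0 R)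
  have hx0V : x0 ∈ U ∩ ball x0 R := ⟨hx0, mem_ball_self hR⟩
  choose! E hE1 hE2 hE3 using hE
  obtain ⟨h', h1, h2, h3⟩ := glue hVo hG (X := U ∩ ball x0 R) subset_closure hs
    (fun x => E x G) (fun x hx => hE1 x hx.1 G (hGP x hx)) (by
      intro x hx y hy
      refine eqOn_convex (V := ball x s ∩ (U ∩ ball x0 R)) ((convex_ball x s).inter hVc)
        (isOpen_ball.inter hVo) ((hE1 x hx.1 G (hGP x hx)).mono inter_subset_left)
        (hG.mono inter_subset_right) (x := x) ⟨mem_ball_self hs, hx⟩ (hE2 x hx.1 G (hGP x hx)) hy)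
  have hsub : U ∩ ball x0 (R + s / 3) ⊆ ⋃ x ∈ U ∩ ball x0 R, ball x (s / 3) := by
    rintro y ⟨hyU, hy⟩
    by_cases hyR : y ∈ ball x0 R
    · exact mem_iUnion₂.2 ⟨y, ⟨hyU, hyR⟩, mem_ball_self (by positivity)⟩
    · have h4 : R ≤ ‖y - x0‖ := by rwa [mem_ball, dist_eq_norm, not_lt] at hyR
      have h5 : ‖y - x0‖ < R + s / 3 := by rwa [mem_ball, dist_eq_norm] at hy
      have hpos : 0 < ‖y - x0‖ := hR.trans_le h4
      -- choose the radius
      obtain ⟨R', hR'1, hR'2⟩ := exists_between (show max 0 (‖y - x0‖ - s / 3) < R from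
        max_lt hR (by linarith))
      have hR'0 : 0 < R' := (le_max_left _ _).trans_lt hR'1
      have hR'3 : ‖y - x0‖ - s / 3 < R' := (le_max_right _ _).trans_lt hR'1
      refine mem_iUnion₂.2 ⟨x0 + ((R' / ‖y - x0‖ : ℝ) : ℂ) * (y - x0), ⟨?_, ?_⟩, ?_⟩
      · have h6 := hU hx0 hyU (a := 1 - R' / ‖y - x0‖) (b := R' / ‖y - x0‖)
          (by rw [sub_nonneg, div_le_one hpos]; linarith) (by positivity) (by ring)
        convert h6 using 1
        rw [Complex.real_smul, Complex.real_smul]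
        push_cast
        ring
      · rw [mem_ball, dist_eq_norm, add_sub_cancel_left, norm_mul, Complex.norm_real,
          Real.norm_eq_abs, abs_of_pos (div_pos hR'0 hpos), div_mul_cancel₀ _ hpos.ne']
        exact hR'2
      · rw [mem_ball, dist_eq_norm]
        have : y - (x0 + ((R' / ‖y - x0‖ : ℝ) : ℂ) * (y - x0)) =
            ((1 - R' / ‖y - x0‖ : ℝ) : ℂ) * (y - x0) := by push_cast; ring
        rw [this, norm_mul, Complex.norm_real, Real.norm_eq_abs, abs_of_nonneg (by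
          rw [sub_nonneg, div_le_one hpos]; linarith), sub_mul, one_mul,
          div_mul_cancel₀ _ hpos.ne']
        linarith
  refine ⟨h', h1.mono (hsub.trans subset_union_right), ?_, ?_⟩
  · refine EventuallyEq.trans ?_ hGf
    filter_upwards [hVo.mem_nhds hx0V] with v hv
    exact h2 hv
  · intro y hy
    obtain ⟨x, hx, hyx⟩ := mem_iUnion₂.1 (hsub hy)
    refine hP y (E x G) h' (hE3 x hx.1 G (hGP x hx) y (ball_subset_ball (by linarith) hyx) hy.1) ?_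
    filter_upwards [isOpen_ball.mem_nhds hyx] with v hv
    exact (h3 x hx v hv).symm

/-- **Continuation in convex sets.** If every germ with the property `P` at a point of the convex
open set `U` extends to the disc of the fixed radius `s` with the property `P`, then every such
germ extends to `U`. -/
theorem convex_cont {U : Set ℂ} (hU : Convex ℝ U) (hUo : IsOpen U) {x0 : ℂ} (hx0 : x0 ∈ U)
    {s : ℝ} (hs : 0 < s) (P : ℂ → (ℂ → ℂ) → Prop)
    (hP : ∀ x f g, P x f → f =ᶠ[𝓝 x] g → P x g)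
    (hE : ∀ x ∈ U, ∀ f, P x f → ∃ E : ℂ → ℂ, DifferentiableOn ℂ E (ball x s) ∧ E =ᶠ[𝓝 x] f ∧
      ∀ y ∈ ball x s, y ∈ U → P y E) {f : ℂ → ℂ} (hf : P x0 f) :
    ∃ G : ℂ → ℂ, DifferentiableOn ℂ G U ∧ G =ᶠ[𝓝 x0] f ∧ ∀ y ∈ U, P y G := by
  classical
  have hst : ∀ n : ℕ, ∃ G : ℂ → ℂ, DifferentiableOn ℂ G (U ∩ ball x0 (s + n * (s / 3))) ∧
      G =ᶠ[𝓝 x0] f ∧ ∀ y ∈ U ∩ ball x0 (s + n * (s / 3)), P y G := by
    intro n
    induction n with
    | zero =>
      obtain ⟨E, h1, h2, h3⟩ := hE x0 hx0 f hf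
      rw [Nat.cast_zero, zero_mul, add_zero]
      exact ⟨E, h1.mono inter_subset_right, h2, fun y hy => h3 y hy.2 hy.1⟩
    | succ n ih =>
      have e : s + ((n + 1 : ℕ) : ℝ) * (s / 3) = (s + n * (s / 3)) + s / 3 := by push_cast; ring
      rw [e]
      exact convex_step hU hUo hx0 hs P hP hE (by positivity) ih
  choose F hF1 hF2 hF3 using hst
  have hex : ∀ y : ℂ, ∃ n : ℕ, y ∈ ball x0 (s + n * (s / 3)) := by
    intro y
    obtain ⟨n, hn⟩ := exists_nat_gt (dist y x0 / (s / 3))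
    refine ⟨n, ?_⟩
    rw [mem_ball]
    rw [div_lt_iff₀ (by positivity)] at hn
    linarith
  have hpos : ∀ n : ℕ, 0 < s + n * (s / 3) := fun n => by positivity
  have hag : ∀ m n : ℕ, ∀ y ∈ U, y ∈ ball x0 (s + m * (s / 3)) → y ∈ ball x0 (s + n * (s / 3)) →
      F m y = F n y := by
    intro m n y hy hm hn
    refine eqOn_convex (V := U ∩ (ball x0 (s + m * (s / 3)) ∩ ball x0 (s + n * (s / 3))))
      (hU.inter ((convex_ball _ _).inter (convex_ball _ _)))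
      (hUo.inter (isOpen_ball.inter isOpen_ball))
      ((hF1 m).mono (fun v hv => ⟨hv.1, hv.2.1⟩)) ((hF1 n).mono (fun v hv => ⟨hv.1, hv.2.2⟩))
      (x := x0) ⟨hx0, mem_ball_self (hpos m), mem_ball_self (hpos n)⟩
      ((hF2 m).trans (hF2 n).symm) ⟨hy, hm, hn⟩
  let G : ℂ → ℂ := fun y => F (hex y).choose y
  have hG : ∀ n : ℕ, ∀ y ∈ U, y ∈ ball x0 (s + n * (s / 3)) → G y = F n y := by
    intro n y hy hn
    exact hag _ _ y hy (hex y).choose_spec hn
  have hGev : ∀ n : ℕ, ∀ y ∈ U, y ∈ ball x0 (s + n * (s / 3)) → G =ᶠ[𝓝 y] F n := by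
    intro n y hy hn
    filter_upwards [hUo.mem_nhds hy, isOpen_ball.mem_nhds hn] with v hv1 hv2
    exact hG n v hv1 hv2
  refine ⟨G, ?_, ?_, ?_⟩
  · intro y hy
    obtain ⟨n, hn⟩ := hex y
    refine DifferentiableAt.differentiableWithinAt ?_
    exact ((hF1 n y ⟨hy, hn⟩).differentiableAt
      ((hUo.inter isOpen_ball).mem_nhds ⟨hy, hn⟩)).congr_of_eventuallyEq (hGev n y hy hn)
  · exact (hGev 0 x0 hx0 (mem_ball_self (hpos 0))).trans (hF2 0)
  · intro y hy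
    obtain ⟨n, hn⟩ := hex y
    exact hP y _ _ (hF3 n y ⟨hy, hn⟩) (hGev n y hy hn).symm

end Pool.Agent.E8helper32.SA
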