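import Pool.Agent.E8helper32.SA.Entire

/-!
# Curves that are smooth at infinity
-/

set_option autoImplicit false

open Complex Metric Set Filter Topology ComplexConjugate

namespace Pool.Agent.E8helper32.SA

open Pool.Agent.Results.MP_83fd13_an.BranchSingularities

variable {φ : ℂ → ℂ} {r : ℝ} {d : ℕ} {c : ℕ → ℂ → ℂ}

theorem d_pos (hD : Data φ r d c) : 0 < d := by
  rcases Nat.eq_zero_or_pos d with h0 | h0
  swap
  · exact h0
  exfalso
  subst h0
  have hr := hD.hr
  have hn : ‖(((1 + r) / 2 : ℝ) : ℂ)‖ = (1 + r) / 2 := by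
    rw [norm_real, Real.norm_eq_abs, abs_of_pos (by linarith)]
  have h1 : 1 < ‖(((1 + r) / 2 : ℝ) : ℂ)‖ := by rw [hn]; linarith
  have h2 := Cf_ne hD h1
  have h3 := rel_branch hD (Branch.base (φ := φ) (r := r) _ h1 (by rw [hn]; linarith))
  obtain ⟨w, hw1, hw2⟩ := (h2.and (eventually_nhdsWithin_of_eventually_nhds h3)).exists
  unfold Rl at hw2
  simp only [zero_add, Finset.range_one, Finset.sum_singleton, pow_zero, mul_one] at hw2
  exact hw1 hw2

/-- the polynomial in `v = 1 / X` -/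
noncomputable def Trel (c : ℕ → ℂ → ℂ) (d : ℕ) (z v : ℂ) : ℂ :=
  ∑ k ∈ Finset.range d, c k z * v ^ (d - k - 1)

theorem Trel_zero (hd : 0 < d) (z : ℂ) : Trel c d z 0 = c (d - 1) z := by
  unfold Trel
  rw [Finset.sum_eq_single (d - 1)]
  · rw [show d - (d - 1) - 1 = 0 by omega, pow_zero, mul_one]
  · intro k hk hk'
    rw [Finset.mem_range] at hk
    rw [zero_pow (by omega), mul_zero]
  · intro h
    exact absurd (Finset.mem_range.2 (by omega)) h

theorem relInv {z X : ℂ} (hX : X ≠ 0) (h : ∑ k ∈ Finset.range (d + 1), c k z * X ^ k = 0) :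
    c d z + X⁻¹ * Trel c d z X⁻¹ = 0 := by
  have h1 := congrArg (fun y => (X⁻¹) ^ d * y) h
  simp only [mul_zero] at h1
  rw [← h1, Finset.sum_range_succ, mul_add, add_comm]
  congr 1
  · unfold Trel
    rw [Finset.mul_sum, Finset.mul_sum]
    refine Finset.sum_congr rfl fun k hk => ?_
    rw [Finset.mem_range] at hk
    have h2 : (X⁻¹) ^ d = X⁻¹ * (X⁻¹) ^ (d - k - 1) * (X⁻¹) ^ k := by
      rw [← pow_succ', ← pow_add]
      congr 1
      omega
    rw [h2]
    have h3 : (X⁻¹) ^ k * X ^ k = 1 := by rw [← mul_pow, inv_mul_cancel₀ hX, one_pow]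
    calc X⁻¹ * (c k z * (X⁻¹) ^ (d - k - 1))
        = X⁻¹ * (c k z * (X⁻¹) ^ (d - k - 1)) * 1 := by ring
      _ = X⁻¹ * (c k z * (X⁻¹) ^ (d - k - 1)) * ((X⁻¹) ^ k * X ^ k) := by rw [h3]
      _ = _ := by ring
  · have h3 : (X⁻¹) ^ d * X ^ d = 1 := by rw [← mul_pow, inv_mul_cancel₀ hX, one_pow]
    calc c d z = c d z * 1 := by ring
      _ = c d z * ((X⁻¹) ^ d * X ^ d) := by rw [h3]
      _ = _ := by ring

theorem not_inj {f : ℂ → ℂ} {δ : ℝ} {n : ℕ} (hδ : 0 < δ) (hn : 2 ≤ n)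
    (hf : DifferentiableOn ℂ f (ball 0 δ)) (hinj : InjOn (fun t => t ^ n * f t) (ball 0 δ)) :
    False := by
  have h0 : (0 : ℂ) ∈ ball (0 : ℂ) δ := mem_ball_self hδ
  have h1 : DifferentiableOn ℂ (fun t => t ^ n * f t) (ball 0 δ) := fun t ht =>
    (differentiableAt_pow n).differentiableWithinAt.mul (hf t ht)
  have h2 := Pool.Agent.Helper523.LL.deriv_ne_zero_of_injOn isOpen_ball h1 hinj h0
  apply h2
  have h3 : HasDerivAt f (deriv f 0) 0 := (hf.differentiableAt (isOpen_ball.mem_nhds h0)).hasDerivAt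
  have h4 := (hasDerivAt_pow n (0 : ℂ)).mul h3
  have h5 : HasDerivAt (fun t => t ^ n * f t) (n * 0 ^ (n - 1) * f 0 + 0 ^ n * deriv f 0) 0 := h4
  rw [h5.deriv, zero_pow (by omega), zero_pow (by omega)]
  ring

theorem no_cusp (hD : Data φ r d c)
    (hsm : ∀ z ∈ φ '' ball 0 1, c d z ≠ 0 ∨ c (d - 1) z ≠ 0 ∨ deriv (c d) z ≠ 0) :
    ¬ Cusp φ d c := by
  rintro ⟨z0, p, q, δ, A, E, hz0, hq, hpq, hδ, hA, hE, hA0, hE0, hmem, hrel, hinj⟩
  have hd := d_pos hD
  have h0 : (0 : ℂ) ∈ ball (0 : ℂ) δ := mem_ball_self hδ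
  have hAc : ContinuousAt A 0 := (hA.differentiableAt (isOpen_ball.mem_nhds h0)).continuousAt
  have hEc : ContinuousAt E 0 := (hE.differentiableAt (isOpen_ball.mem_nhds h0)).continuousAt
  have hV : IsOpen (φ '' ball 0 r) := by
    rcases (hD.hφ.analyticOnNhd isOpen_ball).is_constant_or_isOpen
      (convex_ball (0 : ℂ) r).isPreconnected with h1 | h1
    · exfalso
      obtain ⟨w, hw⟩ := h1
      have hr := hD.hr
      have h2 : (0 : ℂ) ∈ ball (0 : ℂ) r := mem_ball_self (by linarith)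
      have h3 : (1 : ℂ) ∈ ball (0 : ℂ) r := by rw [mem_ball_zero_iff, norm_one]; exact hr
      have h4 := hD.hinj h2 h3 (by rw [hw 0 h2, hw 1 h3])
      exact zero_ne_one h4
    · exact h1 _ subset_rfl isOpen_ball
  have hz0r : z0 ∈ φ '' ball 0 r := image_mono (ball_subset_ball hD.hr.le) hz0
  have hcc : ∀ k ≤ d, ContinuousAt (c k) z0 := fun k hk =>
    ((hD.hc k hk).differentiableAt (hV.mem_nhds hz0r)).continuousAt
  -- the limits
  have hid : Tendsto (fun t : ℂ => t) (𝓝[≠] 0) (𝓝 0) := nhdsWithin_le_nhds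
  have hz : Tendsto (fun t => z0 + t ^ q * A t) (𝓝 0) (𝓝 z0) := by
    have h1 : ContinuousAt (fun t => z0 + t ^ q * A t) 0 :=
      continuousAt_const.add ((continuousAt_id.pow q).mul hAc)
    have h2 := h1.tendsto
    simp only [ne_eq, show q ≠ 0 by omega, not_false_eq_true, zero_pow, zero_mul, add_zero] at h2
    exact h2
  have hv : Tendsto (fun t => t ^ p * (E t)⁻¹) (𝓝 0) (𝓝 0) := by
    have h1 : ContinuousAt (fun t => t ^ p * (E t)⁻¹) 0 :=
      (continuousAt_id.pow p).mul (hEc.inv₀ hE0)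
    have h2 := h1.tendsto
    simp only [ne_eq, show p ≠ 0 by omega, not_false_eq_true, zero_pow, zero_mul] at h2
    exact h2
  have hck : ∀ k ≤ d, Tendsto (fun t => c k (z0 + t ^ q * A t)) (𝓝 0) (𝓝 (c k z0)) :=
    fun k hk => (hcc k hk).tendsto.comp hz
  have hT : Tendsto (fun t => Trel c d (z0 + t ^ q * A t) (t ^ p * (E t)⁻¹)) (𝓝 0)
      (𝓝 (c (d - 1) z0)) := by
    rw [← Trel_zero (c := c) hd z0]
    unfold Trel
    refine tendsto_finsetSum _ fun k hk => ?_
    exact (hck k (Finset.mem_range.1 hk).le).mul (hv.pow _)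
  -- the relation
  have hEne : ∀ᶠ t in 𝓝 (0 : ℂ), E t ≠ 0 := hEc.eventually_ne hE0
  have hAne : ∀ᶠ t in 𝓝 (0 : ℂ), A t ≠ 0 := hAc.eventually_ne hA0
  have hQ : ∀ᶠ t in 𝓝 (0 : ℂ), t ≠ 0 → c d (z0 + t ^ q * A t) + t ^ p * (E t)⁻¹ *
      Trel c d (z0 + t ^ q * A t) (t ^ p * (E t)⁻¹) = 0 := by
    filter_upwards [hEne, isOpen_ball.mem_nhds h0] with t ht htb ht0
    have h1 := relInv (div_ne_zero ht (pow_ne_zero p ht0)) (hrel t htb ht0)
    have h2 : (E t / t ^ p)⁻¹ = t ^ p * (E t)⁻¹ := by rw [inv_div, div_eq_mul_inv]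
    rwa [h2] at h1
  have hcd0 : c d z0 = 0 := by
    have h1 : Tendsto (fun t => c d (z0 + t ^ q * A t) + t ^ p * (E t)⁻¹ *
        Trel c d (z0 + t ^ q * A t) (t ^ p * (E t)⁻¹)) (𝓝[≠] 0) (𝓝 (c d z0 + 0 * c (d - 1) z0)) :=
      ((hck d le_rfl).add (hv.mul hT)).mono_left nhdsWithin_le_nhds
    have h2 : Tendsto (fun _ : ℂ => (0 : ℂ)) (𝓝[≠] (0 : ℂ)) (𝓝 (c d z0 + 0 * c (d - 1) z0)) := by
      refine (tendsto_congr' ?_).1 h1
      exact eventually_nhdsWithin_iff.2 hQ
    have h3 := tendsto_nhds_unique h2 tendsto_const_nhds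
    rw [zero_mul, add_zero] at h3
    exact h3
  by_cases hcd1 : c (d - 1) z0 = 0
  · -- the order of vanishing
    have hder : deriv (c d) z0 ≠ 0 := by
      rcases hsm z0 hz0 with h1 | h1 | h1
      · exact absurd hcd0 h1
      · exact absurd hcd1 h1
      · exact h1
    have hdd : DifferentiableAt ℂ (c d) z0 := (hD.hc d le_rfl).differentiableAt (hV.mem_nhds hz0r)
    have hsl : Tendsto (fun t => dslope (c d) z0 (z0 + t ^ q * A t)) (𝓝 0)
        (𝓝 (deriv (c d) z0)) := by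
      have h1 : ContinuousAt (dslope (c d) z0) z0 := continuousAt_dslope_same.2 hdd
      have h2 := h1.tendsto.comp hz
      rwa [dslope_same] at h2
    have hlim1 : Tendsto (fun t => A t * dslope (c d) z0 (z0 + t ^ q * A t)) (𝓝[≠] 0)
        (𝓝 (A 0 * deriv (c d) z0)) :=
      (hAc.tendsto.mul hsl).mono_left nhdsWithin_le_nhds
    have hlim2 : Tendsto (fun t => -(t ^ (p - q) * (E t)⁻¹ *
        Trel c d (z0 + t ^ q * A t) (t ^ p * (E t)⁻¹))) (𝓝[≠] 0)
        (𝓝 (-(0 ^ (p - q) * (E 0)⁻¹ * c (d - 1) z0))) :=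
      ((((continuous_pow (p - q)).tendsto 0).mul (hEc.inv₀ hE0).tendsto).mul hT).neg.mono_left
        nhdsWithin_le_nhds
    rw [hcd1, mul_zero, neg_zero] at hlim2
    have heq : Tendsto (fun t => A t * dslope (c d) z0 (z0 + t ^ q * A t)) (𝓝[≠] 0) (𝓝 0) := by
      refine (tendsto_congr' ?_).1 hlim2
      filter_upwards [eventually_nhdsWithin_iff.2 hQ, self_mem_nhdsWithin] with t ht ht0
      have ht0' : t ≠ 0 := ht0
      have h1 := sub_smul_dslope (c d) z0 (z0 + t ^ q * A t)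
      rw [add_sub_cancel_left, smul_eq_mul, hcd0, sub_zero] at h1
      rw [← h1] at ht
      have h2 : t ^ p = t ^ q * t ^ (p - q) := by rw [← pow_add]; congr 1; omega
      have hT' : ∀ x : ℂ, t ^ q * A t * x + t ^ p * (E t)⁻¹ *
          Trel c d (z0 + t ^ q * A t) (t ^ p * (E t)⁻¹) = 0 →
          -(t ^ (p - q) * (E t)⁻¹ * Trel c d (z0 + t ^ q * A t) (t ^ p * (E t)⁻¹)) = A t * x := by
        intro x hx
        generalize Trel c d (z0 + t ^ q * A t) (t ^ p * (E t)⁻¹) = T at hx ⊢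
        rw [h2] at hx
        have h3 : t ^ q * (A t * x + t ^ (p - q) * (E t)⁻¹ * T) = 0 := by
          rw [← hx]; ring
        rcases mul_eq_zero.1 h3 with h4 | h4
        · exact absurd h4 (pow_ne_zero _ ht0')
        · linear_combination (-1 : ℂ) * h4
      exact hT' _ ht
    have h3 := tendsto_nhds_unique hlim1 heq
    rcases mul_eq_zero.1 h3 with h4 | h4
    · exact hA0 h4
    · exact hder h4
  · -- the implicit function
    -- the divided difference
    let R : ℂ × ℂ → ℂ := fun x => ∑ k ∈ Finset.range d, c k (z0 + x.1 ^ q * A x.1) *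
      ∑ i ∈ Finset.range (d - k), (x.1 ^ p * (E x.1)⁻¹) ^ i *
        (x.2 ^ p * (E x.2)⁻¹) ^ (d - k - 1 - i)
    have hR : Tendsto R (𝓝 (0, 0)) (𝓝 (c (d - 1) z0)) := by
      have hfst : Tendsto (Prod.fst : ℂ × ℂ → ℂ) (𝓝 (0, 0)) (𝓝 0) := continuous_fst.tendsto _
      have hsnd : Tendsto (Prod.snd : ℂ × ℂ → ℂ) (𝓝 (0, 0)) (𝓝 0) := continuous_snd.tendsto _
      have h1 : Tendsto R (𝓝 (0, 0)) (𝓝 (∑ k ∈ Finset.range d, c k z0 *
          ∑ i ∈ Finset.range (d - k), (0 : ℂ) ^ i * 0 ^ (d - k - 1 - i))) := by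
        refine tendsto_finsetSum _ fun k hk => ?_
        refine ((hck k (Finset.mem_range.1 hk).le).comp hfst).mul ?_
        refine tendsto_finsetSum _ fun i _ => ?_
        exact ((hv.comp hfst).pow _).mul ((hv.comp hsnd).pow _)
      have h2 : (∑ k ∈ Finset.range d, c k z0 *
          ∑ i ∈ Finset.range (d - k), (0 : ℂ) ^ i * 0 ^ (d - k - 1 - i)) = c (d - 1) z0 := by
        rw [Finset.sum_eq_single (d - 1)]
        · rw [show d - (d - 1) = 1 by omega]
          simp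
        · intro k hk hk'
          rw [Finset.mem_range] at hk
          rw [Finset.sum_eq_zero, mul_zero]
          intro i hi
          rw [Finset.mem_range] at hi
          rcases Nat.eq_zero_or_pos i with h3 | h3
          · subst h3
            rw [zero_pow (show d - k - 1 - 0 ≠ 0 by omega), mul_zero]
          · rw [zero_pow h3.ne', zero_mul]
        · intro h
          exact absurd (Finset.mem_range.2 (by omega)) h
      rwa [h2] at h1
    have hRne : ∀ᶠ x in 𝓝 ((0 : ℂ), (0 : ℂ)), R x ≠ 0 := hR.eventually_ne hcd1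
    rw [nhds_prod_eq] at hRne
    obtain ⟨ε1, hε1, hR1⟩ : ∃ ε : ℝ, 0 < ε ∧ ∀ t ∈ ball (0 : ℂ) ε, ∀ t' ∈ ball (0 : ℂ) ε,
        R (t, t') ≠ 0 := by
      obtain ⟨P, hP, P', hP', hPP⟩ := Filter.eventually_prod_iff.1 hRne
      obtain ⟨ε, hε, h1⟩ := Metric.eventually_nhds_iff_ball.1 (hP.and hP')
      exact ⟨ε, hε, fun t ht t' ht' => hPP (h1 t ht).1 (h1 t' ht').2⟩
    obtain ⟨ε2, hε2, hQ2⟩ := Metric.eventually_nhds_iff_ball.1 (hQ.and (hEne.and hAne))
    set ε := min (min ε1 ε2) δ with hεdef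
    have hε : 0 < ε := lt_min (lt_min hε1 hε2) hδ
    have hs1 : ball (0 : ℂ) ε ⊆ ball 0 ε1 :=
      ball_subset_ball ((min_le_left _ _).trans (min_le_left _ _))
    have hs2 : ball (0 : ℂ) ε ⊆ ball 0 ε2 :=
      ball_subset_ball ((min_le_left _ _).trans (min_le_right _ _))
    have hs3 : ball (0 : ℂ) ε ⊆ ball 0 δ := ball_subset_ball (min_le_right _ _)
    refine not_inj hε hq (hA.mono hs3) ?_
    intro t ht t' ht' htt
    simp only at htt
    by_cases ht0 : t = 0
    · subst ht0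
      rw [zero_pow (by omega), zero_mul, eq_comm, mul_eq_zero] at htt
      rcases htt with h1 | h1
      · exact (pow_eq_zero_iff (by omega)).1 h1 |>.symm
      · exact absurd h1 (hQ2 t' (hs2 ht')).2.2
    by_cases ht'0 : t' = 0
    · subst ht'0
      rw [zero_pow (by omega), zero_mul, mul_eq_zero] at htt
      rcases htt with h1 | h1
      · exact (pow_eq_zero_iff (by omega)).1 h1
      · exact absurd h1 (hQ2 t (hs2 ht)).2.2
    refine hinj t (hs3 ht) t' (hs3 ht') ht0 ht'0 htt ?_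
    -- the values `v`
    have h1 := (hQ2 t (hs2 ht)).1 ht0
    have h2 := (hQ2 t' (hs2 ht')).1 ht'0
    rw [← htt] at h2
    have h3 := hR1 t (hs1 ht) t' (hs1 ht')
    have h4 : (t ^ p * (E t)⁻¹ - t' ^ p * (E t')⁻¹) * R (t, t') = 0 := by
      have h5 : t ^ p * (E t)⁻¹ * Trel c d (z0 + t ^ q * A t) (t ^ p * (E t)⁻¹) -
          t' ^ p * (E t')⁻¹ * Trel c d (z0 + t ^ q * A t) (t' ^ p * (E t')⁻¹) =
          (t ^ p * (E t)⁻¹ - t' ^ p * (E t')⁻¹) * R (t, t') := by
        simp only [R, Trel]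
        rw [Finset.mul_sum, Finset.mul_sum, Finset.mul_sum, ← Finset.sum_sub_distrib]
        refine Finset.sum_congr rfl fun k hk => ?_
        rw [Finset.mem_range] at hk
        generalize t ^ p * (E t)⁻¹ = v
        generalize t' ^ p * (E t')⁻¹ = v'
        have h6 := (Commute.all v v').mul_geom_sum₂ (d - k)
        have h7 : ∀ x : ℂ, x * x ^ (d - k - 1) = x ^ (d - k) := by
          intro x
          rw [← pow_succ']
          congr 1
          omega
        calc v * (c k (z0 + t ^ q * A t) * v ^ (d - k - 1)) -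
            v' * (c k (z0 + t ^ q * A t) * v' ^ (d - k - 1))
            = c k (z0 + t ^ q * A t) * (v * v ^ (d - k - 1) - v' * v' ^ (d - k - 1)) := by ring
          _ = c k (z0 + t ^ q * A t) * (v ^ (d - k) - v' ^ (d - k)) := by rw [h7, h7]
          _ = c k (z0 + t ^ q * A t) * ((v - v') * ∑ i ∈ Finset.range (d - k),
              v ^ i * v' ^ (d - k - 1 - i)) := by rw [h6]
          _ = _ := by ring
      rw [← h5]
      linear_combination h1 - h2
    rcases mul_eq_zero.1 h4 with h5 | h5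
    · have h6 : t ^ p * (E t)⁻¹ = t' ^ p * (E t')⁻¹ := sub_eq_zero.1 h5
      have h7 := congrArg (fun x => x⁻¹) h6
      simp only [mul_inv, inv_inv] at h7
      rw [div_eq_inv_mul, div_eq_inv_mul]
      exact h7
    · exact absurd h5 h3

end Pool.Agent.E8helper32.SA
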