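import Pool.Agent.E8helper32.SA.Mero

/-!
# Crossing the exceptional points
-/

set_option autoImplicit false

open Complex Metric Set Filter Topology ComplexConjugate

namespace Pool.Agent.E8helper32.SA

open Pool.Agent.Results.MP_83fd13_an.BranchSingularities

variable {φ : ℂ → ℂ} {r : ℝ} {d : ℕ} {c : ℕ → ℂ → ℂ} {w1 : ℂ} {L : ℝ} {G : ℂ → ℂ} {q : ℕ}

/-- the logarithm of `w - w1` in a half-plane -/
noncomputable def ell (c' w1 w : ℂ) : ℂ := log ((w - w1) / (c' - w1)) + log (c' - w1)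

theorem ell_slit {c' : ℂ} {ρ : ℝ} (hw1 : w1 ∈ sphere c' ρ) {w : ℂ}
    (hw : w ∈ ball c' ρ) : 0 < ((w - w1) / (c' - w1)).re := by
  have h1 : ‖c' - w1‖ = ρ := by rwa [mem_sphere, dist_comm, dist_eq_norm] at hw1
  have h2 : ‖w - c'‖ < ρ := by rwa [mem_ball, dist_eq_norm] at hw
  have hρ : 0 < ρ := lt_of_le_of_lt (norm_nonneg _) h2
  have h0 : c' - w1 ≠ 0 := norm_pos_iff.1 (by rw [h1]; exact hρ)
  have e : (w - w1) / (c' - w1) = 1 + (w - c') / (c' - w1) := by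
    field_simp
    ring
  rw [e, add_re, one_re]
  have h3 : ‖(w - c') / (c' - w1)‖ < 1 := by
    rw [norm_div, h1, div_lt_one hρ]; exact h2
  have h4 := neg_abs_le ((w - c') / (c' - w1)).re
  have h5 := abs_re_le_norm ((w - c') / (c' - w1))
  linarith

theorem ell_exp {c' : ℂ} {ρ : ℝ} (hw1 : w1 ∈ sphere c' ρ) {w : ℂ}
    (hw : w ∈ ball c' ρ) : exp (ell c' w1 w) = w - w1 := by
  have h1 := ell_slit hw1 hw
  have h0 : c' - w1 ≠ 0 := by
    intro h0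
    rw [h0, div_zero, zero_re] at h1
    exact lt_irrefl _ h1
  have h2 : (w - w1) / (c' - w1) ≠ 0 := by
    intro h2
    rw [h2, zero_re] at h1
    exact lt_irrefl _ h1
  unfold ell
  rw [exp_add, exp_log h2, exp_log h0, div_mul_cancel₀ _ h0]

theorem ell_diff {c' : ℂ} {ρ : ℝ} (hw1 : w1 ∈ sphere c' ρ) {w : ℂ}
    (hw : w ∈ ball c' ρ) : DifferentiableAt ℂ (ell c' w1) w := by
  unfold ell
  refine DifferentiableAt.add_const _ ?_
  refine DifferentiableAt.clog ((differentiableAt_fun_id.sub_const w1).div_const _) ?_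
  exact Or.inl (ell_slit hw1 hw)

theorem sphere_notMem {c' : ℂ} {ρ : ℝ} (hw1 : w1 ∈ sphere c' ρ) : w1 ∉ ball c' ρ := by
  intro h
  rw [mem_ball, mem_sphere.1 hw1] at h
  exact lt_irrefl _ h

theorem ell_re {c' : ℂ} {ρ : ℝ} (hw1 : w1 ∈ sphere c' ρ) {w : ℂ}
    (hw : w ∈ ball c' ρ) (hwL : ‖w - w1‖ < Real.exp L) : (ell c' w1 w).re < L := by
  have h1 := congrArg norm (ell_exp hw1 hw)
  rw [norm_exp] at h1
  rw [← Real.exp_lt_exp, h1]
  exact hwL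

/-- the function `g` in terms of `G` -/
theorem g_eq {c' : ℂ} {ρ : ℝ} {g : ℂ → ℂ} (hG : DifferentiableOn ℂ G (re ⁻¹' Iio L))
    (hg : DifferentiableOn ℂ g (ball c' ρ)) (hw1 : w1 ∈ sphere c' ρ) {z0 : ℂ}
    (hz0 : z0 ∈ ball c' ρ) (hz0L : ‖z0 - w1‖ < Real.exp L)
    (hGg : G =ᶠ[𝓝 (ell c' w1 z0)] fun t => g (w1 + exp t)) :
    ∀ w ∈ ball c' ρ, ‖w - w1‖ < Real.exp L → g w = G (ell c' w1 w) := by
  have hUo : IsOpen (re ⁻¹' Iio L : Set ℂ) := isOpen_Iio.preimage continuous_re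
  have hVo : IsOpen (ball c' ρ ∩ ball w1 (Real.exp L)) := isOpen_ball.inter isOpen_ball
  have hVc : Convex ℝ (ball c' ρ ∩ ball w1 (Real.exp L)) :=
    (convex_ball _ _).inter (convex_ball _ _)
  have hm : ∀ w, w ∈ ball w1 (Real.exp L) ↔ ‖w - w1‖ < Real.exp L := fun w => by
    rw [mem_ball, dist_eq_norm]
  have h1 : DifferentiableOn ℂ (fun w => G (ell c' w1 w)) (ball c' ρ ∩ ball w1 (Real.exp L)) := by
    rintro w ⟨hw, hw'⟩
    have h2 : DifferentiableAt ℂ G (ell c' w1 w) :=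
      hG.differentiableAt (hUo.mem_nhds (ell_re hw1 hw ((hm w).1 hw')))
    exact (DifferentiableAt.comp (g := G) w h2 (ell_diff hw1 hw)).differentiableWithinAt
  have h2 : g =ᶠ[𝓝 z0] fun w => G (ell c' w1 w) := by
    have h3 := (ell_diff hw1 hz0).continuousAt.eventually hGg
    filter_upwards [h3, isOpen_ball.mem_nhds hz0] with w hw hwb
    rw [hw, ell_exp hw1 hwb, add_sub_cancel]
  have h3 := eqOn_convex hVc hVo (hg.mono inter_subset_left) h1 (x := z0)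
    ⟨hz0, (hm z0).2 hz0L⟩ h2
  exact fun w hw hw' => h3 ⟨hw, (hm w).2 hw'⟩

theorem g_eq_X (hq : 0 < q) (hper : IsPer L G q) {c' : ℂ} {ρ : ℝ} (hw1 : w1 ∈ sphere c' ρ) {w : ℂ}
    (hw : w ∈ ball c' ρ) (hwL : ‖w - w1‖ < Real.exp L) :
    G (ell c' w1 w) = Xf G q (exp (ell c' w1 w / q)) := by
  have hq0 : (q : ℂ) ≠ 0 := Nat.cast_ne_zero.2 hq.ne'
  rw [Xf_eq hper rfl (by rw [mul_div_cancel₀ _ hq0]; exact ell_re hw1 hw hwL),
    mul_div_cancel₀ _ hq0]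

/-- slow growth -/
theorem cross_slow {lam : ℝ} (hlam : 0 < lam) (hBU : BranchesBlowUp φ r lam)
    (hq : 0 < q) (hper : IsPer L G q)
    {c' : ℂ} {ρ : ℝ} {g : ℂ → ℂ} (hρ : 0 < ρ) (hB : ∀ w ∈ closedBall c' ρ, 1 < ‖w‖)
    (hg : DifferentiableOn ℂ g (ball c' ρ)) (hbr : ∃ z ∈ ball c' ρ, Branch φ r z g)
    (hw1 : w1 ∈ sphere c' ρ)
    (hgG : ∀ w ∈ ball c' ρ, ‖w - w1‖ < Real.exp L → g w = G (ell c' w1 w))
    (ht : Tendsto (fun t => t ^ q * Xf G q t) (𝓝[≠] 0) (𝓝 0)) :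
    ∃ (ε : ℝ) (E : ℂ → ℂ), 0 < ε ∧ DifferentiableOn ℂ E (ball w1 ε) ∧
      ∀ w ∈ ball w1 ε ∩ ball c' ρ, E w = g w := by
  have hq0' : (0 : ℝ) < q := Nat.cast_pos.2 hq
  have hq0 : (q : ℂ) ≠ 0 := Nat.cast_ne_zero.2 hq.ne'
  refine ext_of_slow hlam hBU hρ hB hg hbr hw1 fun η hη => ?_
  have h1 := (Metric.tendsto_nhds.1 ht) η hη
  obtain ⟨δ, hδ, h2⟩ := Metric.eventually_nhds_iff_ball.1 (eventually_nhdsWithin_iff.1 h1)
  refine ⟨min (Real.exp L) (δ ^ q), lt_min (Real.exp_pos _) (by positivity), ?_⟩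
  intro w hw hwδ
  have hwL : ‖w - w1‖ < Real.exp L := hwδ.trans_le (min_le_left _ _)
  have hwδ' : ‖w - w1‖ < δ ^ q := hwδ.trans_le (min_le_right _ _)
  set t := exp (ell c' w1 w / q) with htdef
  have htq : t ^ q = w - w1 := by
    rw [htdef, ← exp_nat_mul, mul_div_cancel₀ _ hq0, ell_exp hw1 hw]
  have htn : ‖t‖ < δ := by
    refine lt_of_pow_lt_pow_left₀ q hδ.le ?_
    rw [← norm_pow, htq]
    exact hwδ'
  have h3 := h2 t (by rwa [mem_ball_zero_iff]) (exp_ne_zero _)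
  rw [dist_zero_right, norm_mul, htq] at h3
  rw [hgG w hw hwL, g_eq_X hq hper hw1 hw hwL]
  exact h3.le

/-- no monodromy -/
theorem cross_one (hG : PG φ r d c w1 L G) (hNF : NoFiniteIsolatedSingularity φ r)
    (hper : IsPer L G 1) {c' : ℂ} {ρ : ℝ} {g : ℂ → ℂ} (hw1 : w1 ∈ sphere c' ρ)
    (hgG : ∀ w ∈ ball c' ρ, ‖w - w1‖ < Real.exp L → g w = G (ell c' w1 w))
    {z0 : ℂ} (hz0 : z0 ∈ ball c' ρ) (hz0L : ‖z0 - w1‖ < Real.exp L) (hbr : Branch φ r z0 g) :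
    ∃ (ε : ℝ) (E : ℂ → ℂ), 0 < ε ∧ DifferentiableOn ℂ E (ball w1 ε) ∧
      ∀ w ∈ ball w1 ε ∩ ball c' ρ, E w = g w := by
  have hrad : rad L 1 = Real.exp L := by unfold rad; rw [Nat.cast_one, div_one]
  have hm : ∀ w, w ∈ ball w1 (Real.exp L) ↔ ‖w - w1‖ < Real.exp L := fun w => by
    rw [mem_ball, dist_eq_norm]
  have hψd : DifferentiableOn ℂ (fun w => Xf G 1 (w - w1)) (ball w1 (Real.exp L) \ {w1}) := by
    rintro w ⟨hw, hw'⟩
    have h1 : DifferentiableAt ℂ (Xf G 1) (w - w1) :=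
      Xf_diff hG one_pos hper (sub_ne_zero.2 hw') (by rw [hrad]; exact (hm w).1 hw)
    exact (DifferentiableAt.comp (g := Xf G 1) (f := fun w => w - w1) w h1
      (differentiableAt_fun_id.sub_const w1)).differentiableWithinAt
  have hψg : ∀ w ∈ ball c' ρ, ‖w - w1‖ < Real.exp L → Xf G 1 (w - w1) = g w := by
    intro w hw hwL
    rw [hgG w hw hwL, g_eq_X one_pos hper hw1 hw hwL]
    congr 1
    rw [Nat.cast_one, div_one, ell_exp hw1 hw]
  have hev : g =ᶠ[𝓝 z0] fun w => Xf G 1 (w - w1) := by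
    filter_upwards [isOpen_ball.mem_nhds hz0, isOpen_ball.mem_nhds ((hm z0).2 hz0L)] with w h1 h2
    exact (hψg w h1 ((hm w).1 h2)).symm
  have hz0w : z0 ≠ w1 := by
    rintro rfl
    exact sphere_notMem hw1 hz0
  obtain ⟨E, hE1, hE2⟩ := hNF w1 (Real.exp L) (fun w => Xf G 1 (w - w1)) (Real.exp_pos _)
    (fun w hw => hG.hL.h1 w (ball_subset_ball (by linarith [Real.exp_pos L]) hw)) hψd
    ⟨z0, ⟨(hm z0).2 hz0L, hz0w⟩, branch_congr hG.hD.hφ hbr hev⟩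
  refine ⟨Real.exp L, E, Real.exp_pos _, hE1, ?_⟩
  rintro w ⟨hw, hw'⟩
  have hne : w ≠ w1 := by
    rintro rfl
    exact sphere_notMem hw1 hw'
  rw [hE2 w hw hne, hψg w hw' ((hm w).1 hw)]

/-- the dichotomy for the order of `X` at `0` -/
theorem order_dich (h : PG φ r d c w1 L G) (hq : 0 < q) (hper : IsPer L G q) :
    Tendsto (fun t => t ^ q * Xf G q t) (𝓝[≠] 0) (𝓝 0) ∨
    ∃ (p : ℕ) (g : ℂ → ℂ), q ≤ p ∧ AnalyticAt ℂ g 0 ∧ g 0 ≠ 0 ∧
      ∀ᶠ t in 𝓝[≠] (0 : ℂ), Xf G q t = g t / t ^ p := by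
  have hm := Xf_mero h hq hper
  rcases eq_or_ne (meromorphicOrderAt (Xf G q) 0) ⊤ with htop | htop
  · left
    rw [meromorphicOrderAt_eq_top_iff] at htop
    refine (tendsto_congr' ?_).2 tendsto_const_nhds
    filter_upwards [htop] with t ht
    rw [ht, mul_zero]
  · obtain ⟨n, hn⟩ := WithTop.ne_top_iff_exists.1 htop
    obtain ⟨g, hg, hg0, hev⟩ := (meromorphicOrderAt_eq_int_iff hm).1 hn.symm
    rcases le_or_gt n (-(q : ℤ)) with hle | hgt
    · right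
      refine ⟨(-n).toNat, g, by omega, hg, hg0, ?_⟩
      filter_upwards [hev, self_mem_nhdsWithin] with t ht ht0
      rw [ht, sub_zero, smul_eq_mul]
      have h1 : n = -(((-n).toNat : ℕ) : ℤ) := by omega
      conv_lhs => rw [h1]
      rw [zpow_neg, zpow_natCast, div_eq_inv_mul]
    · left
      have h1 : Tendsto (fun t : ℂ => t ^ (n + q).toNat * g t) (𝓝[≠] 0) (𝓝 0) := by
        have h2 : Tendsto (fun t : ℂ => t ^ (n + q).toNat * g t) (𝓝 0)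
            (𝓝 ((0 : ℂ) ^ (n + q).toNat * g 0)) :=
          ((continuous_pow _).tendsto 0).mul hg.continuousAt.tendsto
        rw [zero_pow (by omega), zero_mul] at h2
        exact h2.mono_left nhdsWithin_le_nhds
      refine (tendsto_congr' ?_).2 h1
      filter_upwards [hev, self_mem_nhdsWithin] with t ht ht0
      rw [ht, sub_zero, smul_eq_mul, ← mul_assoc]
      congr 1
      have ht0' : t ≠ 0 := ht0
      rw [← zpow_natCast t (n + q).toNat, ← zpow_natCast t q, ← zpow_add₀ ht0']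
      congr 1
      omega

end Pool.Agent.E8helper32.SA
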