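import Pool.Agent.E8helper32.SA.Cross

/-!
# Cusps at infinity
-/

set_option autoImplicit false

open Complex Metric Set Filter Topology ComplexConjugate

namespace Pool.Agent.E8helper32.SA

open Pool.Agent.Results.MP_83fd13_an.BranchSingularities

variable {φ : ℂ → ℂ} {r : ℝ} {d : ℕ} {c : ℕ → ℂ → ℂ} {w1 : ℂ} {L : ℝ} {G : ℂ → ℂ} {q : ℕ}

/-- a cusp at infinity over a point of `φ '' ball 0 1` -/
def Cusp (φ : ℂ → ℂ) (d : ℕ) (c : ℕ → ℂ → ℂ) : Prop :=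
  ∃ (z0 : ℂ) (p q : ℕ) (δ : ℝ) (A E : ℂ → ℂ), z0 ∈ φ '' ball 0 1 ∧ 2 ≤ q ∧ q ≤ p ∧ 0 < δ ∧
    DifferentiableOn ℂ A (ball 0 δ) ∧ DifferentiableOn ℂ E (ball 0 δ) ∧ A 0 ≠ 0 ∧ E 0 ≠ 0 ∧
    (∀ t ∈ ball (0 : ℂ) δ, z0 + t ^ q * A t ∈ φ '' ball 0 1) ∧
    (∀ t ∈ ball (0 : ℂ) δ, t ≠ 0 →
      ∑ k ∈ Finset.range (d + 1), c k (z0 + t ^ q * A t) * (E t / t ^ p) ^ k = 0) ∧
    ∀ t ∈ ball (0 : ℂ) δ, ∀ t' ∈ ball (0 : ℂ) δ, t ≠ 0 → t' ≠ 0 →
      t ^ q * A t = t' ^ q * A t' → E t / t ^ p = E t' / t' ^ p → t = t'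

/-- `φ (1 / (conj w1 + u))` -/
noncomputable def Fz (φ : ℂ → ℂ) (w1 u : ℂ) : ℂ := φ (1 / (conj w1 + u))

theorem Fz_mem {u : ℂ} (hu : u ∈ ball (0 : ℂ) (‖w1‖ - 1)) :
    conj w1 + u ≠ 0 ∧ 1 / (conj w1 + u) ∈ ball (0 : ℂ) 1 := by
  rw [mem_ball_zero_iff] at hu
  have h1 : ‖w1‖ ≤ ‖conj w1 + u‖ + ‖u‖ := by
    have := norm_sub_le (conj w1 + u) u
    rwa [add_sub_cancel_right, norm_conj] at this
  have h2 : 1 < ‖conj w1 + u‖ := by linarith
  refine ⟨norm_pos_iff.1 (by linarith), ?_⟩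
  rw [mem_ball_zero_iff, norm_div, norm_one, div_lt_one (by linarith)]
  exact h2

theorem Fz_diff (hD : Data φ r d c) : DifferentiableOn ℂ (Fz φ w1) (ball 0 (‖w1‖ - 1)) := by
  intro u hu
  have h1 : DifferentiableAt ℂ φ (1 / (conj w1 + u)) :=
    hD.hφ.differentiableAt (isOpen_ball.mem_nhds (ball_subset_ball hD.hr.le (Fz_mem hu).2))
  have h2 : DifferentiableAt ℂ (fun u => 1 / (conj w1 + u)) u :=
    (differentiableAt_const _).div ((differentiableAt_const _).add differentiableAt_id)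
      (Fz_mem hu).1
  exact (DifferentiableAt.comp (g := φ) (f := fun u => 1 / (conj w1 + u)) u h1
    h2).differentiableWithinAt

theorem Fz_inj (hD : Data φ r d c) : InjOn (Fz φ w1) (ball 0 (‖w1‖ - 1)) := by
  intro u hu v hv huv
  have h1 := hD.hinj (ball_subset_ball hD.hr.le (Fz_mem hu).2)
    (ball_subset_ball hD.hr.le (Fz_mem hv).2) huv
  rw [div_eq_div_iff (Fz_mem hu).1 (Fz_mem hv).1, one_mul, one_mul] at h1
  exact (add_left_cancel h1).symm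

/-- the reflected function -/
theorem cusp_of (hG : PG φ r d c w1 L G) (hq : 2 ≤ q) (hper : IsPer L G q)
    (hmin : ∀ m : ℕ, 0 < m → m < q → ¬ IsPer L G m) {p : ℕ} (hpq : q ≤ p) {g : ℂ → ℂ}
    (hg : AnalyticAt ℂ g 0) (hg0 : g 0 ≠ 0)
    (hev : ∀ᶠ t in 𝓝[≠] (0 : ℂ), Xf G q t = g t / t ^ p) : Cusp φ d c := by
  have hD := hG.hD
  have hq0 : 0 < q := by omega
  have hw1 : 1 < ‖w1‖ := w1_norm hG
  have hR : 0 < ‖w1‖ - 1 := by linarith
  have h0R : (0 : ℂ) ∈ ball (0 : ℂ) (‖w1‖ - 1) := mem_ball_self hR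
  obtain ⟨δ1, hδ1, hinj⟩ := Xf_inj hG hq0 hper hmin
  obtain ⟨δ2, hδ2, hX⟩ := Metric.eventually_nhds_iff_ball.1 (eventually_nhdsWithin_iff.1 hev)
  obtain ⟨δ3, hδ3, hgd⟩ : ∃ δ3 : ℝ, 0 < δ3 ∧ ∀ t ∈ ball (0 : ℂ) δ3, AnalyticAt ℂ g t :=
    Metric.eventually_nhds_iff_ball.1 hg.eventually_analyticAt
  -- the power maps the disc into the disc
  have hpow : ∀ᶠ t in 𝓝 (0 : ℂ), t ^ q ∈ ball (0 : ℂ) (‖w1‖ - 1) := by
    have h1 : Tendsto (fun t : ℂ => t ^ q) (𝓝 0) (𝓝 (0 ^ q)) := (continuous_pow q).tendsto 0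
    rw [zero_pow hq0.ne'] at h1
    exact h1.eventually (isOpen_ball.eventually_mem h0R)
  obtain ⟨δ4, hδ4, hpw⟩ := Metric.eventually_nhds_iff_ball.1 hpow
  set δ := min (min δ1 δ2) (min (min δ3 δ4) (rad L q)) with hδdef
  have hδ : 0 < δ := lt_min (lt_min hδ1 hδ2) (lt_min (lt_min hδ3 hδ4) rad_pos)
  have hs1 : ball (0 : ℂ) δ ⊆ ball 0 δ1 :=
    ball_subset_ball ((min_le_left _ _).trans (min_le_left _ _))
  have hs2 : ball (0 : ℂ) δ ⊆ ball 0 δ2 :=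
    ball_subset_ball ((min_le_left _ _).trans (min_le_right _ _))
  have hs3 : ball (0 : ℂ) δ ⊆ ball 0 δ3 :=
    ball_subset_ball ((min_le_right _ _).trans ((min_le_left _ _).trans (min_le_left _ _)))
  have hs4 : ball (0 : ℂ) δ ⊆ ball 0 δ4 :=
    ball_subset_ball ((min_le_right _ _).trans ((min_le_left _ _).trans (min_le_right _ _)))
  have hs5 : ball (0 : ℂ) δ ⊆ ball 0 (rad L q) :=
    ball_subset_ball ((min_le_right _ _).trans (min_le_right _ _))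
  have hcb : ∀ t ∈ ball (0 : ℂ) δ, conj t ∈ ball (0 : ℂ) δ := by
    intro t ht
    rw [mem_ball_zero_iff] at ht ⊢
    rwa [norm_conj]
  have hc0 : ∀ t : ℂ, t ≠ 0 → conj t ≠ 0 := fun t ht => by rwa [ne_eq, _root_.map_eq_zero]
  have hF : ∀ u, Fz φ w1 0 + u * dslope (Fz φ w1) 0 u = Fz φ w1 u := by
    intro u
    have := sub_smul_dslope (Fz φ w1) 0 u
    rw [sub_zero, smul_eq_mul] at this
    rw [this]
    ring
  have hDd : DifferentiableOn ℂ (dslope (Fz φ w1) 0) (ball 0 (‖w1‖ - 1)) :=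
    (differentiableOn_dslope (ball_mem_nhds _ hR)).2 (Fz_diff hD)
  have hz : ∀ t : ℂ, Fz φ w1 0 + t ^ q * dslope (Fz φ w1) 0 (t ^ q) = Fz φ w1 (t ^ q) :=
    fun t => hF (t ^ q)
  have hEt : ∀ t ∈ ball (0 : ℂ) δ, t ≠ 0 → conj (g (conj t)) / t ^ p = conj (Xf G q (conj t)) := by
    intro t ht ht0
    rw [hX _ (hs2 (hcb t ht)) (hc0 t ht0), map_div₀, map_pow, conj_conj]
  refine ⟨Fz φ w1 0, p, q, δ, fun t => dslope (Fz φ w1) 0 (t ^ q), fun t => conj (g (conj t)),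
    ?_, hq, hpq, hδ, ?_, ?_, ?_, ?_, ?_, ?_, ?_⟩
  · exact ⟨_, (Fz_mem h0R).2, rfl⟩
  · intro t ht
    have h1 : DifferentiableAt ℂ (dslope (Fz φ w1) 0) (t ^ q) :=
      hDd.differentiableAt (isOpen_ball.mem_nhds (hpw t (hs4 ht)))
    exact (DifferentiableAt.comp (g := dslope (Fz φ w1) 0) (f := fun t : ℂ => t ^ q) t h1
      (differentiableAt_pow q)).differentiableWithinAt
  · intro t ht
    have h1 : DifferentiableAt ℂ g (conj t) := (hgd _ (hs3 (hcb t ht))).differentiableAt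
    have h2 := DifferentiableAt.conj_conj h1
    rw [conj_conj] at h2
    exact h2.differentiableWithinAt
  · simp only
    rw [zero_pow hq0.ne', dslope_same]
    exact Pool.Agent.Helper523.LL.deriv_ne_zero_of_injOn isOpen_ball (Fz_diff hD) (Fz_inj hD) h0R
  · simp only
    rw [map_zero, ne_eq, _root_.map_eq_zero]
    exact hg0
  · intro t ht
    simp only
    rw [hz]
    exact ⟨_, (Fz_mem (hpw t (hs4 ht))).2, rfl⟩
  · intro t ht ht0
    simp only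
    rw [hz, hEt t ht ht0]
    have h1 := Xf_rel hG hq0 (hc0 t ht0) (by
      rw [← mem_ball_zero_iff]; exact hs5 (hcb t ht))
    have h2 := congrArg conj h1
    rw [map_sum, map_zero] at h2
    rw [← h2]
    refine Finset.sum_congr rfl fun k _ => ?_
    rw [map_mul, map_pow]
    congr 1
    unfold Cf Fz
    rw [conj_conj, map_add, map_pow, conj_conj]
  · intro t ht t' ht' ht0 ht'0 hzz hEE
    simp only at hzz hEE
    rw [hEt t ht ht0, hEt t' ht' ht'0] at hEE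
    have hX' : Xf G q (conj t) = Xf G q (conj t') := by
      have := congrArg conj hEE
      rwa [conj_conj, conj_conj] at this
    have h1 : Fz φ w1 (t ^ q) = Fz φ w1 (t' ^ q) := by
      rw [← hz t, ← hz t', hzz]
    have h2 := Fz_inj hD (hpw t (hs4 ht)) (hpw t' (hs4 ht')) h1
    have h3 : (conj t) ^ q = (conj t') ^ q := by rw [← map_pow, h2, map_pow]
    have h4 := hinj _ (hs1 (hcb t ht)) _ (hs1 (hcb t' ht')) (hc0 t ht0) (hc0 t' ht'0) h3 hX'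
    have := congrArg conj h4
    rwa [conj_conj, conj_conj] at this

/-- **Crossing or cusp.** -/
theorem cross_or_cusp (hD : Data φ r d c) {lam : ℝ} (hlam : 0 < lam)
    (hBU : BranchesBlowUp φ r lam) (hNF : NoFiniteIsolatedSingularity φ r)
    (hcusp : ¬ Cusp φ d c) : Crosses φ r w1 := by
  classical
  intro c' ρ g hρ hB hg hbr hw1
  have hw1n : 1 < ‖w1‖ := hB w1 (sphere_subset_closedBall hw1)
  obtain ⟨L, hL⟩ := exists_good hD hw1n
  -- a point of the disc near `w1`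
  obtain ⟨z0, hz0, hz0L⟩ : ∃ z0 ∈ ball c' ρ, ‖z0 - w1‖ < Real.exp L := by
    have h1 : w1 ∈ closure (ball c' ρ) := by
      rw [closure_ball c' hρ.ne']; exact sphere_subset_closedBall hw1
    obtain ⟨z, hz, hz2⟩ := Metric.mem_closure_iff.1 h1 (Real.exp L) (Real.exp_pos L)
    exact ⟨z, hz, by rw [← dist_eq_norm, dist_comm]; exact hz2⟩
  obtain ⟨z, hz, hbz⟩ := hbr
  have hbz0 : Branch φ r z0 g :=
    branch_ball hbz (fun w hw => hB w (ball_subset_closedBall hw)) hg hz hz0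
  have hexp := ell_exp hw1 hz0
  have hτ0 : (ell c' w1 z0).re < L := ell_re hw1 hz0 hz0L
  obtain ⟨G, hG1, hG2, hG3⟩ := punct_cont hD hlam hBU hL hτ0 (f := g)
    (by rw [hexp, add_sub_cancel]; exact hbz0)
  have hPG : PG φ r d c w1 L G := ⟨hD, hL, hG1, hG3⟩
  have hgG := g_eq hG1 hg hw1 hz0 hz0L hG2
  -- the minimal period
  have hex : ∃ q : ℕ, 0 < q ∧ IsPer L G q := hPG.period
  have hq : 0 < Nat.find hex ∧ IsPer L G (Nat.find hex) := Nat.find_spec hex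
  have hmin : ∀ m : ℕ, 0 < m → m < Nat.find hex → ¬ IsPer L G m :=
    fun m hm0 hm hper => Nat.find_min hex hm ⟨hm0, hper⟩
  generalize Nat.find hex = q at hq hmin
  rcases eq_or_ne q 1 with h1 | h1
  · subst h1
    exact cross_one hPG hNF hq.2 hw1 hgG hz0 hz0L hbz0
  · rcases order_dich hPG hq.1 hq.2 with h2 | ⟨p, g', hpq, hg', hg'0, hev⟩
    · exact cross_slow hlam hBU hq.1 hq.2 hρ hB hg ⟨z, hz, hbz⟩ hw1 hgG h2
    · exact absurd (cusp_of hPG (by omega) hq.2 hmin hpq hg' hg'0 hev) hcusp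

end Pool.Agent.E8helper32.SA
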