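import Pool.Agent.E8helper32.SA.Cm

/-!
# Larger pole orders are impossible
-/

set_option autoImplicit false

open Complex MeasureTheory Metric Set Filter Topology ComplexConjugate

namespace Pool.Agent.E8helper32.SA

open Pool.Agent.Y245.SC (seg t_SEG)

variable {a Λ μ K : ℝ} {q : ℕ} {T E : ℂ → ℂ} {δ : ℝ}

/-- the integrand at the base point -/
noncomputable def Kr (a : ℝ) (T E : ℂ → ℂ) (q : ℕ) (μ r : ℝ) (y : ℂ) : ℂ :=
  Ji a T (alf a E q μ r) (s0 E μ r + y)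

/-- the normalisation -/
noncomputable def Wr (a : ℝ) (E : ℂ → ℂ) (q : ℕ) (μ r : ℝ) : ℂ :=
  √r * exp (-s0 E μ r) * exp (-(r * nu a E q μ r * hp E q μ (t0 E q μ r) 0))

theorem s0y_re (r : ℝ) (y : ℂ) : (s0 E μ r + y).re = y.re - bet μ * Real.log r := by
  rw [add_re, s0_re]; ring

/-- the eventual facts -/
structure Ev (a Λ μ : ℝ) (E : ℂ → ℂ) (q : ℕ) (r : ℝ) : Prop where
  hr : 1 ≤ r
  ht : ‖t0 E q μ r‖ * Real.exp 6 < Real.exp (Λ / q)
  hn : 0 < (nu a E q μ r).re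
  hh : nu0 a E μ ≤ (nu a E q μ r * hp E q μ (t0 E q μ r) 0).re
  hb : -(nu a E q μ r).re + ‖nu a E q μ r‖ * (1 + 1 / 8) ≤ nu0 a E μ / 2
  hM : 0 < Λ - 1 + bet μ * Real.log r
  hα : 1 ≤ ‖alf a E q μ r‖

theorem ev_all (ha : 0 < a) (hq : 0 < q) (hμ : 1 < μ) (S : Sm E q μ (Real.exp (Λ / q)) K) :
    ∀ᶠ r in atTop, Ev a Λ μ E q r := by
  have hn0 : 0 < nu0 a E μ := nu0_pos ha hμ S.hE0
  have hnl := nu_lim (q := q) ha hq hμ S
  have htl := t0_lim (E := E) hq hμ
  have hts := t0_small (E := E) hq hμ S.hδ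
  have hμ0 : 0 < μ := by linarith
  have h0m : (0 : ℂ) ∈ ball (0 : ℂ) (Real.exp (Λ / q)) := mem_ball_self S.hδ
  have hre : Tendsto (fun r => (nu a E q μ r).re) atTop (𝓝 (nu0 a E μ)) := by
    have := (continuous_re.tendsto _).comp hnl
    rwa [ofReal_re] at this
  have hno : Tendsto (fun r => ‖nu a E q μ r‖) atTop (𝓝 (nu0 a E μ)) := by
    have := hnl.norm
    rwa [norm_real, Real.norm_of_nonneg hn0.le] at this
  have hhp : Tendsto (fun r => (nu a E q μ r * hp E q μ (t0 E q μ r) 0).re) atTop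
      (𝓝 ((nu0 a E μ : ℂ) * (1 + 1 / μ)).re) := by
    refine (continuous_re.tendsto _).comp (hnl.mul ?_)
    have hEc : ContinuousAt E 0 :=
      (S.hE.differentiableAt (isOpen_ball.mem_nhds h0m)).continuousAt
    have hNc : ContinuousAt (Nf E q μ) 0 :=
      ((Nf_diff S.hE).differentiableAt (isOpen_ball.mem_nhds h0m)).continuousAt
    have h1 : Tendsto (fun r => 1 + E (t0 E q μ r) / Nf E q μ (t0 E q μ r)) atTop
        (𝓝 (1 + E 0 / Nf E q μ 0)) :=
      ((hEc.tendsto.comp htl).div (hNc.tendsto.comp htl) (S.Nne h0m)).const_add 1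
    have h2 : E 0 / Nf E q μ 0 = 1 / μ := by
      rw [Nf_zero]
      have := S.hE0
      have hμc : (μ : ℂ) ≠ 0 := ofReal_ne_zero.2 hμ0.ne'
      field_simp
    rw [h2] at h1
    refine h1.congr fun r => ?_
    unfold hp
    rw [exp_zero, zero_div, exp_zero, mul_one, mul_zero, neg_zero, exp_zero, mul_one]
  have e1 : ((nu0 a E μ : ℂ) * (1 + 1 / μ)).re = nu0 a E μ * (1 + 1 / μ) := by
    have : ((nu0 a E μ : ℂ) * (1 + 1 / μ)) = ((nu0 a E μ * (1 + 1 / μ) : ℝ) : ℂ) := by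
      push_cast; ring
    rw [this, ofReal_re]
  rw [e1] at hhp
  have hb : Tendsto (fun r => -(nu a E q μ r).re + ‖nu a E q μ r‖ * (1 + 1 / 8)) atTop
      (𝓝 (-(nu0 a E μ) + nu0 a E μ * (1 + 1 / 8))) := hre.neg.add (hno.mul_const _)
  have hb' : ∀ᶠ r in atTop, -(nu a E q μ r).re + ‖nu a E q μ r‖ * (1 + 1 / 8) < nu0 a E μ / 2 :=
    hb.eventually (gt_mem_nhds (by linarith))
  have hlog := Real.tendsto_log_atTop.const_mul_atTop (bet_pos hμ)
  filter_upwards [eventually_ge_atTop 1, hts, hre.eventually (lt_mem_nhds hn0),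
    hhp.eventually (lt_mem_nhds (a := nu0 a E μ) (by
      have : 0 < nu0 a E μ * (1 / μ) := by positivity
      linarith)),
    hb',
    hlog.eventually_gt_atTop (1 - Λ), hno.eventually (lt_mem_nhds (half_lt_self hn0)),
    eventually_ge_atTop (2 / nu0 a E μ)] with r h1 h2 h3 h4 h5 h6 h7 h8
  have hr0 : 0 < r := by linarith
  refine ⟨h1, h2, h3, h4.le, h5.le, by linarith, ?_⟩
  unfold alf
  rw [norm_mul, norm_mul, norm_real, Real.norm_of_nonneg hr0.le, norm_exp, neg_re, s0_re, neg_neg]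
  have h9 : 1 ≤ Real.exp (bet μ * Real.log r) :=
    Real.one_le_exp (mul_nonneg (bet_pos hμ).le (Real.log_nonneg h1))
  have h10 : 1 ≤ r * ‖nu a E q μ r‖ := by
    rw [div_le_iff₀ hn0] at h8
    nlinarith
  nlinarith

theorem t_ball_of (hq : 0 < q) {r : ℝ} {y : ℂ} (hy : (s0 E μ r + y).re < Λ) :
    t0 E q μ r * exp (y / q) ∈ ball (0 : ℂ) (Real.exp (Λ / q)) := by
  have hq' : (0 : ℝ) < q := Nat.cast_pos.2 hq
  have e : t0 E q μ r * exp (y / q) = exp ((s0 E μ r + y) / q) := by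
    unfold t0
    rw [← exp_add]
    congr 1
    ring
  rw [e, mem_ball_zero_iff, norm_exp, ← ofReal_natCast, div_ofReal_re]
  exact Real.exp_lt_exp.2 (by gcongr)

theorem Wr_norm {r : ℝ} (h : Ev a Λ μ E q r) :
    ‖Wr a E q μ r‖ ≤ √r * Real.exp (bet μ * Real.log r) * Real.exp (-(nu0 a E μ * r)) := by
  unfold Wr
  have hr := h.hr
  rw [norm_mul, norm_mul, norm_real, Real.norm_of_nonneg (Real.sqrt_nonneg _), norm_exp, neg_re,
    s0_re, neg_neg, norm_exp]
  refine mul_le_mul_of_nonneg_left (Real.exp_le_exp.2 ?_) (by positivity)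
  rw [neg_re, mul_assoc, re_ofReal_mul]
  have := h.hh
  nlinarith

theorem Kr_eq (_ : 0 < q) (hμ : 1 < μ) (S : Sm E q μ (Real.exp (Λ / q)) K)
    (hT : ∀ σ : ℂ, σ.re < Λ → T σ = E (exp (σ / q)) * exp (-(μ * σ))) {r : ℝ}
    (h : Ev a Λ μ E q r) {y : ℂ} (hy : (s0 E μ r + y).re < Λ) :
    Kr a T E q μ r y = exp (r * nu a E q μ r * hp E q μ (t0 E q μ r) y) *
      (exp (s0 E μ r) * exp y) := by
  refine Ji_eq hμ S hT (by linarith [h.hr]) ?_ (t_mem h.ht) hy
  intro h0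
  have := h.hn
  rw [h0, zero_re] at this
  exact lt_irrefl _ this

theorem Wr_arc (hq : 0 < q) (hμ : 1 < μ) (S : Sm E q μ (Real.exp (Λ / q)) K)
    (hT : ∀ σ : ℂ, σ.re < Λ → T σ = E (exp (σ / q)) * exp (-(μ * σ))) {r : ℝ}
    (h : Ev a Λ μ E q r) :
    Wr a E q μ r * ∫ θ in (-Real.pi)..Real.pi, Kr a T E q μ r (θ * I) * I =
      I * (√r * ∫ θ in (-Real.pi)..Real.pi, exp (Hr a E q μ r θ) * exp (θ * I)) := by
  rw [← intervalIntegral.integral_const_mul, ← mul_assoc, ← intervalIntegral.integral_const_mul]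
  refine intervalIntegral.integral_congr fun θ _ => ?_
  have hy : (s0 E μ r + θ * I).re < Λ := by
    rw [s0y_re, theta_re]; linarith [h.hM]
  rw [Kr_eq hq hμ S hT h hy]
  unfold Wr Hr
  have e1 : exp (r * nu a E q μ r * (hp E q μ (t0 E q μ r) (θ * I) - hp E q μ (t0 E q μ r) 0)) =
      exp (-(r * nu a E q μ r * hp E q μ (t0 E q μ r) 0)) *
        exp (r * nu a E q μ r * hp E q μ (t0 E q μ r) (θ * I)) := by
    rw [← exp_add]; congr 1; ring
  have e2 : exp (-s0 E μ r) * exp (s0 E μ r) = 1 := by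
    rw [← exp_add, neg_add_cancel, exp_zero]
  rw [e1]
  linear_combination (√r * exp (-(r * nu a E q μ r * hp E q μ (t0 E q μ r) 0)) *
    exp (r * nu a E q μ r * hp E q μ (t0 E q μ r) (θ * I)) * exp (θ * I) * I) * e2

theorem Wr_ray (hq : 0 < q) (hμ : 1 < μ) (S : Sm E q μ (Real.exp (Λ / q)) K)
    (hT : ∀ σ : ℂ, σ.re < Λ → T σ = E (exp (σ / q)) * exp (-(μ * σ))) {r : ℝ}
    (h : Ev a Λ μ E q r) {c : ℂ} (hc : c.re = 0)
    (hce : ∀ ρ : ℝ, exp (ρ + c) = ((-Real.exp ρ : ℝ) : ℂ)) :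
    ‖Wr a E q μ r * ∫ ρ in (0 : ℝ)..(Λ - 1 + bet μ * Real.log r), Kr a T E q μ r (ρ + c)‖ ≤
      Real.exp (2 * (Λ - 1)) * (r ^ (1 / 2 + 2 * bet μ) * Real.exp (-(nu0 a E μ / 2) * r)) := by
  set M := Λ - 1 + bet μ * Real.log r with hMdef
  have hM : 0 < M := h.hM
  have hr0 : 0 < r := by linarith [h.hr]
  have hμ0 : 0 < μ := by linarith
  have h1 : ‖∫ ρ in (0 : ℝ)..M, Kr a T E q μ r (ρ + c)‖ ≤
      (Real.exp (r * (nu0 a E μ / 2)) * (Real.exp (-(bet μ * Real.log r)) * Real.exp M)) *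
        |M - 0| := by
    refine intervalIntegral.norm_integral_le_of_norm_le_const fun ρ hρ => ?_
    rw [uIoc_of_le hM.le] at hρ
    have hy : (s0 E μ r + (ρ + c)).re < Λ := by
      rw [s0y_re, ray_re hc]; linarith [hρ.2]
    rw [Kr_eq hq hμ S hT h hy, norm_mul, norm_mul, norm_exp, norm_exp, norm_exp, s0_re, ray_re hc,
      mul_assoc, re_ofReal_mul]
    have h2 : (nu a E q μ r * hp E q μ (t0 E q μ r) (ρ + c)).re ≤ nu0 a E μ / 2 := by
      unfold hp
      rw [hce, mul_add, add_re, mul_comm (nu a E q μ r) ((-Real.exp ρ : ℝ) : ℂ), re_ofReal_mul]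
      have h3 : (nu a E q μ r * (E (t0 E q μ r * exp ((ρ + c) / q)) * exp (-(μ * (ρ + c))) /
          Nf E q μ (t0 E q μ r))).re ≤ ‖nu a E q μ r‖ * (1 + 1 / 8) := by
        refine (re_le_norm _).trans ?_
        rw [norm_mul]
        refine mul_le_mul_of_nonneg_left ?_ (norm_nonneg _)
        rw [mul_div_right_comm, norm_mul]
        have h4 := S.hEN _ (t_ball_of hq hy) _ (t_mem h.ht)
        have h5 : ‖exp (-(μ * (ρ + c)) : ℂ)‖ ≤ 1 := by
          rw [norm_exp, neg_re, re_ofReal_mul, ray_re hc]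
          refine Real.exp_le_one_iff.2 ?_
          have := mul_pos hμ0 hρ.1
          linarith
        have h6 : 1 / μ ≤ 1 := by rw [div_le_one hμ0]; exact hμ.le
        calc ‖E (t0 E q μ r * exp ((ρ + c) / q)) / Nf E q μ (t0 E q μ r)‖ *
              ‖exp (-(μ * (ρ + c)) : ℂ)‖ ≤ (1 / μ + 1 / 8) * 1 := by gcongr
          _ ≤ _ := by linarith
      have h7 : -Real.exp ρ * (nu a E q μ r).re ≤ -(nu a E q μ r).re := by
        have h8 : 1 ≤ Real.exp ρ := Real.one_le_exp hρ.1.le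
        nlinarith [h.hn]
      linarith [h.hb]
    have h3 : ρ ≤ M := hρ.2
    gcongr
  have h2 := Wr_norm h
  have h3 : M ≤ Real.exp M := by linarith [Real.add_one_le_exp M]
  rw [sub_zero, abs_of_pos hM] at h1
  rw [norm_mul]
  have h4 : Real.exp M = Real.exp (Λ - 1) * r ^ bet μ := by
    rw [hMdef, Real.exp_add, Real.rpow_def_of_pos hr0, mul_comm (Real.log r)]
  calc ‖Wr a E q μ r‖ * ‖∫ ρ in (0 : ℝ)..M, Kr a T E q μ r (ρ + c)‖
      ≤ (√r * Real.exp (bet μ * Real.log r) * Real.exp (-(nu0 a E μ * r))) *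
        ((Real.exp (r * (nu0 a E μ / 2)) * (Real.exp (-(bet μ * Real.log r)) * Real.exp M)) *
          Real.exp M) := by
        gcongr
        exact h1.trans (by gcongr)
    _ = √r * (Real.exp (bet μ * Real.log r) * Real.exp (-(bet μ * Real.log r))) *
        (Real.exp (-(nu0 a E μ * r)) * Real.exp (r * (nu0 a E μ / 2))) *
          (Real.exp M * Real.exp M) := by ring
    _ = √r * Real.exp (-(nu0 a E μ / 2) * r) * (Real.exp M * Real.exp M) := by
        rw [← Real.exp_add, ← Real.exp_add, add_neg_cancel, Real.exp_zero, mul_one]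
        congr 3
        ring
    _ = _ := by
        rw [h4, Real.rpow_add hr0, Real.sqrt_eq_rpow, two_mul (Λ - 1), Real.exp_add,
          two_mul (bet μ), Real.rpow_add hr0]
        ring

theorem Wr_far (_ : 1 < μ) (hJB : JB a Λ T) : ∃ C : ℝ, ∀ r : ℝ, Ev a Λ μ E q r →
    ‖Wr a E q μ r * seg (Kr a T E q μ r)
      (((Λ - 1 + bet μ * Real.log r : ℝ) : ℂ) + -(Real.pi * I))
      (((Λ - 1 + bet μ * Real.log r : ℝ) : ℂ) + Real.pi * I)‖ ≤
      C * (r ^ (1 / 2 + bet μ) * Real.exp (-(nu0 a E μ) * r)) := by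
  set σ1 : ℂ := ((Λ - 1 : ℝ) : ℂ) + chi E μ * I + -(Real.pi * I) with hσ1
  have hre : σ1.re < Λ := by
    have : σ1.re = Λ - 1 := by
      rw [hσ1, add_re, add_re, pi_re', ofReal_re]
      simp
    rw [this]; linarith
  obtain ⟨C, hC⟩ := hJB σ1 hre
  refine ⟨|C|, fun r h => ?_⟩
  have hr0 : 0 < r := by linarith [h.hr]
  have e1 : seg (Kr a T E q μ r) (((Λ - 1 + bet μ * Real.log r : ℝ) : ℂ) + -(Real.pi * I))
      (((Λ - 1 + bet μ * Real.log r : ℝ) : ℂ) + Real.pi * I) =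
      seg (Ji a T (alf a E q μ r)) σ1 (σ1 + 2 * Real.pi * I) := by
    unfold seg Kr
    refine intervalIntegral.integral_congr fun t _ => ?_
    have e2 : (s0 E μ r + ((((Λ - 1 + bet μ * Real.log r : ℝ) : ℂ) + -(Real.pi * I)) +
        t * ((((Λ - 1 + bet μ * Real.log r : ℝ) : ℂ) + Real.pi * I) -
        (((Λ - 1 + bet μ * Real.log r : ℝ) : ℂ) + -(Real.pi * I)))) : ℂ) =
        σ1 + t * (σ1 + 2 * Real.pi * I - σ1) := by
      rw [hσ1]
      unfold s0
      push_cast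
      ring
    have e3 : ((((Λ - 1 + bet μ * Real.log r : ℝ) : ℂ) + Real.pi * I) -
        (((Λ - 1 + bet μ * Real.log r : ℝ) : ℂ) + -(Real.pi * I)) : ℂ) =
        σ1 + 2 * Real.pi * I - σ1 := by
      ring
    rw [e2, e3]
  have h1 := hC _ h.hα
  have h2 : (alf a E q μ r * exp σ1).re ≤ 0 := by
    have e2 : alf a E q μ r * exp σ1 =
        ((-(r * Real.exp (Λ - 1 + bet μ * Real.log r)) : ℝ) : ℂ) * nu a E q μ r := by
      unfold alf
      rw [mul_assoc, ← exp_add]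
      have e3 : -s0 E μ r + σ1 = ((Λ - 1 + bet μ * Real.log r : ℝ) : ℂ) + -(Real.pi * I) := by
        rw [hσ1]; unfold s0; push_cast; ring
      rw [e3, exp_pi']
      push_cast
      ring
    rw [e2, re_ofReal_mul]
    have h3 := h.hn
    have h4 : 0 < r * Real.exp (Λ - 1 + bet μ * Real.log r) := by positivity
    nlinarith
  have h3 : ‖seg (Ji a T (alf a E q μ r)) σ1 (σ1 + 2 * Real.pi * I)‖ ≤ |C| := by
    refine h1.trans ?_
    calc C * Real.exp ((alf a E q μ r * exp σ1).re)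
        ≤ |C| * Real.exp ((alf a E q μ r * exp σ1).re) := by
          gcongr; exact le_abs_self C
      _ ≤ |C| * 1 := by gcongr; exact Real.exp_le_one_iff.2 h2
      _ = |C| := mul_one _
  rw [e1, norm_mul]
  have h4 := Wr_norm h
  calc ‖Wr a E q μ r‖ * ‖seg (Ji a T (alf a E q μ r)) σ1 (σ1 + 2 * Real.pi * I)‖
      ≤ (√r * Real.exp (bet μ * Real.log r) * Real.exp (-(nu0 a E μ * r))) * |C| := by gcongr
    _ = _ := by
      rw [Real.rpow_add hr0, Real.sqrt_eq_rpow, Real.rpow_def_of_pos hr0 (bet μ),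
        mul_comm (Real.log r), neg_mul]
      ring

/-- **Larger pole orders are impossible.** -/
theorem partC0 (ha : 0 < a) (hq : 0 < q) (hμ : 1 < μ) (S : Sm E q μ (Real.exp (Λ / q)) K)
    (hJB : JB a Λ T) (hTd : DifferentiableOn ℂ T (re ⁻¹' Iio Λ))
    (hT : ∀ σ : ℂ, σ.re < Λ → T σ = E (exp (σ / q)) * exp (-(μ * σ))) : False := by
  have hn0 : 0 < nu0 a E μ := nu0_pos ha hμ S.hE0
  have hev := ev_all ha hq hμ S
  have l1 := arc_lim ha hq hμ S
  have hdec : ∀ r : ℝ, Ev a Λ μ E q r →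
      I * (√r * ∫ θ in (-Real.pi)..Real.pi, exp (Hr a E q μ r θ) * exp (θ * I)) =
      Wr a E q μ r * seg (Kr a T E q μ r)
        (((Λ - 1 + bet μ * Real.log r : ℝ) : ℂ) + -(Real.pi * I))
        (((Λ - 1 + bet μ * Real.log r : ℝ) : ℂ) + Real.pi * I) -
      Wr a E q μ r * (∫ ρ in (0 : ℝ)..(Λ - 1 + bet μ * Real.log r),
        Kr a T E q μ r (ρ + Real.pi * I)) +
      Wr a E q μ r * ∫ ρ in (0 : ℝ)..(Λ - 1 + bet μ * Real.log r),
        Kr a T E q μ r (ρ + -(Real.pi * I)) := by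
    intro r h
    set M := Λ - 1 + bet μ * Real.log r with hMdef
    have hM : 0 < M := h.hM
    have hKd : DifferentiableOn ℂ (Kr a T E q μ r) (re ⁻¹' Iio (M + 1)) := by
      unfold Kr
      refine (Ji_diff (a := a) hTd (alf a E q μ r)).comp
        (fun y _ => (differentiableAt_id.const_add _).differentiableWithinAt) fun y hy => ?_
      rw [mem_preimage, mem_Iio] at hy
      rw [mem_preimage, mem_Iio]
      have := s0y_re (E := E) (μ := μ) r y
      rw [hMdef] at hy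
      show (s0 E μ r + y).re < Λ
      linarith
    obtain ⟨hadd, -⟩ := t_SEG (re ⁻¹' Iio (M + 1)) (Kr a T E q μ r)
      (isOpen_Iio.preimage continuous_re) (convex_halfSpace_re_lt _) hKd
    have m1 : (M + -(Real.pi * I) : ℂ) ∈ (re ⁻¹' Iio (M + 1) : Set ℂ) := by
      rw [mem_preimage, ray_re pi_re', mem_Iio]; linarith
    have m2 : (-(Real.pi * I) : ℂ) ∈ (re ⁻¹' Iio (M + 1) : Set ℂ) := by
      rw [mem_preimage, pi_re', mem_Iio]; linarith
    have m3 : (Real.pi * I : ℂ) ∈ (re ⁻¹' Iio (M + 1) : Set ℂ) := by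
      rw [mem_preimage, pi_re, mem_Iio]; linarith
    have m4 : (M + Real.pi * I : ℂ) ∈ (re ⁻¹' Iio (M + 1) : Set ℂ) := by
      rw [mem_preimage, ray_re pi_re, mem_Iio]; linarith
    have a1 := hadd _ m1 _ m2 _ m3
    have a2 := hadd _ m1 _ m3 _ m4
    rw [← Wr_arc hq hμ S hT h, ← a2, ← a1, seg_arc, seg_ray _ _ hM, seg_symm, seg_ray _ _ hM]
    ring
  -- the right hand side tends to zero
  obtain ⟨C, hC⟩ := Wr_far (E := E) (q := q) hμ hJB
  have z1 : Tendsto (fun r => C * (r ^ (1 / 2 + bet μ) * Real.exp (-(nu0 a E μ) * r))) atTop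
      (𝓝 0) := by
    have := (tendsto_rpow_mul_exp_neg_mul_atTop_nhds_zero (1 / 2 + bet μ) (nu0 a E μ)
      hn0).const_mul C
    rwa [mul_zero] at this
  have z2 : Tendsto (fun r => Real.exp (2 * (Λ - 1)) *
      (r ^ (1 / 2 + 2 * bet μ) * Real.exp (-(nu0 a E μ / 2) * r))) atTop (𝓝 0) := by
    have := (tendsto_rpow_mul_exp_neg_mul_atTop_nhds_zero (1 / 2 + 2 * bet μ) (nu0 a E μ / 2)
      (half_pos hn0)).const_mul (Real.exp (2 * (Λ - 1)))
    rwa [mul_zero] at this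
  have w1 := squeeze_zero_norm' (hev.mono fun r h => hC r h) z1
  have w2 := squeeze_zero_norm' (hev.mono fun r h => Wr_ray hq hμ S hT h pi_re exp_pi) z2
  have w3 := squeeze_zero_norm' (hev.mono fun r h => Wr_ray hq hμ S hT h pi_re' exp_pi') z2
  have w4 := (w1.sub w2).add w3
  rw [sub_zero, add_zero] at w4
  have w5 := (l1.const_mul I).congr' (hev.mono fun r h => hdec r h)
  have w6 := tendsto_nhds_unique w5 w4
  have hm : 0 < nu0 a E μ * ((1 + μ) / 2) := by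
    have : 0 < 1 + μ := by linarith
    positivity
  rcases mul_eq_zero.1 w6 with h | h
  · exact I_ne_zero h
  · exact gauss_ne hm h

theorem Sm.mono (S : Sm E q μ δ K) {δ' : ℝ} (h : δ' ≤ δ) (hδ' : 0 < δ') : Sm E q μ δ' K where
  hμ := S.hμ
  hE := S.hE.mono (ball_subset_ball h)
  hδ := hδ'
  hK := S.hK
  hE0 := S.hE0
  hEK := fun t ht => S.hEK t (ball_subset_ball h ht)
  hNK := fun t ht => S.hNK t (ball_subset_ball h ht)
  hN := fun t ht => S.hN t (ball_subset_ball h ht)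
  hEN := fun t ht t' ht' => S.hEN t (ball_subset_ball h ht) t' (ball_subset_ball h ht')

theorem partC (ha : 0 < a) (hq : 0 < q) (hμ : 1 < μ) (hJB : JB a Λ T)
    (hTd : DifferentiableOn ℂ T (re ⁻¹' Iio Λ))
    (hE : DifferentiableOn ℂ E (ball 0 (Real.exp (Λ / q)))) (hE0 : E 0 ≠ 0)
    (hT : ∀ σ : ℂ, σ.re < Λ → T σ = E (exp (σ / q)) * exp (-(μ * σ))) : False := by
  have hq' : (0 : ℝ) < q := Nat.cast_pos.2 hq
  obtain ⟨δ, K, hδ, S⟩ := exists_sm (q := q) (μ := μ) (by linarith) (Real.exp_pos _) hE hE0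
  set Λ' := q * Real.log δ with hΛ'
  have h1 : Real.exp (Λ' / q) = δ := by
    rw [hΛ', mul_div_cancel_left₀ _ hq'.ne', Real.exp_log S.hδ]
  have h2 : Λ' ≤ Λ := by
    have h3 : Real.exp (Λ' / q) ≤ Real.exp (Λ / q) := by rw [h1]; exact hδ
    have h4 := Real.exp_le_exp.1 h3
    rwa [div_le_div_iff_of_pos_right hq'] at h4
  rw [← h1] at S
  exact partC0 (Λ := Λ') ha hq hμ S (fun σ1 h => hJB σ1 (h.trans_le h2))
    (hTd.mono fun s hs => lt_of_lt_of_le hs h2) fun σ hσ => hT σ (hσ.trans_le h2)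

end Pool.Agent.E8helper32.SA
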