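import Pool.Agent.E8helper32.SA.Hk
import Pool.Agent.E8helper32.SA.Jb

/-!
# The case of equal orders
-/

set_option autoImplicit false

open Complex MeasureTheory Metric Set Filter Topology ComplexConjugate

namespace Pool.Agent.E8helper32.SA

open Pool.Agent.Y245.SC (seg t_SEG)
open Pool.Agent.Y245.SG (Bn)

variable {a Λ : ℝ} {q : ℕ} {T E : ℂ → ℂ}

/-- the rescaled integrand -/
noncomputable def Kj (a : ℝ) (T : ℂ → ℂ) (j : ℕ) (τ : ℝ) (y : ℂ) : ℂ :=
  τ * Ji a T τ (y + (-(Real.log τ : ℂ) + j * (2 * Real.pi * I)))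

/-- the point `t` -/
noncomputable def tj (q j : ℕ) (τ : ℝ) (y : ℂ) : ℂ :=
  exp ((y + (-(Real.log τ : ℂ) + j * (2 * Real.pi * I))) / q)

theorem sh_re (j : ℕ) (τ : ℝ) (y : ℂ) :
    (y + (-(Real.log τ : ℂ) + j * (2 * Real.pi * I))).re = y.re - Real.log τ := by
  have h1 : ((j : ℂ) * (2 * Real.pi * I)).re = 0 := by
    have : ((j : ℂ) * (2 * Real.pi * I)) = ((j * (2 * Real.pi) : ℝ) : ℂ) * I := by
      push_cast; ring
    rw [this, re_ofReal_mul, I_re, mul_zero]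
  rw [add_re, add_re, h1, neg_re, ofReal_re]
  ring

theorem sh_exp (j : ℕ) {τ : ℝ} (hτ : 0 < τ) (y : ℂ) :
    exp (y + (-(Real.log τ : ℂ) + j * (2 * Real.pi * I))) = exp y / τ := by
  rw [exp_add, exp_add, exp_nat_mul_two_pi_mul_I, mul_one, exp_neg, ← ofReal_exp,
    Real.exp_log hτ, div_eq_mul_inv]

theorem Ji_diff (hT : DifferentiableOn ℂ T (re ⁻¹' Iio Λ)) (α : ℂ) :
    DifferentiableOn ℂ (Ji a T α) (re ⁻¹' Iio Λ) := by
  have hUo : IsOpen (re ⁻¹' Iio Λ : Set ℂ) := isOpen_Iio.preimage continuous_re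
  intro s hs
  have h1 : DifferentiableAt ℂ T s := hT.differentiableAt (hUo.mem_nhds hs)
  refine DifferentiableAt.differentiableWithinAt ?_
  unfold Ji
  exact (((differentiableAt_exp.const_mul _).sub (h1.const_mul _)).cexp).mul differentiableAt_exp

theorem Kj_diff (hT : DifferentiableOn ℂ T (re ⁻¹' Iio Λ)) (j : ℕ) (τ : ℝ) :
    DifferentiableOn ℂ (Kj a T j τ) (re ⁻¹' Iio (Λ + Real.log τ)) := by
  have h1 := Ji_diff (a := a) hT τ
  unfold Kj
  refine DifferentiableOn.const_mul (h1.comp (t := re ⁻¹' Iio Λ)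
    (fun y _ => (differentiableAt_id.add_const _).differentiableWithinAt) ?_) _
  intro y hy
  rw [mem_preimage, mem_Iio] at hy
  rw [mem_preimage, mem_Iio]
  have := sh_re j τ y
  simp only [id] at *
  linarith

theorem Kj_seg (j : ℕ) (Λ1 τ : ℝ) :
    seg (Kj a T j τ) (((Λ1 + Real.log τ : ℝ) : ℂ) + -(Real.pi * I))
      (((Λ1 + Real.log τ : ℝ) : ℂ) + Real.pi * I) =
      τ * seg (Ji a T τ) (Λ1 + -(Real.pi * I) + j * (2 * Real.pi * I))
        (Λ1 + -(Real.pi * I) + j * (2 * Real.pi * I) + 2 * Real.pi * I) := by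
  unfold seg Kj
  rw [← intervalIntegral.integral_const_mul]
  refine intervalIntegral.integral_congr fun t _ => ?_
  have e1 : ((((Λ1 + Real.log τ : ℝ) : ℂ) + -(Real.pi * I)) +
      t * ((((Λ1 + Real.log τ : ℝ) : ℂ) + Real.pi * I) -
        (((Λ1 + Real.log τ : ℝ) : ℂ) + -(Real.pi * I)))) +
      (-(Real.log τ : ℂ) + j * (2 * Real.pi * I)) =
      (Λ1 + -(Real.pi * I) + j * (2 * Real.pi * I)) + t *
      ((Λ1 + -(Real.pi * I) + j * (2 * Real.pi * I) + 2 * Real.pi * I) -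
        (Λ1 + -(Real.pi * I) + j * (2 * Real.pi * I))) := by
    push_cast
    ring
  have e2 : ((((Λ1 + Real.log τ : ℝ) : ℂ) + Real.pi * I) -
        (((Λ1 + Real.log τ : ℝ) : ℂ) + -(Real.pi * I))) =
      ((Λ1 + -(Real.pi * I) + j * (2 * Real.pi * I) + 2 * Real.pi * I) -
        (Λ1 + -(Real.pi * I) + j * (2 * Real.pi * I)) : ℂ) := by
    ring
  rw [e1, e2]
  ring

/-- the far side tends to zero -/
theorem Kj_far (hJB : JB a Λ T) {Λ1 : ℝ} (hΛ1 : Λ1 < Λ) (j : ℕ) (s : ℝ) :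
    Tendsto (fun τ : ℝ => ((τ ^ s : ℝ) : ℂ) *
      seg (Kj a T j τ) (((Λ1 + Real.log τ : ℝ) : ℂ) + -(Real.pi * I))
      (((Λ1 + Real.log τ : ℝ) : ℂ) + Real.pi * I)) atTop (𝓝 0) := by
  set σ1 : ℂ := Λ1 + -(Real.pi * I) + j * (2 * Real.pi * I) with hσ1
  have hσre : σ1.re < Λ := by
    have h1 : ((j : ℂ) * (2 * Real.pi * I)).re = 0 := by
      have : ((j : ℂ) * (2 * Real.pi * I)) = ((j * (2 * Real.pi) : ℝ) : ℂ) * I := by
        push_cast; ring
      rw [this, re_ofReal_mul, I_re, mul_zero]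
    rw [hσ1, add_re, add_re, h1, pi_re', ofReal_re]
    linarith
  obtain ⟨C, hC⟩ := hJB σ1 hσre
  have hexp : exp σ1 = ((-Real.exp Λ1 : ℝ) : ℂ) := by
    rw [hσ1, exp_add, exp_nat_mul_two_pi_mul_I, mul_one, exp_pi']
  have hlim := (tendsto_rpow_mul_exp_neg_mul_atTop_nhds_zero (s + 1) (Real.exp Λ1)
    (Real.exp_pos _)).const_mul C
  rw [mul_zero] at hlim
  refine squeeze_zero_norm' ?_ hlim
  filter_upwards [eventually_ge_atTop 1] with τ hτ
  have hτ0 : 0 < τ := by linarith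
  rw [Kj_seg, ← hσ1, norm_mul, norm_mul, norm_real, norm_real,
    Real.norm_of_nonneg (Real.rpow_nonneg hτ0.le _), Real.norm_of_nonneg hτ0.le]
  have h1 := hC τ (by rw [norm_real, Real.norm_of_nonneg hτ0.le]; exact hτ)
  rw [hexp, ← ofReal_mul, ofReal_re] at h1
  have e : τ * -Real.exp Λ1 = -Real.exp Λ1 * τ := by ring
  rw [e] at h1
  calc τ ^ s * (τ * ‖seg (Ji a T τ) σ1 (σ1 + 2 * Real.pi * I)‖)
      ≤ τ ^ s * (τ * (C * Real.exp (-Real.exp Λ1 * τ))) := by gcongr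
    _ = C * (τ ^ (s + 1) * Real.exp (-Real.exp Λ1 * τ)) := by
      rw [Real.rpow_add_one hτ0.ne']; ring

theorem Kj_eq (hT : ∀ σ : ℂ, σ.re < Λ → T σ = E (exp (σ / q)) * exp (-σ)) (j : ℕ) {τ : ℝ}
    (hτ : 0 < τ) {y : ℂ} (hy : y.re < Λ + Real.log τ) :
    Kj a T j τ y = exp (exp y - a * E (tj q j τ y) * exp (-y)) * exp y := by
  have h1 := sh_re j τ y
  have hτc : (τ : ℂ) ≠ 0 := ofReal_ne_zero.2 hτ.ne'
  unfold Kj Ji
  rw [hT _ (by rw [h1]; linarith), exp_neg, sh_exp j hτ]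
  have e1 : (τ : ℂ) * (exp y / τ) = exp y := by field_simp
  have e2 : (a : ℂ) / τ * (E (exp ((y + (-(Real.log τ : ℂ) + j * (2 * Real.pi * I))) / q)) *
      (exp y / τ)⁻¹) = a * E (tj q j τ y) * exp (-y) := by
    unfold tj
    rw [exp_neg]
    field_simp
  rw [e2, mul_left_comm, e1]

theorem tj_norm (_ : 0 < q) (j : ℕ) (τ : ℝ) (y : ℂ) :
    ‖tj q j τ y‖ = Real.exp ((y.re - Real.log τ) / q) := by
  unfold tj
  rw [norm_exp, ← ofReal_natCast q, div_ofReal_re, sh_re]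

theorem tj_mem (hq : 0 < q) (j : ℕ) {τ Λ1 : ℝ} {y : ℂ} (hy : y.re ≤ Λ1 + Real.log τ) :
    tj q j τ y ∈ closedBall (0 : ℂ) (Real.exp (Λ1 / q)) := by
  rw [mem_closedBall_zero_iff, tj_norm hq]
  have hq' : (0 : ℝ) < q := Nat.cast_pos.2 hq
  exact Real.exp_le_exp.2 (by gcongr; linarith)

theorem tj_tendsto (hq : 0 < q) (j : ℕ) (y : ℂ) : Tendsto (fun τ => tj q j τ y) atTop (𝓝 0) := by
  have hq' : (0 : ℝ) < q := Nat.cast_pos.2 hq
  rw [tendsto_zero_iff_norm_tendsto_zero]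
  have h1 : Tendsto (fun τ : ℝ => (y.re - Real.log τ) / q) atTop atBot := by
    refine Tendsto.atBot_div_const hq' ?_
    have h2 : Tendsto (fun τ : ℝ => -Real.log τ) atTop atBot :=
      tendsto_neg_atTop_atBot.comp Real.tendsto_log_atTop
    simpa only [sub_eq_add_neg] using tendsto_atBot_add_const_left atTop y.re h2
  have h2 := Real.tendsto_exp_atBot.comp h1
  refine h2.congr fun τ => ?_
  rw [tj_norm hq]
  rfl

theorem cb_sub (hq : 0 < q) {Λ1 : ℝ} (h : Λ1 < Λ) :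
    closedBall (0 : ℂ) (Real.exp (Λ1 / q)) ⊆ ball 0 (Real.exp (Λ / q)) := by
  have hq' : (0 : ℝ) < q := Nat.cast_pos.2 hq
  exact closedBall_subset_ball (Real.exp_lt_exp.2 (by gcongr))

theorem exists_bd (hq : 0 < q) {Λ1 : ℝ} (h : Λ1 < Λ)
    (hE : DifferentiableOn ℂ E (ball 0 (Real.exp (Λ / q)))) :
    ∃ B : ℝ, 0 ≤ B ∧ ∀ t ∈ closedBall (0 : ℂ) (Real.exp (Λ1 / q)), ‖E t‖ ≤ B := by
  obtain ⟨B, hB⟩ := (isCompact_closedBall (0 : ℂ) (Real.exp (Λ1 / q))).exists_bound_of_continuousOn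
    (hE.continuousOn.mono (cb_sub hq h))
  exact ⟨B, (norm_nonneg _).trans (hB 0 (mem_closedBall_self (Real.exp_pos _).le)), hB⟩

/-- a bound for the exponential -/
theorem exp_bd {a B : ℝ} (ha : 0 ≤ a) {w e : ℂ} (hw : ‖w‖ ≤ B) (he : ‖e‖ ≤ 1) :
    ‖exp (-(a * w * e))‖ ≤ Real.exp (a * B) := by
  rw [norm_exp]
  refine Real.exp_le_exp.2 ((re_le_norm _).trans ?_)
  rw [norm_neg, norm_mul, norm_mul, norm_real, Real.norm_of_nonneg ha]
  have h1 : 0 ≤ B := (norm_nonneg _).trans hw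
  calc a * ‖w‖ * ‖e‖ ≤ a * B * 1 := by gcongr
    _ = a * B := mul_one _

theorem ray_re {c : ℂ} (hc : c.re = 0) (ρ : ℝ) : ((ρ : ℂ) + c).re = ρ := by
  rw [add_re, hc, ofReal_re, add_zero]

theorem theta_re (θ : ℝ) : ((θ : ℂ) * I).re = 0 := by simp

theorem enorm_ray {c : ℂ} (hc : c.re = 0) {ρ : ℝ} (hρ : 0 ≤ ρ) : ‖exp (-((ρ : ℂ) + c))‖ ≤ 1 := by
  rw [norm_exp, neg_re, ray_re hc]
  exact Real.exp_le_one_iff.2 (by linarith)

/-- **The first level.** -/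
theorem level_one (ha : 0 < a) (hq : 0 < q) (hJB : JB a Λ T)
    (hTd : DifferentiableOn ℂ T (re ⁻¹' Iio Λ))
    (hE : DifferentiableOn ℂ E (ball 0 (Real.exp (Λ / q))))
    (hT : ∀ σ : ℂ, σ.re < Λ → T σ = E (exp (σ / q)) * exp (-σ)) : Hk 1 (a * E 0) = 0 := by
  have hΛ1 : Λ - 1 < Λ := by linarith
  obtain ⟨B, hB0, hB⟩ := exists_bd hq hΛ1 hE
  have hM : Tendsto (fun τ : ℝ => Λ - 1 + Real.log τ) atTop atTop :=
    tendsto_atTop_add_const_left _ _ Real.tendsto_log_atTop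
  have hlog := Real.tendsto_log_atTop.eventually_gt_atTop (|Λ| + 1)
  have hEc : ContinuousAt E 0 :=
    (hE.differentiableAt (isOpen_ball.mem_nhds (mem_ball_self (Real.exp_pos _)))).continuousAt
  refine hankel (K := fun τ => Kj a T 0 τ) (K0 := hF 1 (a * E 0)) (M := fun τ => Λ - 1 + Real.log τ)
    (g := fun ρ => Real.exp (a * B) * gs 1 ρ) (C := Real.exp 1 * Real.exp (a * B)) hM
    ((gs_int 1).const_mul _) ?_ ?_ ?_ ?_ ?_
  · refine Eventually.of_forall fun τ => ?_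
    have h1 := Kj_diff (a := a) hTd 0 τ
    have e : Λ - 1 + Real.log τ + 1 = Λ + Real.log τ := by ring
    rw [e]
    exact h1
  · intro y
    have h1 : Tendsto (fun τ => exp (exp y - a * E (tj q 0 τ y) * exp (-y)) * exp y) atTop
        (𝓝 (exp (exp y - a * E 0 * exp (-y)) * exp y)) := by
      have h2 : Tendsto (fun τ => E (tj q 0 τ y)) atTop (𝓝 (E 0)) :=
        hEc.tendsto.comp (tj_tendsto hq 0 y)
      exact ((continuous_exp.tendsto _).comp
        (tendsto_const_nhds.sub ((h2.const_mul _).mul_const _))).mul_const _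
    have h2 : exp (exp y - a * E 0 * exp (-y)) * exp y = hF 1 (a * E 0) y := by
      unfold hF
      rw [← exp_add]
      congr 1
      push_cast
      ring
    rw [h2] at h1
    refine h1.congr' ?_
    filter_upwards [Real.tendsto_log_atTop.eventually_gt_atTop (y.re - Λ),
      eventually_gt_atTop 0] with τ h3 h4
    exact (Kj_eq hT 0 h4 (by linarith)).symm
  · filter_upwards [hlog, eventually_gt_atTop 0] with τ h3 h4 θ _
    have h5 : (θ * I : ℂ).re ≤ Λ - 1 + Real.log τ := by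
      rw [theta_re]
      have := neg_abs_le Λ
      linarith
    rw [Kj_eq hT 0 h4 (by linarith)]
    have h6 := exp_bd ha.le (hB _ (tj_mem hq 0 h5)) (e := exp (-(θ * I))) (by
      rw [norm_exp, neg_re, theta_re, neg_zero, Real.exp_zero])
    rw [sub_eq_add_neg, exp_add, norm_mul, norm_mul, norm_exp_ofReal_mul_I, mul_one]
    refine mul_le_mul ?_ h6 (norm_nonneg _) (Real.exp_pos _).le
    rw [norm_exp]
    refine Real.exp_le_exp.2 ((re_le_norm _).trans ?_)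
    rw [norm_exp_ofReal_mul_I]
  · have key : ∀ c : ℂ, c.re = 0 → (∀ ρ : ℝ, exp (ρ + c) = ((-Real.exp ρ : ℝ) : ℂ)) →
        ∀ τ : ℝ, 0 < τ → ∀ ρ ∈ Ioc 0 (Λ - 1 + Real.log τ),
        ‖Kj a T 0 τ (ρ + c)‖ ≤ Real.exp (a * B) * gs 1 ρ := by
      intro c hc hce τ h4 ρ hρ
      have h5 : (ρ + c : ℂ).re ≤ Λ - 1 + Real.log τ := by
        rw [ray_re hc]; exact hρ.2
      rw [Kj_eq hT 0 h4 (by linarith)]
      have h6 := exp_bd ha.le (hB _ (tj_mem hq 0 h5)) (enorm_ray hc hρ.1.le)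
      rw [sub_eq_add_neg, exp_add, norm_mul, norm_mul, hce, norm_exp, ofReal_re, norm_real,
        norm_neg, Real.norm_of_nonneg (Real.exp_pos _).le]
      unfold gs
      have h7 : Real.exp (1 * ρ - Real.exp ρ) = Real.exp (-Real.exp ρ) * Real.exp ρ := by
        rw [← Real.exp_add]; congr 1; ring
      rw [h7]
      calc Real.exp (-Real.exp ρ) * ‖exp (-(a * E (tj q 0 τ (ρ + c)) * exp (-(ρ + c))))‖ *
            Real.exp ρ ≤ Real.exp (-Real.exp ρ) * Real.exp (a * B) * Real.exp ρ := by gcongr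
        _ = _ := by ring
    filter_upwards [eventually_gt_atTop 0] with τ h4 ρ hρ
    exact ⟨key _ pi_re exp_pi τ h4 ρ hρ, key _ pi_re' exp_pi' τ h4 ρ hρ⟩
  · have h1 := Kj_far hJB hΛ1 0 0
    simp only [Real.rpow_zero, ofReal_one, one_mul] at h1
    exact h1

end Pool.Agent.E8helper32.SA
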