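import Pool.Agent.E8helper32.SA.De

/-!
# The second level for two germs
-/

set_option autoImplicit false

open Complex MeasureTheory Metric Set Filter Topology ComplexConjugate

namespace Pool.Agent.E8helper32.SA

open Pool.Agent.Y245.SC (seg t_SEG)
open Pool.Agent.Y245.SG (Bn)

variable {a Λ : ℝ} {q : ℕ} {T T' E E' : ℂ → ℂ}

/-- the factorisation -/
theorem Kj_sub' (hT : ∀ σ : ℂ, σ.re < Λ → T σ = E (exp (σ / q)) * exp (-σ))
    (hT' : ∀ σ : ℂ, σ.re < Λ → T' σ = E' (exp (σ / q)) * exp (-σ)) {n : ℕ} {D : ℂ → ℂ}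
    (hq : 0 < q) (hED : ∀ t ∈ ball (0 : ℂ) (Real.exp (Λ / q)), E t - E' t = t ^ n * D t)
    {τ : ℝ} (hτ : 0 < τ) {y : ℂ} (hy : y.re < Λ + Real.log τ) :
    Kj a T 0 τ y - Kj a T' 0 τ y = exp (exp y + -(a * E' (tj q 0 τ y) * exp (-y))) * exp y *
      (exp (-(a * (tj q 0 τ y ^ n * D (tj q 0 τ y)) * exp (-y))) - 1) := by
  rw [Kj_eq hT 0 hτ hy, Kj_eq hT' 0 hτ hy]
  have hm : tj q 0 τ y ∈ ball (0 : ℂ) (Real.exp (Λ / q)) := by
    rw [mem_ball_zero_iff, tj_norm hq]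
    have hq' : (0 : ℝ) < q := Nat.cast_pos.2 hq
    exact Real.exp_lt_exp.2 (by gcongr; linarith)
  rw [← hED _ hm, sub_eq_add_neg (exp y), sub_eq_add_neg (exp y)]
  have h1 : exp (exp y + -(a * E (tj q 0 τ y) * exp (-y))) =
      exp (exp y + -(a * E' (tj q 0 τ y) * exp (-y))) *
        exp (-(a * (E (tj q 0 τ y) - E' (tj q 0 τ y)) * exp (-y))) := by
    rw [← exp_add]
    congr 1
    ring
  rw [h1]
  ring

theorem level_two_germs (ha : 0 < a) (hq : 0 < q) (hJB : JB a Λ T) (hJB' : JB a Λ T')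
    (hTd : DifferentiableOn ℂ T (re ⁻¹' Iio Λ)) (hTd' : DifferentiableOn ℂ T' (re ⁻¹' Iio Λ))
    (hE : DifferentiableOn ℂ E (ball 0 (Real.exp (Λ / q))))
    (hE' : DifferentiableOn ℂ E' (ball 0 (Real.exp (Λ / q)))) (h00 : E' 0 = E 0)
    (hT : ∀ σ : ℂ, σ.re < Λ → T σ = E (exp (σ / q)) * exp (-σ))
    (hT' : ∀ σ : ℂ, σ.re < Λ → T' σ = E' (exp (σ / q)) * exp (-σ)) {n : ℕ} {D : ℂ → ℂ}
    (hD : DifferentiableOn ℂ D (ball 0 (Real.exp (Λ / q)))) (hD0 : D 0 ≠ 0)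
    (hED : ∀ t ∈ ball (0 : ℂ) (Real.exp (Λ / q)), E t - E' t = t ^ n * D t) :
    Hk (n / q) (a * E 0) = 0 := by
  have hΛ1 : Λ - 1 < Λ := by linarith
  obtain ⟨B1, hB10, hBE⟩ := exists_bd hq hΛ1 hE
  obtain ⟨B2, hB20, hBE'⟩ := exists_bd hq hΛ1 hE'
  obtain ⟨B, hB0, hB, hB2⟩ : ∃ B : ℝ, 0 ≤ B ∧
      (∀ t ∈ closedBall (0 : ℂ) (Real.exp ((Λ - 1) / q)), ‖E t‖ ≤ B) ∧
      ∀ t ∈ closedBall (0 : ℂ) (Real.exp ((Λ - 1) / q)), ‖E' t‖ ≤ B :=
    ⟨max B1 B2, hB10.trans (le_max_left _ _), fun t ht => (hBE t ht).trans (le_max_left _ _),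
      fun t ht => (hBE' t ht).trans (le_max_right _ _)⟩
  obtain ⟨B', hB'0, hB'⟩ := exists_bd hq hΛ1 hD
  set ν : ℝ := (n : ℝ) / q with hν
  have hM : Tendsto (fun τ : ℝ => Λ - 1 + Real.log τ) atTop atTop :=
    tendsto_atTop_add_const_left _ _ Real.tendsto_log_atTop
  have hlog := Real.tendsto_log_atTop.eventually_gt_atTop (|Λ| + 1)
  have h0m : (0 : ℂ) ∈ ball (0 : ℂ) (Real.exp (Λ / q)) := mem_ball_self (Real.exp_pos _)
  have hEc : ContinuousAt E 0 := (hE.differentiableAt (isOpen_ball.mem_nhds h0m)).continuousAt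
  have hEc' : ContinuousAt E' 0 := (hE'.differentiableAt (isOpen_ball.mem_nhds h0m)).continuousAt
  have hDc : ContinuousAt D 0 := (hD.differentiableAt (isOpen_ball.mem_nhds h0m)).continuousAt
  -- the bound of the last factor
  have hz : ∀ τ : ℝ, 0 < τ → ∀ y : ℂ, y.re ≤ Λ - 1 + Real.log τ → ‖exp (-y)‖ ≤ 1 →
      ‖((τ ^ ν : ℝ) : ℂ) * (exp (-(a * (tj q 0 τ y ^ n * D (tj q 0 τ y)) * exp (-y))) - 1)‖ ≤
        a * Real.exp (ν * y.re) * B' * ‖exp (-y)‖ * Real.exp (a * (2 * B)) := by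
    intro τ hτ y hy he
    set z := -(a * (tj q 0 τ y ^ n * D (tj q 0 τ y)) * exp (-y)) with hzdef
    have hm := tj_mem hq 0 (y := y) hy
    have hm1 := tj_mem hq 0 (y := y) hy
    have h1 : ‖z‖ ≤ a * (2 * B) := by
      rw [hzdef, norm_neg, norm_mul, norm_mul, norm_real, Real.norm_of_nonneg ha.le,
        ← hED _ (cb_sub hq hΛ1 hm)]
      have h2 : ‖E (tj q 0 τ y) - E' (tj q 0 τ y)‖ ≤ 2 * B := by
        refine (norm_sub_le _ _).trans ?_
        linarith [hB _ hm, hB2 _ hm1]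
      calc a * ‖E (tj q 0 τ y) - E' (tj q 0 τ y)‖ * ‖exp (-y)‖ ≤ a * (2 * B) * 1 := by gcongr
        _ = _ := mul_one _
    have h2 : ‖((τ ^ ν : ℝ) : ℂ) * z‖ ≤ a * Real.exp (ν * y.re) * B' * ‖exp (-y)‖ := by
      have e : ((τ ^ ν : ℝ) : ℂ) * z = -(a * exp ((ν : ℂ) * y) * D (tj q 0 τ y) * exp (-y)) := by
        rw [hzdef, ← tj_pow (q := q) n hτ y]
        ring
      rw [e, norm_neg, norm_mul, norm_mul, norm_mul, norm_real, Real.norm_of_nonneg ha.le,
        norm_exp ((ν : ℂ) * y), re_ofReal_mul]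
      have := hB' _ hm
      gcongr
    rw [norm_mul] at h2 ⊢
    calc ‖((τ ^ ν : ℝ) : ℂ)‖ * ‖exp z - 1‖ ≤ ‖((τ ^ ν : ℝ) : ℂ)‖ * (‖z‖ * Real.exp ‖z‖) := by
          gcongr; exact exp_one_bd z
      _ = (‖((τ ^ ν : ℝ) : ℂ)‖ * ‖z‖) * Real.exp ‖z‖ := by ring
      _ ≤ _ := by gcongr
  have hmain := hankel (K := fun τ y => ((τ ^ ν : ℝ) : ℂ) * (Kj a T 0 τ y - Kj a T' 0 τ y))
    (K0 := fun y => -(a * D 0) * hF ν (a * E 0) y) (M := fun τ => Λ - 1 + Real.log τ)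
    (g := fun ρ => a * B' * Real.exp (a * (2 * B)) * Real.exp (a * B) * gs ν ρ)
    (C := a * B' * Real.exp (a * (2 * B)) * Real.exp (a * B) * Real.exp 1) hM
    ((gs_int ν).const_mul _) ?_ ?_ ?_ ?_ ?_
  · have e : (∫ θ in (-Real.pi)..Real.pi, -(a * D 0) * hF ν (a * E 0) (θ * I) * I) +
        (∫ ρ in Ioi (0 : ℝ), -(a * D 0) * hF ν (a * E 0) (ρ + Real.pi * I)) -
        (∫ ρ in Ioi (0 : ℝ), -(a * D 0) * hF ν (a * E 0) (ρ + -(Real.pi * I))) =
        -(a * D 0) * Hk ν (a * E 0) := by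
      unfold Hk
      rw [integral_const_mul, integral_const_mul]
      simp only [mul_assoc]
      rw [intervalIntegral.integral_const_mul]
      ring
    have h1 : -((a : ℂ) * D 0) * Hk ν (a * E 0) = 0 := by rw [← e]; exact hmain
    refine (mul_eq_zero.1 h1).resolve_left ?_
    exact neg_ne_zero.2 (mul_ne_zero (ofReal_ne_zero.2 ha.ne') hD0)
  · refine Eventually.of_forall fun τ => ?_
    have e : Λ - 1 + Real.log τ + 1 = Λ + Real.log τ := by ring
    rw [e]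
    exact ((Kj_diff (a := a) hTd 0 τ).sub (Kj_diff (a := a) hTd' 0 τ)).const_mul _
  · intro y
    have hev : ∀ᶠ τ : ℝ in atTop, ((τ ^ ν : ℝ) : ℂ) * (Kj a T 0 τ y - Kj a T' 0 τ y) =
        exp (exp y + -(a * E' (tj q 0 τ y) * exp (-y))) * exp y *
        (((τ ^ ν : ℝ) : ℂ) *
          (exp (-(a * (tj q 0 τ y ^ n * D (tj q 0 τ y)) * exp (-y))) - 1)) := by
      filter_upwards [Real.tendsto_log_atTop.eventually_gt_atTop (y.re - Λ),
        eventually_gt_atTop 0] with τ h3 h4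
      rw [Kj_sub' hT hT' hq hED h4 (by linarith)]
      ring
    refine Tendsto.congr' (hev.mono fun τ h => h.symm) ?_
    have l1 : Tendsto (fun τ => exp (exp y + -(a * E' (tj q 0 τ y) * exp (-y))) * exp y) atTop
        (𝓝 (exp (exp y + -(a * E 0 * exp (-y))) * exp y)) := by
      have h2 : Tendsto (fun τ => E' (tj q 0 τ y)) atTop (𝓝 (E 0)) := by
        rw [← h00]
        exact hEc'.tendsto.comp (tj_tendsto hq 0 y)
      exact ((continuous_exp.tendsto _).comp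
        (tendsto_const_nhds.add ((h2.const_mul _).mul_const _).neg)).mul_const _
    have lD : Tendsto (fun τ => D (tj q 0 τ y)) atTop (𝓝 (D 0)) :=
      hDc.tendsto.comp (tj_tendsto hq 0 y)
    have l2 : Tendsto (fun τ => ((τ ^ ν : ℝ) : ℂ) *
        -(a * (tj q 0 τ y ^ n * D (tj q 0 τ y)) * exp (-y))) atTop
        (𝓝 (-(a * exp ((ν : ℂ) * y) * D 0 * exp (-y)))) := by
      have h2 : Tendsto (fun τ => -(a * exp ((ν : ℂ) * y) * D (tj q 0 τ y) * exp (-y))) atTop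
          (𝓝 (-(a * exp ((ν : ℂ) * y) * D 0 * exp (-y)))) :=
        ((lD.const_mul _).mul_const _).neg
      refine h2.congr' ?_
      filter_upwards [eventually_gt_atTop 0] with τ hτ
      rw [← tj_pow (q := q) n hτ y]
      ring
    have l3 : Tendsto (fun τ => -(a * (tj q 0 τ y ^ n * D (tj q 0 τ y)) * exp (-y))) atTop
        (𝓝 0) := by
      have h2 : Tendsto (fun τ => -(a * (E (tj q 0 τ y) - E' (tj q 0 τ y)) * exp (-y))) atTop
          (𝓝 (-(a * (E 0 - E' 0) * exp (-y)))) :=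
        ((((hEc.tendsto.comp (tj_tendsto hq 0 y)).sub
          (hEc'.tendsto.comp (tj_tendsto hq 0 y))).const_mul _).mul_const _).neg
      rw [h00, sub_self, mul_zero, zero_mul, neg_zero] at h2
      refine h2.congr' ?_
      filter_upwards [Real.tendsto_log_atTop.eventually_ge_atTop (y.re - (Λ - 1))] with τ h3
      have hm := tj_mem hq 0 (τ := τ) (Λ1 := Λ - 1) (y := y) (by linarith)
      rw [← hED _ (cb_sub hq hΛ1 hm)]
    have l4 : Tendsto (fun τ => ((τ ^ ν : ℝ) : ℂ) *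
        (exp (-(a * (tj q 0 τ y ^ n * D (tj q 0 τ y)) * exp (-y))) - 1)) atTop
        (𝓝 (-(a * exp ((ν : ℂ) * y) * D 0 * exp (-y)))) := by
      have h5 : Tendsto (fun τ => ((τ ^ ν : ℝ) : ℂ) *
          (exp (-(a * (tj q 0 τ y ^ n * D (tj q 0 τ y)) * exp (-y))) - 1 -
          -(a * (tj q 0 τ y ^ n * D (tj q 0 τ y)) * exp (-y)))) atTop (𝓝 0) := by
        have h6 := (l2.norm.mul (l3.norm.mul ((Real.continuous_exp.tendsto _).comp l3.norm)))
        rw [norm_zero, zero_mul, mul_zero] at h6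
        refine squeeze_zero_norm (fun τ => ?_) h6
        simp only [Function.comp_apply]
        rw [norm_mul, norm_mul]
        have h7 := exp_two_bd (-(a * (tj q 0 τ y ^ n * D (tj q 0 τ y)) * exp (-y)))
        generalize -(a * (tj q 0 τ y ^ n * D (tj q 0 τ y)) * exp (-y)) = z at h7 ⊢
        calc ‖((τ ^ ν : ℝ) : ℂ)‖ * ‖exp z - 1 - z‖
            ≤ ‖((τ ^ ν : ℝ) : ℂ)‖ * (‖z‖ ^ 2 * Real.exp ‖z‖) := by gcongr
          _ = _ := by ring
      have h6 := h5.add l2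
      rw [zero_add] at h6
      refine h6.congr fun τ => ?_
      ring
    have l5 := l1.mul l4
    have e : exp (exp y + -(a * E 0 * exp (-y))) * exp y *
        -(a * exp ((ν : ℂ) * y) * D 0 * exp (-y)) = -(a * D 0) * hF ν (a * E 0) y := by
      unfold hF
      have e1 : exp (exp y - a * E 0 * exp (-y) + (ν : ℂ) * y) =
          exp (exp y + -(a * E 0 * exp (-y))) * exp ((ν : ℂ) * y) := by
        rw [← exp_add]
        congr 1
      have e2 : exp y * exp (-y) = 1 := by rw [← exp_add, add_neg_cancel, exp_zero]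
      rw [e1]
      linear_combination -(exp (exp y + -(a * E 0 * exp (-y))) * (a * exp ((ν : ℂ) * y) * D 0)) * e2
    rw [e] at l5
    exact l5
  · filter_upwards [hlog, eventually_gt_atTop 0] with τ h3 h4 θ _
    have h5 : (θ * I : ℂ).re ≤ Λ - 1 + Real.log τ := by
      rw [theta_re]
      have := neg_abs_le Λ
      linarith
    have he : ‖exp (-(θ * I) : ℂ)‖ = 1 := by
      rw [norm_exp, neg_re, theta_re, neg_zero, Real.exp_zero]
    have h6 := exp_bd ha.le (hB2 _ (tj_mem hq 0 h5)) he.le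
    have h7 := hz τ h4 _ h5 he.le
    rw [he, theta_re, mul_zero, Real.exp_zero, mul_one, mul_one] at h7
    rw [Kj_sub' hT hT' hq hED h4 (by linarith), mul_left_comm, norm_mul, norm_mul,
      norm_exp_ofReal_mul_I, mul_one, exp_add, norm_mul]
    have h8 : ‖exp (exp (θ * I))‖ ≤ Real.exp 1 := by
      rw [norm_exp]
      refine Real.exp_le_exp.2 ((re_le_norm _).trans ?_)
      rw [norm_exp_ofReal_mul_I]
    calc ‖exp (exp (θ * I))‖ * ‖exp (-(a * E' (tj q 0 τ (θ * I)) * exp (-(θ * I))))‖ *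
          ‖((τ ^ ν : ℝ) : ℂ) * (exp (-(a * (tj q 0 τ (θ * I) ^ n * D (tj q 0 τ (θ * I))) *
            exp (-(θ * I)))) - 1)‖
        ≤ Real.exp 1 * Real.exp (a * B) * (a * B' * Real.exp (a * (2 * B))) := by gcongr
      _ = _ := by ring
  · have key : ∀ c : ℂ, c.re = 0 → (∀ ρ : ℝ, exp (ρ + c) = ((-Real.exp ρ : ℝ) : ℂ)) →
        ∀ τ : ℝ, 0 < τ → ∀ ρ ∈ Ioc 0 (Λ - 1 + Real.log τ),
        ‖((τ ^ ν : ℝ) : ℂ) * (Kj a T 0 τ (ρ + c) - Kj a T' 0 τ (ρ + c))‖ ≤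
        a * B' * Real.exp (a * (2 * B)) * Real.exp (a * B) * gs ν ρ := by
      intro c hc hce τ h4 ρ hρ
      have h5 : (ρ + c : ℂ).re ≤ Λ - 1 + Real.log τ := by
        rw [ray_re hc]; exact hρ.2
      have he := enorm_ray hc hρ.1.le
      have h6 := exp_bd ha.le (hB2 _ (tj_mem hq 0 h5)) he
      have h7 := hz τ h4 _ h5 he
      rw [ray_re hc, norm_exp (-(ρ + c : ℂ)), neg_re, ray_re hc] at h7
      rw [Kj_sub' hT hT' hq hED h4 (by linarith), mul_left_comm, norm_mul, norm_mul, exp_add, norm_mul,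
        hce, norm_real, norm_neg, Real.norm_of_nonneg (Real.exp_pos _).le, norm_exp, ofReal_re]
      calc Real.exp (-Real.exp ρ) * ‖exp (-(a * E' (tj q 0 τ (ρ + c)) * exp (-(ρ + c))))‖ *
            Real.exp ρ * ‖((τ ^ ν : ℝ) : ℂ) * (exp (-(a * (tj q 0 τ (ρ + c) ^ n *
              D (tj q 0 τ (ρ + c))) * exp (-(ρ + c)))) - 1)‖
          ≤ Real.exp (-Real.exp ρ) * Real.exp (a * B) * Real.exp ρ *
            (a * Real.exp (ν * ρ) * B' * Real.exp (-ρ) * Real.exp (a * (2 * B))) := by gcongr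
        _ = (a * B' * Real.exp (a * (2 * B)) * Real.exp (a * B)) *
            (Real.exp (-Real.exp ρ) * Real.exp ρ * Real.exp (ν * ρ) * Real.exp (-ρ)) := by ring
        _ = _ := by
          unfold gs
          rw [← Real.exp_add, ← Real.exp_add, ← Real.exp_add]
          congr 2
          ring
    filter_upwards [eventually_gt_atTop 0] with τ h4 ρ hρ
    exact ⟨key _ pi_re exp_pi τ h4 ρ hρ, key _ pi_re' exp_pi' τ h4 ρ hρ⟩
  · have h1 := (Kj_far hJB hΛ1 0 ν).sub (Kj_far hJB' hΛ1 0 ν)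
    rw [sub_zero] at h1
    refine h1.congr fun τ => ?_
    rw [← mul_sub]
    have hV : Convex ℝ (re ⁻¹' Iio (Λ + Real.log τ) : Set ℂ) := convex_halfSpace_re_lt _
    refine (seg_lin hV (Kj_diff (a := a) hTd 0 τ) (Kj_diff (a := a) hTd' 0 τ) _ ?_ ?_).symm
    · rw [mem_preimage, ray_re pi_re', mem_Iio]
      linarith
    · rw [mem_preimage, ray_re pi_re, mem_Iio]
      linarith

end Pool.Agent.E8helper32.SA
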