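import Pool.Agent.E8helper32.SA.De

/-!
# Equal orders: the coincidence
-/

set_option autoImplicit false

open Complex MeasureTheory Metric Set Filter Topology ComplexConjugate

namespace Pool.Agent.E8helper32.SA

open Pool.Agent.Y245.SC (seg t_SEG)
open Pool.Agent.Y245.SG (Bn)

variable {a Λ : ℝ} {q : ℕ} {T E : ℂ → ℂ}

theorem zet_pow (hq : 0 < q) : zet q ^ q = 1 := (isPrimitiveRoot_exp q hq.ne').pow_eq_one

theorem zet_ne_one (hq : 2 ≤ q) : zet q ≠ 1 := (isPrimitiveRoot_exp q (by omega)).ne_one (by omega)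

theorem zmul_mem {δ : ℝ} {t : ℂ} (ht : t ∈ ball (0 : ℂ) δ) (j : ℕ) :
    zet q ^ j * t ∈ ball (0 : ℂ) δ := by
  rw [mem_ball_zero_iff] at ht ⊢
  rw [norm_mul, norm_pow, zet_norm, one_pow, one_mul]
  exact ht

theorem zmul_mem' {δ : ℝ} {t : ℂ} (ht : t ∈ ball (0 : ℂ) δ) : zet q * t ∈ ball (0 : ℂ) δ := by
  have := zmul_mem (q := q) ht 1
  rwa [pow_one] at this

/-- `q` does not divide `n` -/
theorem not_dvd (hq : 2 ≤ q) {δ : ℝ} (hδ : 0 < δ) {D : ℂ → ℂ} {n : ℕ} (hDc : ContinuousAt D 0)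
    (hD0 : D 0 ≠ 0) (hED : ∀ t ∈ ball (0 : ℂ) δ, E t - E (zet q * t) = t ^ n * D t) :
    ¬ q ∣ n := by
  rintro ⟨m, rfl⟩
  have hz : zet q ^ q = 1 := zet_pow (by omega)
  have h1 : ∀ t ∈ ball (0 : ℂ) δ, t ≠ 0 → ∑ j ∈ Finset.range q, D (zet q ^ j * t) = 0 := by
    intro t ht ht0
    have h2 : ∑ j ∈ Finset.range q, (E (zet q ^ j * t) - E (zet q ^ (j + 1) * t)) = 0 := by
      rw [Finset.sum_range_sub', pow_zero, one_mul, hz, one_mul, sub_self]
    have h3 : ∀ j ∈ Finset.range q, E (zet q ^ j * t) - E (zet q ^ (j + 1) * t) =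
        t ^ (q * m) * D (zet q ^ j * t) := by
      intro j _
      have h4 := hED _ (zmul_mem (q := q) ht j)
      have h5 : zet q * (zet q ^ j * t) = zet q ^ (j + 1) * t := by ring
      rw [h5] at h4
      have h6 : (zet q ^ j) ^ (q * m) = 1 := by
        rw [← pow_mul, show j * (q * m) = q * (m * j) by ring, pow_mul, hz, one_pow]
      rw [h4, mul_pow, h6, one_mul]
    rw [Finset.sum_congr rfl h3, ← Finset.mul_sum] at h2
    exact (mul_eq_zero.1 h2).resolve_left (pow_ne_zero _ ht0)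
  have h2 : Tendsto (fun t => ∑ j ∈ Finset.range q, D (zet q ^ j * t)) (𝓝[≠] 0)
      (𝓝 (∑ j ∈ Finset.range q, D 0)) := by
    refine tendsto_finsetSum _ fun j _ => ?_
    have h3 : Tendsto (fun t : ℂ => zet q ^ j * t) (𝓝[≠] 0) (𝓝 0) := by
      have : Tendsto (fun t : ℂ => zet q ^ j * t) (𝓝 0) (𝓝 (zet q ^ j * 0)) :=
        (continuous_const.mul continuous_id).tendsto 0
      rw [mul_zero] at this
      exact this.mono_left nhdsWithin_le_nhds
    exact hDc.tendsto.comp h3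
  have h3 : ∀ᶠ t in 𝓝[≠] (0 : ℂ), ∑ j ∈ Finset.range q, D (zet q ^ j * t) = 0 := by
    rw [eventually_nhdsWithin_iff]
    filter_upwards [isOpen_ball.mem_nhds (mem_ball_self hδ)] with t ht ht0
    exact h1 t ht ht0
  have h4 := tendsto_nhds_unique (h2.congr' h3) tendsto_const_nhds
  rw [Finset.sum_const, Finset.card_range, nsmul_eq_mul] at h4
  rcases mul_eq_zero.1 h4 with h5 | h5
  · have : q = 0 := by exact_mod_cast h5
    omega
  · exact hD0 h5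

/-- **Equal orders.** -/
theorem partD (ha : 0 < a) (hq : 2 ≤ q) (hJB : JB a Λ T)
    (hTd : DifferentiableOn ℂ T (re ⁻¹' Iio Λ))
    (hE : DifferentiableOn ℂ E (ball 0 (Real.exp (Λ / q)))) (hE0 : E 0 ≠ 0)
    (hT : ∀ σ : ℂ, σ.re < Λ → T σ = E (exp (σ / q)) * exp (-σ))
    (hinj : ∀ t ∈ ball (0 : ℂ) (Real.exp (Λ / q)), ∀ t' ∈ ball (0 : ℂ) (Real.exp (Λ / q)),
      t ≠ 0 → t' ≠ 0 → t ^ q = t' ^ q → E t / t ^ q = E t' / t' ^ q → t = t') :
    Bn 1 (a * E 0) = 0 ∧ ∃ (n : ℕ) (D : ℂ → ℂ), ¬ q ∣ n ∧ AnalyticAt ℂ D 0 ∧ D 0 ≠ 0 ∧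
      (∀ᶠ t in 𝓝 (0 : ℂ), E t - E (zet q * t) = t ^ n * D t) ∧
      ∑' k : ℕ, (-(a * E 0)) ^ k / ((k.factorial : ℂ) * poch (n / q) k) = 0 := by
  have hq0 : 0 < q := by omega
  have hq' : (0 : ℝ) < q := Nat.cast_pos.2 hq0
  have ha0 : (a : ℂ) ≠ 0 := ofReal_ne_zero.2 ha.ne'
  refine ⟨bessel_one (mul_ne_zero ha0 hE0) (level_one ha hq0 hJB hTd hE hT), ?_⟩
  have h0b : (0 : ℂ) ∈ ball (0 : ℂ) (Real.exp (Λ / q)) := mem_ball_self (Real.exp_pos _)
  have hfd : DifferentiableOn ℂ (fun t => E t - E (zet q * t)) (ball 0 (Real.exp (Λ / q))) :=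
    hE.sub (hE.comp (fun t _ => (differentiableAt_id.const_mul _).differentiableWithinAt)
      fun t ht => zmul_mem' ht)
  have hfa : AnalyticAt ℂ (fun t => E t - E (zet q * t)) 0 :=
    hfd.analyticAt (isOpen_ball.mem_nhds h0b)
  have hnz : ¬ ∀ᶠ t in 𝓝 (0 : ℂ), E t - E (zet q * t) = 0 := by
    intro h
    have h1 : ∀ᶠ t in 𝓝[≠] (0 : ℂ), (E t - E (zet q * t) = 0 ∧
        t ∈ ball (0 : ℂ) (Real.exp (Λ / q))) ∧ t ≠ 0 := by
      refine Filter.Eventually.and ?_ self_mem_nhdsWithin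
      exact (h.and (isOpen_ball.mem_nhds h0b)).filter_mono nhdsWithin_le_nhds
    obtain ⟨t, ⟨h2, h3⟩, h4⟩ := h1.exists
    have hz0 : zet q ≠ 0 := exp_ne_zero _
    have h5 : zet q ^ q = 1 := zet_pow hq0
    have h6 := hinj t h3 _ (zmul_mem' (q := q) h3) h4 (mul_ne_zero hz0 h4)
      (by rw [mul_pow, h5, one_mul]) (by rw [mul_pow, h5, one_mul, sub_eq_zero.1 h2])
    have h7 : (zet q - 1) * t = 0 := by rw [sub_mul, one_mul, ← h6, sub_self]
    rcases mul_eq_zero.1 h7 with h8 | h8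
    · exact zet_ne_one hq (sub_eq_zero.1 h8)
    · exact h4 h8
  obtain ⟨n, D, hDa, hD0, hev⟩ := hfa.exists_eventuallyEq_pow_smul_nonzero_iff.2 hnz
  have hev' : ∀ᶠ t in 𝓝 (0 : ℂ), E t - E (zet q * t) = t ^ n * D t := by
    filter_upwards [hev] with t ht
    rw [ht, sub_zero, smul_eq_mul]
  obtain ⟨ε, hε, hb⟩ := Metric.eventually_nhds_iff_ball.1 (hev'.and hDa.eventually_analyticAt)
  set Λ' := min Λ (q * Real.log ε) with hΛ'
  have hΛ'1 : Λ' ≤ Λ := min_le_left _ _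
  have hΛ'2 : Real.exp (Λ' / q) ≤ ε := by
    rw [← Real.le_log_iff_exp_le hε, div_le_iff₀ hq']
    calc Λ' ≤ q * Real.log ε := min_le_right _ _
      _ = Real.log ε * q := mul_comm _ _
  have hb1 : ball (0 : ℂ) (Real.exp (Λ' / q)) ⊆ ball 0 (Real.exp (Λ / q)) :=
    ball_subset_ball (Real.exp_le_exp.2 (by gcongr))
  have hb2 : ball (0 : ℂ) (Real.exp (Λ' / q)) ⊆ ball 0 ε := ball_subset_ball hΛ'2
  have hnd := not_dvd (E := E) hq hε hDa.continuousAt hD0 fun t ht => (hb t ht).1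
  refine ⟨n, D, hnd, hDa, hD0, hev', ?_⟩
  have h2 := level_two (Λ := Λ') ha hq0 (fun σ1 h => hJB σ1 (h.trans_le hΛ'1))
    (hTd.mono fun s hs => lt_of_lt_of_le hs hΛ'1) (hE.mono hb1)
    (fun σ hσ => hT σ (hσ.trans_le hΛ'1)) (D := D) (n := n)
    (fun t ht => (hb t (hb2 ht)).2.differentiableAt.differentiableWithinAt) hD0
    (fun t ht => (hb t (hb2 ht)).1)
  have hn0 : 0 < n := by
    rcases Nat.eq_zero_or_pos n with h | h
    · exact absurd (h ▸ dvd_zero q) hnd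
    · exact h
  refine bessel_of_Hk (div_pos (Nat.cast_pos.2 hn0) hq') (fun m hm => hnd ?_) h2
  have h3 : (n : ℝ) = m * q := by rw [← hm]; field_simp
  have h4 : (n : ℤ) = m * q := by exact_mod_cast h3
  exact Int.natCast_dvd_natCast.1 ⟨m, by rw [h4, mul_comm]⟩

end Pool.Agent.E8helper32.SA
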