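import Pool.Agent.E8helper32.SA.Rel

/-!
# Continuation in discs and in exponential coordinates
-/

set_option autoImplicit false

open Complex Metric Set Filter Topology ComplexConjugate

namespace Pool.Agent.E8helper32.SA

open Pool.Agent.Results.MP_83fd13_an.BranchSingularities

/-- every branch in a disc extends across the boundary point `w1` -/
def Crosses (φ : ℂ → ℂ) (r : ℝ) (w1 : ℂ) : Prop :=
  ∀ (c' : ℂ) (ρ : ℝ) (g : ℂ → ℂ), 0 < ρ → (∀ w ∈ closedBall c' ρ, 1 < ‖w‖) →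
    DifferentiableOn ℂ g (ball c' ρ) → (∃ z ∈ ball c' ρ, Branch φ r z g) → w1 ∈ sphere c' ρ →
    ∃ (ε : ℝ) (E : ℂ → ℂ), 0 < ε ∧ DifferentiableOn ℂ E (ball w1 ε) ∧
      ∀ w ∈ ball w1 ε ∩ ball c' ρ, E w = g w

variable {φ : ℂ → ℂ} {r : ℝ} {d : ℕ} {c : ℕ → ℂ → ℂ}

theorem crosses_good (hD : Data φ r d c) {lam : ℝ} (hlam : 0 < lam)
    (hBU : BranchesBlowUp φ r lam) {w1 : ℂ} (hgood : Cf φ c d w1 ≠ 0) : Crosses φ r w1 :=
  fun _ _ _ hρ hB hg hbr hw1 => ext_good hD hlam hBU hρ hB hg hbr hw1 hgood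

/-- continuation in discs -/
theorem disc_ext (hφ : DifferentiableOn ℂ φ (ball 0 r)) {z : ℂ} {f : ℂ → ℂ} (hf : Branch φ r z f)
    {R : ℝ} (hR : 0 < R) (h1 : ∀ w ∈ ball z R, 1 < ‖w‖) (h2 : ∀ w ∈ ball z R, Crosses φ r w) :
    ∃ g : ℂ → ℂ, DifferentiableOn ℂ g (ball z R) ∧ g =ᶠ[𝓝 z] f ∧
      ∀ y ∈ ball z R, Branch φ r y g := by
  obtain ⟨ρ0, hρ0, hd⟩ := branch_diff hφ hf
  obtain ⟨g, hg1, hg2⟩ := disc_lemma (f := f) (z := z) (r0 := min ρ0 R) (R := R)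
    (lt_min hρ0 hR) (min_le_right _ _) (hd.mono (ball_subset_ball (min_le_left _ _))) (by
      intro ρ hρ hρR h hh hhf x hx
      have hsub : closedBall z ρ ⊆ ball z R := closedBall_subset_ball hρR
      exact h2 x (hsub (sphere_subset_closedBall hx)) z ρ h hρ (fun w hw => h1 w (hsub hw)) hh
        ⟨z, mem_ball_self hρ, branch_congr hφ hf hhf.symm⟩ hx)
  exact ⟨g, hg1, hg2, fun y hy => branch_ball (branch_congr hφ hf hg2.symm) h1 hg1
    (mem_ball_self hR) hy⟩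

/-- continuation in the coordinate `τ`, `w = w1 + exp τ` -/
theorem exp_cont (hφ : DifferentiableOn ℂ φ (ball 0 r)) {U : Set ℂ} (hU : Convex ℝ U)
    (hUo : IsOpen U) {w1 : ℂ} {s : ℝ} (hs : 0 < s)
    (H : ∀ τ ∈ U, ∃ R : ℝ, 0 < R ∧ (∀ w ∈ ball (w1 + exp τ) R, 1 < ‖w‖) ∧
      (∀ w ∈ ball (w1 + exp τ) R, Crosses φ r w) ∧ ∀ t ∈ ball τ s, ‖exp t - exp τ‖ < R)
    {τ0 : ℂ} (hτ0 : τ0 ∈ U) {f : ℂ → ℂ} (hf : Branch φ r (w1 + exp τ0) f) :
    ∃ G : ℂ → ℂ, DifferentiableOn ℂ G U ∧ G =ᶠ[𝓝 τ0] (fun t => f (w1 + exp t)) ∧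
      ∀ τ ∈ U, ∃ g : ℂ → ℂ, Branch φ r (w1 + exp τ) g ∧ G =ᶠ[𝓝 τ] fun t => g (w1 + exp t) := by
  refine convex_cont hU hUo hτ0 hs
    (fun τ F => ∃ g : ℂ → ℂ, Branch φ r (w1 + exp τ) g ∧ F =ᶠ[𝓝 τ] fun t => g (w1 + exp t))
    ?_ ?_ ⟨f, hf, EventuallyEq.refl _ _⟩
  · rintro x F F' ⟨g, hg, hFg⟩ hFF'
    exact ⟨g, hg, hFF'.symm.trans hFg⟩
  · rintro τ hτ F ⟨g, hg, hFg⟩
    obtain ⟨R, hR, h1, h2, h3⟩ := H τ hτ
    obtain ⟨g', hg'1, hg'2, hg'3⟩ := disc_ext hφ hg hR h1 h2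
    have hmem : ∀ t ∈ ball τ s, w1 + exp t ∈ ball (w1 + exp τ) R := by
      intro t ht
      rw [mem_ball, dist_eq_norm, add_sub_add_left_eq_sub]
      exact h3 t ht
    refine ⟨fun t => g' (w1 + exp t), ?_, ?_, ?_⟩
    · intro t ht
      have h4 : DifferentiableAt ℂ g' (w1 + exp t) :=
        hg'1.differentiableAt (isOpen_ball.mem_nhds (hmem t ht))
      have h5 : DifferentiableAt ℂ (fun t => w1 + exp t) t :=
        (differentiableAt_const _).add differentiableAt_exp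
      exact (DifferentiableAt.comp t h4 h5).differentiableWithinAt
    · refine EventuallyEq.trans ?_ hFg.symm
      have h5 : ContinuousAt (fun t => w1 + exp t) τ :=
        continuousAt_const.add continuous_exp.continuousAt
      exact h5.eventually hg'2
    · intro y hy _
      exact ⟨g', hg'3 _ (hmem y hy), EventuallyEq.refl _ _⟩

/-- the size of the discs -/
theorem exp_sub_lt {t τ : ℂ} {s : ℝ} (hs : s ≤ 1 / 2) (ht : t ∈ ball τ s) :
    ‖exp t - exp τ‖ < ‖exp τ‖ * (2 * s) := by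
  have h1 : ‖t - τ‖ < s := by rwa [mem_ball, dist_eq_norm] at ht
  have h2 : exp t - exp τ = exp τ * (exp (t - τ) - 1) := by
    rw [mul_sub, ← exp_add, mul_one, add_sub_cancel]
  rw [h2, norm_mul]
  have h3 : ‖exp (t - τ) - 1‖ ≤ 2 * ‖t - τ‖ := norm_exp_sub_one_le (by linarith)
  have h4 : 0 < ‖exp τ‖ := norm_pos_iff.2 (exp_ne_zero _)
  exact mul_lt_mul_of_pos_left (by linarith) h4

/-! ### functions of `q log t` -/

/-- the period -/
noncomputable def per (q : ℕ) : ℂ := q * (2 * Real.pi * I)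

theorem per_re (q : ℕ) : (per q).re = 0 := by
  unfold per
  simp

theorem int_per_re (n : ℤ) (q : ℕ) : (n * per q).re = 0 := by
  have : ((n : ℂ) * per q).re = n * (per q).re := by
    rw [mul_re]
    simp
  rw [this, per_re, mul_zero]

/-- integer multiples of a period are periods -/
theorem per_int {J : Set ℝ} {G : ℂ → ℂ} {q : ℕ}
    (h : ∀ τ : ℂ, τ.re ∈ J → G (τ + per q) = G τ) (n : ℤ) :
    ∀ τ : ℂ, τ.re ∈ J → G (τ + n * per q) = G τ := by
  induction n with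
  | zero => intro τ _; simp
  | succ n ih =>
    intro τ hτ
    have h1 : τ + ((n : ℤ) + 1 : ℤ) * per q = (τ + (n : ℤ) * per q) + per q := by
      push_cast; ring
    rw [h1, h _ (by rw [add_re, int_per_re, add_zero]; exact hτ), ih τ hτ]
  | pred n ih =>
    intro τ hτ
    have h2 := h (τ + ((-(n : ℤ) - 1 : ℤ) : ℂ) * per q)
      (by rw [add_re, int_per_re, add_zero]; exact hτ)
    rw [← h2, ← ih τ hτ]
    congr 1
    push_cast
    ring

/-- the value does not depend on the choice of the logarithm -/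
theorem log_eq {J : Set ℝ} {G : ℂ → ℂ} {q : ℕ}
    (h : ∀ τ : ℂ, τ.re ∈ J → G (τ + per q) = G τ) {a b : ℂ} (hab : exp a = exp b)
    (hb : (q * b).re ∈ J) : G (q * a) = G (q * b) := by
  obtain ⟨n, hn⟩ := exp_eq_exp_iff_exists_int.1 hab
  rw [hn]
  have : (q : ℂ) * (b + n * (2 * Real.pi * I)) = q * b + n * per q := by unfold per; ring
  rw [this]
  exact per_int h n _ hb

theorem nat_mul_re (q : ℕ) (z : ℂ) : ((q : ℂ) * z).re = q * z.re := by
  rw [mul_re]; simp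

theorem log_lift {J : Set ℝ} (hJ : IsOpen J) {G : ℂ → ℂ}
    (hG : DifferentiableOn ℂ G (re ⁻¹' J)) {q : ℕ}
    (h : ∀ τ : ℂ, τ.re ∈ J → G (τ + per q) = G τ) {t0 : ℂ} (ht0 : t0 ≠ 0)
    (hU : (q * log t0).re ∈ J) : DifferentiableAt ℂ (fun t => G (q * log t)) t0 := by
  have hUo : IsOpen (re ⁻¹' J : Set ℂ) := hJ.preimage continuous_re
  have h1 : DifferentiableAt ℂ (fun t => (q : ℂ) * (log (t / t0) + log t0)) t0 := by
    refine DifferentiableAt.const_mul ?_ _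
    refine DifferentiableAt.add_const _ ?_
    refine DifferentiableAt.clog (differentiableAt_fun_id.div_const t0) ?_
    rw [div_self ht0]
    exact one_mem_slitPlane
  have e0 : (q : ℂ) * (log (t0 / t0) + log t0) = q * log t0 := by
    rw [div_self ht0, log_one, zero_add]
  have h2 : DifferentiableAt ℂ (fun t => G ((q : ℂ) * (log (t / t0) + log t0))) t0 := by
    have h3 : DifferentiableAt ℂ G ((q : ℂ) * (log (t0 / t0) + log t0)) := by
      rw [e0]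
      exact hG.differentiableAt (hUo.mem_nhds hU)
    exact DifferentiableAt.comp t0 h3 h1
  refine h2.congr_of_eventuallyEq ?_
  have h4 : ∀ᶠ t in 𝓝 t0, (q : ℂ) * (log (t / t0) + log t0) ∈ (re ⁻¹' J : Set ℂ) := by
    refine h1.continuousAt.eventually ?_
    show ∀ᶠ y in 𝓝 ((q : ℂ) * (log (t0 / t0) + log t0)), y ∈ (re ⁻¹' J : Set ℂ)
    rw [e0]
    exact hUo.mem_nhds hU
  filter_upwards [h4, isOpen_ne.mem_nhds ht0] with t ht1 ht2
  refine log_eq h ?_ ht1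
  rw [exp_log ht2, exp_add, exp_log (div_ne_zero ht2 ht0), exp_log ht0, div_mul_cancel₀ _ ht0]

end Pool.Agent.E8helper32.SA
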