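import Pool.Agent.E8helper32.SA.Cusp

/-!
# If all branches cross all points, the function is entire
-/

set_option autoImplicit false

open Complex Metric Set Filter Topology ComplexConjugate

namespace Pool.Agent.E8helper32.SA

open Pool.Agent.Results.MP_83fd13_an.BranchSingularities

variable {φ : ℂ → ℂ} {r : ℝ} {d : ℕ} {c : ℕ → ℂ → ℂ}

theorem entire_of_crosses (hr : 1 < r) (hφ : DifferentiableOn ℂ φ (ball 0 r))
    (hcr : ∀ w1 : ℂ, 1 < ‖w1‖ → Crosses φ r w1) :
    ∃ Φ : ℂ → ℂ, Differentiable ℂ Φ ∧ ∀ w ∈ ball (0 : ℂ) r, Φ w = φ w := by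
  classical
  set k : ℝ := (1 + r) / 2 with hk
  have hk1 : 1 < k := by rw [hk]; linarith
  have hkr : k < r := by rw [hk]; linarith
  have hk0 : 0 < k := by linarith
  have hr0 : 0 < r := by linarith
  set k' : ℝ := (k + r) / 2 with hk'
  have hk'1 : k < k' := by rw [hk']; linarith
  have hk'r : k' < r := by rw [hk']; linarith
  have hk'0 : 0 < k' := by linarith
  have hUo : IsOpen (re ⁻¹' Ioi (Real.log k) : Set ℂ) := isOpen_Ioi.preimage continuous_re
  have hUc : Convex ℝ (re ⁻¹' Ioi (Real.log k) : Set ℂ) := convex_halfSpace_re_gt _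
  have hre : ((Real.log k' : ℝ) : ℂ).re = Real.log k' := ofReal_re _
  have hτ0 : ((Real.log k' : ℝ) : ℂ) ∈ (re ⁻¹' Ioi (Real.log k) : Set ℂ) := by
    rw [mem_preimage, hre]
    exact Real.log_lt_log hk0 hk'1
  have hexpτ0 : exp ((Real.log k' : ℝ) : ℂ) = (k' : ℂ) := by
    rw [← ofReal_exp, Real.exp_log hk'0]
  have hkinv : 0 < 1 - 1 / k := by
    rw [sub_pos, div_lt_one hk0]; exact hk1
  obtain ⟨G, hG1, hG2, hG3⟩ := exp_cont (φ := φ) (r := r) hφ hUc hUo (w1 := 0)
    (s := (1 - 1 / k) / 2) (by positivity) (by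
      intro τ hτ
      have hτ' : k < ‖exp τ‖ := by
        rw [norm_exp, ← Real.log_lt_iff_lt_exp hk0]; exact hτ
      have hmem : ∀ w ∈ ball (0 + exp τ) (‖exp τ‖ - 1), 1 < ‖w‖ := by
        intro w hw
        rw [zero_add, mem_ball, dist_eq_norm] at hw
        have h1 := norm_sub_le (exp τ) (exp τ - w)
        rw [sub_sub_cancel] at h1
        have h2 : ‖exp τ‖ ≤ ‖w‖ + ‖w - exp τ‖ := by
          have := norm_sub_le w (w - exp τ)
          rwa [sub_sub_cancel] at this
        linarith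
      refine ⟨‖exp τ‖ - 1, by linarith, hmem, fun w hw => hcr w (hmem w hw), ?_⟩
      intro t ht
      have h1 : (1 - 1 / k) / 2 ≤ 1 / 2 := by
        have : 0 < 1 / k := by positivity
        linarith
      have h2 := exp_sub_lt h1 ht
      have h3 : ‖exp τ‖ * (2 * ((1 - 1 / k) / 2)) = ‖exp τ‖ - ‖exp τ‖ / k := by ring
      rw [h3] at h2
      have h4 : 1 < ‖exp τ‖ / k := by rw [one_lt_div hk0]; exact hτ'
      linarith) hτ0 (f := φ) (by
      rw [zero_add, hexpτ0]
      refine Branch.base _ ?_ ?_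
      · rw [norm_real, Real.norm_eq_abs, abs_of_pos hk'0]; linarith
      · rw [norm_real, Real.norm_eq_abs, abs_of_pos hk'0]; exact hk'r)
  -- `G = φ ∘ exp` in the strip
  have hstripo : IsOpen (re ⁻¹' Ioi (Real.log k) ∩ re ⁻¹' Iio (Real.log r) : Set ℂ) :=
    hUo.inter (isOpen_Iio.preimage continuous_re)
  have hstripc : Convex ℝ (re ⁻¹' Ioi (Real.log k) ∩ re ⁻¹' Iio (Real.log r) : Set ℂ) :=
    hUc.inter (convex_halfSpace_re_lt _)
  have hφe : ∀ τ : ℂ, τ.re < Real.log r → DifferentiableAt ℂ (fun t => φ (exp t)) τ := by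
    intro τ hτ
    have h1 : DifferentiableAt ℂ φ (exp τ) := by
      refine hφ.differentiableAt (isOpen_ball.mem_nhds ?_)
      rw [mem_ball_zero_iff, norm_exp, ← Real.lt_log_iff_exp_lt hr0]
      exact hτ
    exact DifferentiableAt.comp (g := φ) (f := exp) τ h1 differentiableAt_exp
  have hτ0' : ((Real.log k' : ℝ) : ℂ) ∈
      (re ⁻¹' Ioi (Real.log k) ∩ re ⁻¹' Iio (Real.log r) : Set ℂ) := by
    refine ⟨hτ0, ?_⟩
    rw [mem_preimage, hre]
    exact Real.log_lt_log hk'0 hk'r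
  have hst : EqOn G (fun t => φ (exp t))
      (re ⁻¹' Ioi (Real.log k) ∩ re ⁻¹' Iio (Real.log r) : Set ℂ) := by
    refine eqOn_convex hstripc hstripo (hG1.mono inter_subset_left)
      (fun τ hτ => (hφe τ hτ.2).differentiableWithinAt) hτ0' ?_
    refine hG2.trans (Eventually.of_forall fun t => ?_)
    simp only [zero_add]
  -- periodicity
  have hper : ∀ τ : ℂ, τ.re ∈ Ioi (Real.log k) → G (τ + per 1) = G τ := by
    have hsh : DifferentiableOn ℂ (fun τ => G (τ + per 1)) (re ⁻¹' Ioi (Real.log k)) := by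
      intro τ hτ
      have h1 : τ + per 1 ∈ (re ⁻¹' Ioi (Real.log k) : Set ℂ) := by
        rw [mem_preimage, add_re, per_re, add_zero]; exact hτ
      have h2 : DifferentiableAt ℂ G (τ + per 1) := hG1.differentiableAt (hUo.mem_nhds h1)
      have h3 : DifferentiableAt ℂ (fun τ => τ + per 1) τ := differentiableAt_id.add_const _
      exact (DifferentiableAt.comp τ h2 h3).differentiableWithinAt
    have h1 : (fun τ => G (τ + per 1)) =ᶠ[𝓝 ((Real.log k' : ℝ) : ℂ)] G := by
      filter_upwards [hstripo.mem_nhds hτ0'] with τ hτ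
      have h2 : τ + per 1 ∈ (re ⁻¹' Ioi (Real.log k) ∩ re ⁻¹' Iio (Real.log r) : Set ℂ) := by
        constructor
        · rw [mem_preimage, add_re, per_re, add_zero]; exact hτ.1
        · rw [mem_preimage, add_re, per_re, add_zero]; exact hτ.2
      rw [hst h2, hst hτ]
      simp only
      rw [exp_add_per]
    exact fun τ hτ => eqOn_convex hUc hUo hsh hG1 hτ0 h1 hτ
  have hlog : ∀ w : ℂ, k < ‖w‖ → ((1 : ℕ) * log w).re ∈ Ioi (Real.log k) := by
    intro w hw
    rw [Nat.cast_one, one_mul, log_re]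
    exact Real.log_lt_log hk0 hw
  refine ⟨fun w => if ‖w‖ < r then φ w else G ((1 : ℕ) * log w), ?_, ?_⟩
  · intro w
    rcases lt_or_ge ‖w‖ r with hw | hw
    · have h1 : DifferentiableAt ℂ φ w :=
        hφ.differentiableAt (isOpen_ball.mem_nhds (by rwa [mem_ball_zero_iff]))
      refine h1.congr_of_eventuallyEq ?_
      filter_upwards [(isOpen_lt continuous_norm continuous_const).mem_nhds hw] with v hv
      rw [if_pos hv]
    · have hwk : k < ‖w‖ := by linarith
      have hw0 : w ≠ 0 := norm_pos_iff.1 (by linarith)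
      have h1 : DifferentiableAt ℂ (fun w => G ((1 : ℕ) * log w)) w :=
        log_lift isOpen_Ioi hG1 hper hw0 (hlog w hwk)
      refine h1.congr_of_eventuallyEq ?_
      filter_upwards [(isOpen_lt continuous_const continuous_norm).mem_nhds hwk] with v hv
      split_ifs with h2
      · have hv0 : v ≠ 0 := norm_pos_iff.1 (hk0.trans hv)
        have h3 : ((1 : ℕ) * log v : ℂ) ∈
            (re ⁻¹' Ioi (Real.log k) ∩ re ⁻¹' Iio (Real.log r) : Set ℂ) := by
          refine ⟨hlog v hv, ?_⟩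
          rw [mem_preimage, Nat.cast_one, one_mul, log_re]
          exact Real.log_lt_log (hk0.trans hv) h2
        rw [hst h3]
        simp only
        rw [Nat.cast_one, one_mul, exp_log hv0]
      · rfl
  · intro w hw
    simp only
    rw [if_pos (by rwa [mem_ball_zero_iff] at hw)]

/-- **The alternative.** -/
theorem disc_or_cusp (hD : Data φ r d c) {lam : ℝ} (hlam : 0 < lam)
    (hS : Solvable (φ '' ball 0 1) lam) :
    (∃ (p : ℂ) (r0 : ℝ), 0 < r0 ∧ φ '' ball 0 1 = ball p r0) ∨ Cusp φ d c := by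
  by_contra hcon
  push Not at hcon
  obtain ⟨h1, h2⟩ := hcon
  have hnd : ¬ ∃ (p : ℂ) (r0 : ℝ), 0 < r0 ∧ φ '' ball 0 1 = ball p r0 := by
    rintro ⟨p, r0, h3, h4⟩
    exact h1 p r0 h3 h4
  obtain ⟨hBU, -, h3⟩ := result φ r hD.hr hD.hφ hD.hinj lam hlam hS
  obtain ⟨hNF, -, -⟩ := h3 hnd
  obtain ⟨Φ, hΦ, hΦφ⟩ := entire_of_crosses hD.hr hD.hφ
    (fun w1 _ => cross_or_cusp hD hlam hBU hNF h2)
  have hΦφ' : EqOn Φ φ (ball 0 r) := hΦφ
  have himg : Φ '' ball 0 1 = φ '' ball 0 1 :=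
    (hΦφ'.mono (ball_subset_ball hD.hr.le)).image_eq
  obtain ⟨-, -, h4⟩ := result Φ r hD.hr hΦ.differentiableOn
    (hD.hinj.congr hΦφ'.symm) lam hlam (by rw [himg]; exact hS)
  rw [himg] at h4
  exact (h4 hnd).2.2 fun z => (hΦ.analyticAt z).meromorphicAt

end Pool.Agent.E8helper32.SA
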