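import Pool.Agent.E8helper32.SA.Cz
import Pool.Agent.E8helper32.SA.Cor

/-!
# The strong alternative
-/

set_option autoImplicit false

open Complex MeasureTheory Metric Set Filter Topology ComplexConjugate

namespace Pool.Agent.E8helper32.SA

open Pool.Agent.Results.MP_83fd13_an.BranchSingularities
open Pool.Agent.Y245.SC (seg)
open Pool.Agent.Y245.SG (Bn)
open Pool.Agent.Y245.UC (Rf kerU VG VGH)

variable {φ : ℂ → ℂ} {r : ℝ} {d : ℕ} {c : ℕ → ℂ → ℂ} {w1 : ℂ} {L : ℝ} {G : ℂ → ℂ} {q : ℕ}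

/-- the hypergeometric function `0F1`, a Bessel function -/
noncomputable def F01 (μ : ℝ) (κ : ℂ) : ℂ :=
  ∑' k : ℕ, (-κ) ^ k / ((k.factorial : ℂ) * ∏ j ∈ Finset.range k, ((μ : ℂ) + j + 1))

/-- a coincidence of zeros of Bessel functions at a cusp at infinity -/
def Coin (φ : ℂ → ℂ) (d : ℕ) (c : ℕ → ℂ → ℂ) (lam : ℝ) : Prop :=
  ∃ (z0 : ℂ) (q n : ℕ) (δ : ℝ) (E D : ℂ → ℂ), z0 ∈ φ '' ball 0 1 ∧ 2 ≤ q ∧ ¬ q ∣ n ∧ 0 < δ ∧
    DifferentiableOn ℂ E (ball 0 δ) ∧ DifferentiableOn ℂ D (ball 0 δ) ∧ E 0 ≠ 0 ∧ D 0 ≠ 0 ∧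
    (∀ t ∈ ball (0 : ℂ) δ, z0 + t ^ q ∈ φ '' ball 0 1) ∧
    (∀ t ∈ ball (0 : ℂ) δ, t ≠ 0 →
      ∑ k ∈ Finset.range (d + 1), c k (z0 + t ^ q) * (E t / t ^ q) ^ k = 0) ∧
    (∀ t ∈ ball (0 : ℂ) δ, ∀ t' ∈ ball (0 : ℂ) δ, t ≠ 0 → t' ≠ 0 →
      t ^ q = t' ^ q → E t / t ^ q = E t' / t' ^ q → t = t') ∧
    (∀ t ∈ ball (0 : ℂ) δ, E t - E (exp (2 * Real.pi * I / q) * t) = t ^ n * D t) ∧
    F01 1 (lam / 4 * E 0) = 0 ∧ F01 (-(n / q)) (lam / 4 * E 0) = 0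

theorem F01_one (κ : ℂ) : F01 1 κ = Bn 1 κ := by
  unfold F01 Bn
  congr 1
  funext k
  congr 2
  rw [← Finset.prod_range_add_one_eq_factorial, Finset.prod_range_succ', zero_add, Nat.cast_mul,
    Nat.cast_one, mul_one]
  push_cast
  refine Finset.prod_congr rfl fun j _ => ?_
  ring

theorem F01_poch (ν : ℝ) (κ : ℂ) :
    F01 (-ν) κ = ∑' k : ℕ, (-κ) ^ k / ((k.factorial : ℂ) * poch ν k) := by
  unfold F01 poch
  congr 1
  funext k
  congr 2
  refine Finset.prod_congr rfl fun j _ => ?_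
  push_cast
  ring

/-- the relation in the coordinate `σ` -/
theorem Ts_rel {Λ : ℝ} {ℓ : ℂ → ℂ} (hG : PG φ r d c w1 L G) (hC : Co φ r w1 L Λ ℓ) {σ : ℂ}
    (hσ : σ.re < Λ) :
    ∑ k ∈ Finset.range (d + 1), c k (φ (1 / conj w1) + exp σ) * Ts G ℓ σ ^ k = 0 := by
  have hre : (conj (σ + ℓ (exp σ))).re < L := by rw [conj_re]; exact hC.re_lt hσ
  have h1 := hG.rel hre
  rw [← hC.w_eq hσ] at h1
  have h2 := congrArg conj h1
  rw [map_sum, map_zero] at h2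
  rw [← h2]
  refine Finset.sum_congr rfl fun k _ => ?_
  have h3 : 1 / conj (1 / conj (psi φ r (φ (1 / conj w1) + exp σ))) =
      psi φ r (φ (1 / conj w1) + exp σ) := Pool.Agent.Y500.UC.rho_rho _
  unfold Cf Ts
  rw [map_mul, map_pow, conj_conj, h3, (psi_mem hG.hD (hC.h1 _ (exp_mem hσ))).2]

theorem coin_of (hG : PG φ r d c w1 L G) (hq : 2 ≤ q) (hper : IsPer L G q)
    (hmin : ∀ m : ℕ, 0 < m → m < q → ¬ IsPer L G m) {p : ℕ} (hpq : q ≤ p) {g : ℂ → ℂ}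
    (hg : AnalyticAt ℂ g 0) (hg0 : g 0 ≠ 0)
    (hev : ∀ᶠ t in 𝓝[≠] (0 : ℂ), Xf G q t = g t / t ^ p) {lam : ℝ} (hlam : 0 < lam)
    (hVG : ∀ (z : ℂ) (f : ℂ → ℂ), Branch φ r z f → ∀ b,
      VG (lam / 4) φ b (1 / conj z) (Rf f)) : Coin φ d c lam := by
  have hq0 : 0 < q := by omega
  have hq' : (0 : ℝ) < q := Nat.cast_pos.2 hq0
  have hqc : (q : ℂ) ≠ 0 := Nat.cast_ne_zero.2 hq0.ne'
  have ha : 0 < lam / 4 := by positivity
  obtain ⟨Λ0, ℓ, hC⟩ := exists_co hG.hD (w1_norm hG) L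
  obtain ⟨Λ, E, hΛ, hE, hE0, hT, hinj⟩ := pui hG hq0 hper hmin hg hg0 hev hC
  have hJB0 := jbound hG hC ha hVG
  have hJB : JB (lam / 4) Λ (Ts G ℓ) := fun σ1 h => hJB0 σ1 (h.trans_le hΛ)
  have hTd : DifferentiableOn ℂ (Ts G ℓ) (re ⁻¹' Iio Λ) :=
    (Ts_diff hC hG.hG).mono fun s hs => lt_of_lt_of_le hs hΛ
  rcases hpq.lt_or_eq with hlt | heq
  · exfalso
    have hμ : (1 : ℝ) < (p : ℝ) / q := by
      rw [one_lt_div hq']
      exact_mod_cast hlt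
    refine partC (μ := (p : ℝ) / q) ha hq0 hμ hJB hTd hE hE0 fun σ hσ => ?_
    rw [hT σ hσ]
    push_cast
    rfl
  · subst heq
    have hT' : ∀ σ : ℂ, σ.re < Λ → Ts G ℓ σ = E (exp (σ / q)) * exp (-σ) := by
      intro σ hσ
      rw [hT σ hσ, div_self hqc, one_mul]
    obtain ⟨h1, n, D, hnd, hDa, hD0, hED, h2⟩ :=
      partD ha hq hJB hTd hE hE0 hT' hinj
    obtain ⟨ε, hε, hb⟩ := Metric.eventually_nhds_iff_ball.1 (hED.and hDa.eventually_analyticAt)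
    set δ := min ε (Real.exp (Λ / q)) with hδdef
    have hδ : 0 < δ := lt_min hε (Real.exp_pos _)
    have hs1 : ball (0 : ℂ) δ ⊆ ball 0 ε := ball_subset_ball (min_le_left _ _)
    have hs2 : ball (0 : ℂ) δ ⊆ ball 0 (Real.exp (Λ / q)) := ball_subset_ball (min_le_right _ _)
    have hx : ∀ t ∈ ball (0 : ℂ) δ, t ^ q ∈ ball (0 : ℂ) (Real.exp Λ0) := fun t ht =>
      ball_subset_ball (Real.exp_le_exp.2 hΛ) (pow_ball hq0 (hs2 ht))
    refine ⟨φ (1 / conj w1), q, n, δ, E, D, ⟨_, rho_mem (w1_norm hG), rfl⟩, hq, hnd, hδ,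
      hE.mono hs2, fun t ht => (hb t (hs1 ht)).2.differentiableAt.differentiableWithinAt, hE0, hD0,
      fun t ht => hC.h1 _ (hx t ht), ?_, ?_, fun t ht => (hb t (hs1 ht)).1, ?_, ?_⟩
    · intro t ht ht0
      have hre : ((q : ℂ) * log t).re < Λ := by
        have h3 := hs2 ht
        rw [mem_ball_zero_iff] at h3
        rw [nat_mul_re, log_re]
        have h4 : Real.log ‖t‖ < Λ / q := by
          rw [← Real.log_exp (Λ / q)]
          exact Real.log_lt_log (norm_pos_iff.2 ht0) h3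
        rw [lt_div_iff₀ hq'] at h4
        linarith
      have h3 := Ts_rel hG hC (hre.trans_le hΛ)
      rw [hT' _ hre, exp_neg, exp_qlog ht0, mul_div_cancel_left₀ _ hqc, exp_log ht0,
        ← div_eq_mul_inv] at h3
      exact h3
    · exact fun t ht t' ht' => hinj t (hs2 ht) t' (hs2 ht')
    · rw [F01_one]
      push_cast at h1
      exact h1
    · rw [F01_poch]
      push_cast at h2 ⊢
      exact h2

/-- **Crossing or coincidence.** -/
theorem cross_or_coin (hD : Data φ r d c) {lam : ℝ} (hlam : 0 < lam)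
    (hBU : BranchesBlowUp φ r lam) (hNF : NoFiniteIsolatedSingularity φ r)
    (hVG : ∀ (z : ℂ) (f : ℂ → ℂ), Branch φ r z f → ∀ b,
      VG (lam / 4) φ b (1 / conj z) (Rf f))
    (hcusp : ¬ Coin φ d c lam) : Crosses φ r w1 := by
  classical
  intro c' ρ g hρ hB hg hbr hw1
  have hw1n : 1 < ‖w1‖ := hB w1 (sphere_subset_closedBall hw1)
  obtain ⟨L, hL⟩ := exists_good hD hw1n
  -- a point of the disc near `w1`
  obtain ⟨z0, hz0, hz0L⟩ : ∃ z0 ∈ ball c' ρ, ‖z0 - w1‖ < Real.exp L := by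
    have h1 : w1 ∈ closure (ball c' ρ) := by
      rw [closure_ball c' hρ.ne']; exact sphere_subset_closedBall hw1
    obtain ⟨z, hz, hz2⟩ := Metric.mem_closure_iff.1 h1 (Real.exp L) (Real.exp_pos L)
    exact ⟨z, hz, by rw [← dist_eq_norm, dist_comm]; exact hz2⟩
  obtain ⟨z, hz, hbz⟩ := hbr
  have hbz0 : Branch φ r z0 g :=
    branch_ball hbz (fun w hw => hB w (ball_subset_closedBall hw)) hg hz hz0
  have hexp := ell_exp hw1 hz0
  have hτ0 : (ell c' w1 z0).re < L := ell_re hw1 hz0 hz0L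
  obtain ⟨G, hG1, hG2, hG3⟩ := punct_cont hD hlam hBU hL hτ0 (f := g)
    (by rw [hexp, add_sub_cancel]; exact hbz0)
  have hPG : PG φ r d c w1 L G := ⟨hD, hL, hG1, hG3⟩
  have hgG := g_eq hG1 hg hw1 hz0 hz0L hG2
  -- the minimal period
  have hex : ∃ q : ℕ, 0 < q ∧ IsPer L G q := hPG.period
  have hq : 0 < Nat.find hex ∧ IsPer L G (Nat.find hex) := Nat.find_spec hex
  have hmin : ∀ m : ℕ, 0 < m → m < Nat.find hex → ¬ IsPer L G m :=
    fun m hm0 hm hper => Nat.find_min hex hm ⟨hm0, hper⟩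
  generalize Nat.find hex = q at hq hmin
  rcases eq_or_ne q 1 with h1 | h1
  · subst h1
    exact cross_one hPG hNF hq.2 hw1 hgG hz0 hz0L hbz0
  · rcases order_dich hPG hq.1 hq.2 with h2 | ⟨p, g', hpq, hg', hg'0, hev⟩
    · exact cross_slow hlam hBU hq.1 hq.2 hρ hB hg ⟨z, hz, hbz⟩ hw1 hgG h2
    · exact absurd (coin_of hPG (by omega) hq.2 hmin hpq hg' hg'0 hev hlam hVG) hcusp

/-- the identities for all branches -/
theorem all_VG (hD : Data φ r d c) {lam : ℝ} (hlam : 0 < lam)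
    (hS : Solvable (φ '' ball 0 1) lam) (z : ℂ) (f : ℂ → ℂ) (h : Branch φ r z f) (b : ℂ) :
    VG (lam / 4) φ b (1 / conj z) (Rf f) := by
  obtain ⟨cc, u, G, hu, hG, h1, h2, hu0⟩ := hS
  have hr := hD.hr
  have hφ := hD.hφ
  have hinj := hD.hinj
  have hSol : Pool.Agent.TH298.Sch.Sol (φ '' ball 0 1) lam cc u G := ⟨hu, hG, h1, h2⟩
  have hcont : ContinuousOn φ (closedBall 0 1) :=
    (hφ.continuousOn).mono (closedBall_subset_ball hr)
  have hb' : Bornology.IsBounded (φ '' ball 0 1) :=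
    ((isCompact_closedBall (0 : ℂ) 1).image_of_continuousOn hcont).isBounded.subset
      (image_mono ball_subset_closedBall)
  have hm' : MeasurableSet (φ '' ball 0 1) :=
    (isOpen_ball.measurableSet).image_of_continuousOn_injOn
      (hcont.mono ball_subset_closedBall) (hinj.mono (ball_subset_ball hr.le))
  have hc : cc ≠ 0 := hSol.c_ne hb' hm' hlam hu0
  exact (Pool.Agent.Y245.UC.branch_inv Pool.Agent.Y987.UC.ustart Pool.Agent.Y845.UC.ustep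
    Pool.Agent.Y641.UC.uconn Pool.Agent.Y500.UC.urel Pool.Agent.Y500.UC.urefl φ r lam cc u G hr hφ
    hinj hlam hc hSol z f (branch_iff φ r z f h)).2.1 b

/-- **The strong alternative.** -/
theorem disc_or_coin (hD : Data φ r d c) {lam : ℝ} (hlam : 0 < lam)
    (hS : Solvable (φ '' ball 0 1) lam) :
    (∃ (p : ℂ) (r0 : ℝ), 0 < r0 ∧ φ '' ball 0 1 = ball p r0) ∨ Coin φ d c lam := by
  by_contra hcon
  push Not at hcon
  obtain ⟨h1, h2⟩ := hcon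
  have hnd : ¬ ∃ (p : ℂ) (r0 : ℝ), 0 < r0 ∧ φ '' ball 0 1 = ball p r0 := by
    rintro ⟨p, r0, h3, h4⟩
    exact h1 p r0 h3 h4
  obtain ⟨hBU, -, h3⟩ := result φ r hD.hr hD.hφ hD.hinj lam hlam hS
  obtain ⟨hNF, -, -⟩ := h3 hnd
  obtain ⟨Φ, hΦ, hΦφ⟩ := entire_of_crosses hD.hr hD.hφ
    (fun w1 _ => cross_or_coin hD hlam hBU hNF (all_VG hD hlam hS) h2)
  have hΦφ' : EqOn Φ φ (ball 0 r) := hΦφ
  have himg : Φ '' ball 0 1 = φ '' ball 0 1 :=
    (hΦφ'.mono (ball_subset_ball hD.hr.le)).image_eq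
  obtain ⟨-, -, h4⟩ := result Φ r hD.hr hΦ.differentiableOn
    (hD.hinj.congr hΦφ'.symm) lam hlam (by rw [himg]; exact hS)
  rw [himg] at h4
  exact (h4 hnd).2.2 fun z => (hΦ.analyticAt z).meromorphicAt

theorem cusp_of_coin {lam : ℝ} (h : Coin φ d c lam) : Cusp φ d c := by
  obtain ⟨z0, q, n, δ, E, D, hz0, hq, -, hδ, hE, -, hE0, -, hm, hrel, hinj, -, -, -⟩ := h
  refine ⟨z0, q, q, δ, fun _ => 1, E, hz0, hq, le_rfl, hδ, differentiableOn_const _, hE,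
    one_ne_zero, hE0, ?_, ?_, ?_⟩
  · intro t ht
    simp only
    rw [mul_one]
    exact hm t ht
  · intro t ht ht0
    simp only
    rw [mul_one]
    exact hrel t ht ht0
  · intro t ht t' ht' ht0 ht'0 h1 h2
    simp only [mul_one] at h1
    exact hinj t ht t' ht' ht0 ht'0 h1 h2

end Pool.Agent.E8helper32.SA
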