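import Mathlib

/-!
# Gluing holomorphic functions along convex sets
-/

set_option autoImplicit false

open Complex Metric Set Filter Topology

namespace Pool.Agent.E8helper32.SA

/-- identity theorem on convex open sets -/
theorem eqOn_convex {V : Set ℂ} (hV : Convex ℝ V) (hVo : IsOpen V) {f g : ℂ → ℂ}
    (hf : DifferentiableOn ℂ f V) (hg : DifferentiableOn ℂ g V) {x : ℂ} (hx : x ∈ V)
    (h : f =ᶠ[𝓝 x] g) : EqOn f g V :=
  (hf.analyticOnNhd hVo).eqOn_of_preconnected_of_eventuallyEq (hg.analyticOnNhd hVo)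
    hV.isPreconnected hx h

/-- identity theorem on convex open sets, with an open set of agreement -/
theorem eqOn_convex' {V W : Set ℂ} (hV : Convex ℝ V) (hVo : IsOpen V) (hWo : IsOpen W)
    {f g : ℂ → ℂ} (hf : DifferentiableOn ℂ f V) (hg : DifferentiableOn ℂ g V) {x : ℂ} (hx : x ∈ V)
    (hxW : x ∈ W) (h : ∀ y ∈ V ∩ W, f y = g y) : EqOn f g V := by
  refine eqOn_convex hV hVo hf hg hx ?_
  filter_upwards [(hVo.inter hWo).mem_nhds ⟨hx, hxW⟩] with y hy
  exact h y hy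

/-- **Gluing.** The function `h` is given on the open set `V`, and near the points of `X`,
which belong to the closure of `V`, it extends to discs of a fixed radius. -/
theorem glue {V X : Set ℂ} (hVo : IsOpen V) {h : ℂ → ℂ}
    (hh : DifferentiableOn ℂ h V) (hX : X ⊆ closure V) {δ : ℝ} (hδ : 0 < δ) (E : ℂ → ℂ → ℂ)
    (hE : ∀ x ∈ X, DifferentiableOn ℂ (E x) (ball x δ))
    (hEh : ∀ x ∈ X, ∀ y ∈ ball x δ ∩ V, E x y = h y) :
    ∃ h' : ℂ → ℂ, DifferentiableOn ℂ h' (V ∪ ⋃ x ∈ X, ball x (δ / 3)) ∧ EqOn h' h V ∧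
      ∀ x ∈ X, ∀ y ∈ ball x (δ / 3), h' y = E x y := by
  classical
  -- the extensions agree on the intersections
  have key : ∀ x ∈ X, ∀ x' ∈ X, dist x x' < δ → ∀ y ∈ ball x δ ∩ ball x' δ, E x y = E x' y := by
    intro x hx x' hx' hd y hy
    have hx1 : x ∈ ball x δ ∩ ball x' δ := ⟨mem_ball_self hδ, hd⟩
    have ho : IsOpen (ball x δ ∩ ball x' δ) := isOpen_ball.inter isOpen_ball
    obtain ⟨v, hv1, hv2⟩ := mem_closure_iff.1 (hX hx) _ ho hx1
    refine eqOn_convex' ((convex_ball x δ).inter (convex_ball x' δ)) ho hVo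
      ((hE x hx).mono inter_subset_left) ((hE x' hx').mono inter_subset_right) hv1 hv2 ?_ hy
    rintro z ⟨⟨hz1, hz2⟩, hz3⟩
    rw [hEh x hx z ⟨hz1, hz3⟩, hEh x' hx' z ⟨hz2, hz3⟩]
  let h' : ℂ → ℂ := fun y => if y ∈ V then h y else
    if hy : ∃ x ∈ X, y ∈ ball x (δ / 3) then E hy.choose y else 0
  have h1 : EqOn h' h V := fun y hy => by simp only [h', if_pos hy]
  have h2 : ∀ x ∈ X, ∀ y ∈ ball x (δ / 3), h' y = E x y := by
    intro x hx y hy
    by_cases hyV : y ∈ V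
    · rw [h1 hyV, hEh x hx y ⟨ball_subset_ball (by linarith) hy, hyV⟩]
    · have hex : ∃ x ∈ X, y ∈ ball x (δ / 3) := ⟨x, hx, hy⟩
      have e1 : h' y = E hex.choose y := by
        simp only [h', if_neg hyV, dif_pos hex]
      rw [e1]
      obtain ⟨hc1, hc2⟩ := hex.choose_spec
      refine key _ hc1 _ hx ?_ y ⟨ball_subset_ball (by linarith) hc2,
        ball_subset_ball (by linarith) hy⟩
      calc dist hex.choose x ≤ dist hex.choose y + dist y x := dist_triangle _ _ _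
        _ < δ / 3 + δ / 3 := add_lt_add (by rw [dist_comm]; exact hc2) hy
        _ ≤ δ := by linarith
  refine ⟨h', ?_, h1, h2⟩
  rintro y (hy | hy)
  · have : DifferentiableAt ℂ h' y := by
      refine ((hh y hy).differentiableAt (hVo.mem_nhds hy)).congr_of_eventuallyEq ?_
      filter_upwards [hVo.mem_nhds hy] with z hz
      exact h1 hz
    exact this.differentiableWithinAt
  · simp only [mem_iUnion] at hy
    obtain ⟨x, hx, hy⟩ := hy
    have hyδ : y ∈ ball x δ := ball_subset_ball (by linarith) hy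
    have : DifferentiableAt ℂ h' y := by
      refine ((hE x hx y hyδ).differentiableAt (isOpen_ball.mem_nhds hyδ)).congr_of_eventuallyEq ?_
      filter_upwards [isOpen_ball.mem_nhds hy] with z hz
      exact h2 x hx z hz
    exact this.differentiableWithinAt

/-- **The disc lemma.** A germ at `z` that extends from every smaller disc across each boundary
point extends to the disc of radius `R`. -/
theorem disc_lemma {f : ℂ → ℂ} {z : ℂ} {r0 R : ℝ} (hr0 : 0 < r0) (hR : r0 ≤ R)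
    (hf : DifferentiableOn ℂ f (ball z r0))
    (H : ∀ ρ : ℝ, 0 < ρ → ρ < R → ∀ h : ℂ → ℂ, DifferentiableOn ℂ h (ball z ρ) → h =ᶠ[𝓝 z] f →
      ∀ x ∈ sphere z ρ, ∃ (ε : ℝ) (E : ℂ → ℂ), 0 < ε ∧ DifferentiableOn ℂ E (ball x ε) ∧
        ∀ y ∈ ball x ε ∩ ball z ρ, E y = h y) :
    ∃ g : ℂ → ℂ, DifferentiableOn ℂ g (ball z R) ∧ g =ᶠ[𝓝 z] f := by
  classical
  let A : Set ℝ := {ρ | 0 < ρ ∧ ρ ≤ R ∧ ∃ h : ℂ → ℂ, DifferentiableOn ℂ h (ball z ρ) ∧ h =ᶠ[𝓝 z] f}
  have hA0 : r0 ∈ A := ⟨hr0, hR, f, hf, EventuallyEq.refl _ _⟩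
  have hAb : BddAbove A := ⟨R, fun ρ hρ => hρ.2.1⟩
  set s := sSup A with hs
  have hs0 : 0 < s := hr0.trans_le (le_csSup hAb hA0)
  have hsR : s ≤ R := csSup_le ⟨_, hA0⟩ fun ρ hρ => hρ.2.1
  -- a function on the disc of radius `s`
  have hsA : s ∈ A := by
    refine ⟨hs0, hsR, ?_⟩
    have hex : ∀ y : ℂ, y ∈ ball z s → ∃ ρ ∈ A, y ∈ ball z ρ := by
      intro y hy
      obtain ⟨ρ, hρ, hlt⟩ := exists_lt_of_lt_csSup ⟨_, hA0⟩ (mem_ball.1 hy)
      exact ⟨ρ, hρ, hlt⟩
    let F : ℝ → ℂ → ℂ := fun ρ => if hρ : ρ ∈ A then hρ.2.2.choose else 0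
    have hF1 : ∀ ρ ∈ A, DifferentiableOn ℂ (F ρ) (ball z ρ) := fun ρ hρ => by
      simp only [F, dif_pos hρ]; exact hρ.2.2.choose_spec.1
    have hF2 : ∀ ρ ∈ A, F ρ =ᶠ[𝓝 z] f := fun ρ hρ => by
      simp only [F, dif_pos hρ]; exact hρ.2.2.choose_spec.2
    have hF3 : ∀ ρ ∈ A, ∀ ρ' ∈ A, ∀ y ∈ ball z ρ, y ∈ ball z ρ' → F ρ y = F ρ' y := by
      intro ρ hρ ρ' hρ' y hy hy'
      refine eqOn_convex ((convex_ball z ρ).inter (convex_ball z ρ'))
        (isOpen_ball.inter isOpen_ball) ((hF1 ρ hρ).mono inter_subset_left)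
        ((hF1 ρ' hρ').mono inter_subset_right) (x := z)
        ⟨mem_ball_self hρ.1, mem_ball_self hρ'.1⟩
        ((hF2 ρ hρ).trans (hF2 ρ' hρ').symm) ⟨hy, hy'⟩
    let g : ℂ → ℂ := fun y => if hy : ∃ ρ ∈ A, y ∈ ball z ρ then F hy.choose y else 0
    have hg : ∀ ρ ∈ A, ∀ y ∈ ball z ρ, g y = F ρ y := by
      intro ρ hρ y hy
      have hex' : ∃ ρ ∈ A, y ∈ ball z ρ := ⟨ρ, hρ, hy⟩
      simp only [g, dif_pos hex']
      exact hF3 _ hex'.choose_spec.1 _ hρ y hex'.choose_spec.2 hy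
    refine ⟨g, ?_, ?_⟩
    · intro y hy
      obtain ⟨ρ, hρ, hy'⟩ := hex y hy
      refine DifferentiableAt.differentiableWithinAt ?_
      refine ((hF1 ρ hρ y hy').differentiableAt (isOpen_ball.mem_nhds hy')).congr_of_eventuallyEq ?_
      filter_upwards [isOpen_ball.mem_nhds hy'] with v hv
      exact hg ρ hρ v hv
    · refine EventuallyEq.trans ?_ (hF2 _ hA0)
      filter_upwards [isOpen_ball.mem_nhds (mem_ball_self hr0)] with v hv
      exact hg _ hA0 v hv
  rcases hsR.eq_or_lt with hlast | hlt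
  · obtain ⟨-, -, h, h1, h2⟩ := hsA
    rw [hlast] at h1
    exact ⟨h, h1, h2⟩
  exfalso
  obtain ⟨-, -, h, h1, h2⟩ := hsA
  -- the Lebesgue number
  choose! ε E hε hE hEh using H s hs0 hlt h h1 h2
  obtain ⟨δ, hδ, hL⟩ := lebesgue_number_lemma_of_metric (s := sphere z s) (ι := sphere z s)
    (c := fun x => ball x.1 (ε x.1)) (isCompact_sphere z s) (fun _ => isOpen_ball)
    (fun x hx => mem_iUnion.2 ⟨⟨x, hx⟩, mem_ball_self (hε x hx)⟩)
  haveI : Nonempty (sphere z s) := (NormedSpace.sphere_nonempty.2 hs0.le).to_subtype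
  choose! i hi using hL
  obtain ⟨h', hd, he, -⟩ := glue isOpen_ball h1
    (X := sphere z s) (by rw [closure_ball z hs0.ne']; exact sphere_subset_closedBall) hδ
    (fun x => E (i x).1)
    (fun x hx => (hE _ (i x).2).mono (hi x hx))
    (fun x hx y hy => hEh _ (i x).2 y ⟨hi x hx hy.1, hy.2⟩)
  -- the larger disc
  have hsub : ball z (s + δ / 3) ⊆ ball z s ∪ ⋃ x ∈ sphere z s, ball x (δ / 3) := by
    intro y hy
    by_cases hys : y ∈ ball z s
    · exact Or.inl hys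
    · right
      have hys' : s ≤ ‖y - z‖ := by
        rw [mem_ball, dist_eq_norm, not_lt] at hys; exact hys
      have hy' : ‖y - z‖ < s + δ / 3 := by rw [mem_ball, dist_eq_norm] at hy; exact hy
      have hpos : 0 < ‖y - z‖ := hs0.trans_le hys'
      refine mem_iUnion₂.2 ⟨z + ((s / ‖y - z‖ : ℝ) : ℂ) * (y - z), ?_, ?_⟩
      · rw [mem_sphere_iff_norm, add_sub_cancel_left, norm_mul, Complex.norm_real,
          Real.norm_eq_abs, abs_of_pos (div_pos hs0 hpos), div_mul_cancel₀ _ hpos.ne']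
      · rw [mem_ball, dist_eq_norm]
        have : y - (z + ((s / ‖y - z‖ : ℝ) : ℂ) * (y - z)) =
            ((1 - s / ‖y - z‖ : ℝ) : ℂ) * (y - z) := by push_cast; ring
        rw [this, norm_mul, Complex.norm_real, Real.norm_eq_abs, abs_of_nonneg (by
          rw [sub_nonneg, div_le_one hpos]; exact hys'), sub_mul, one_mul,
          div_mul_cancel₀ _ hpos.ne']
        linarith
  have hm : min (s + δ / 3) R ∈ A := by
    refine ⟨lt_min (by linarith) (hs0.trans hlt), min_le_right _ _, h',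
      hd.mono ((ball_subset_ball (min_le_left _ _)).trans hsub), ?_⟩
    refine EventuallyEq.trans ?_ h2
    filter_upwards [isOpen_ball.mem_nhds (mem_ball_self hs0)] with v hv
    exact he hv
  have := le_csSup hAb hm
  rw [← hs] at this
  rcases min_le_iff.1 this with h3 | h3
  · linarith
  · exact absurd h3 (not_le.2 hlt)

end Pool.Agent.E8helper32.SA
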