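import Pool.Agent.Y245.SC.Main1

/-!
# Hankel type integrals
-/

set_option autoImplicit false

open Complex MeasureTheory Metric Set Filter Topology

namespace Pool.Agent.E8helper32.SA

open Pool.Agent.Y245.SC (seg t_SEG)

/-- limits of integrals over growing intervals -/
theorem ray_lim {k : ℝ → ℝ → ℂ} {k0 : ℝ → ℂ} {M : ℝ → ℝ} {g : ℝ → ℝ}
    (hM : Tendsto M atTop atTop) (hg : IntegrableOn g (Ioi 0))
    (hk : ∀ᶠ τ in atTop, ContinuousOn (k τ) (Icc 0 (M τ)))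
    (h1 : ∀ ρ : ℝ, 0 < ρ → Tendsto (fun τ => k τ ρ) atTop (𝓝 (k0 ρ)))
    (h2 : ∀ᶠ τ in atTop, ∀ ρ ∈ Ioc 0 (M τ), ‖k τ ρ‖ ≤ g ρ) :
    Tendsto (fun τ => ∫ ρ in (0 : ℝ)..M τ, k τ ρ) atTop (𝓝 (∫ ρ in Ioi (0 : ℝ), k0 ρ)) := by
  have hev : ∀ᶠ τ in atTop, (∫ ρ in (0 : ℝ)..M τ, k τ ρ) =
      ∫ ρ in Ioi (0 : ℝ), (Ioc 0 (M τ)).indicator (k τ) ρ := by
    filter_upwards [hM.eventually_gt_atTop 0] with τ hτ
    rw [intervalIntegral.integral_of_le hτ.le, setIntegral_indicator measurableSet_Ioc]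
    congr 1
    congr 1
    ext ρ
    simp only [mem_inter_iff, mem_Ioi, mem_Ioc]
    tauto
  refine Tendsto.congr' (hev.mono fun τ h => h.symm) ?_
  refine tendsto_integral_filter_of_dominated_convergence (fun ρ => |g ρ|) ?_ ?_ ?_ ?_
  · filter_upwards [hk] with τ hτ
    have h3 : AEStronglyMeasurable (k τ) (volume.restrict (Ioc 0 (M τ))) :=
      (hτ.mono Ioc_subset_Icc_self).aestronglyMeasurable measurableSet_Ioc
    have h4 : AEStronglyMeasurable ((Ioc 0 (M τ)).indicator (k τ)) volume :=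
      (aestronglyMeasurable_indicator_iff measurableSet_Ioc).2 h3
    exact h4.restrict
  · filter_upwards [h2] with τ hτ
    refine Eventually.of_forall fun ρ => ?_
    by_cases hρ : ρ ∈ Ioc 0 (M τ)
    · rw [indicator_of_mem hρ]
      exact (hτ ρ hρ).trans (le_abs_self _)
    · rw [indicator_of_notMem hρ, norm_zero]
      exact abs_nonneg _
  · exact hg.norm
  · rw [ae_restrict_iff' measurableSet_Ioi]
    refine Eventually.of_forall fun ρ hρ => ?_
    refine (h1 ρ hρ).congr' ?_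
    filter_upwards [hM.eventually_ge_atTop ρ] with τ hτ
    rw [indicator_of_mem (show ρ ∈ Ioc 0 (M τ) from ⟨hρ, hτ⟩)]

theorem seg_arc (K : ℂ → ℂ) : seg K (-(Real.pi * I)) (Real.pi * I) =
    ∫ θ in (-Real.pi)..Real.pi, K (θ * I) * I := by
  unfold seg
  have hπ : (2 * Real.pi : ℝ) ≠ 0 := by positivity
  have h1 := intervalIntegral.integral_comp_add_mul (a := 0) (b := 1)
    (fun θ : ℝ => K (θ * I) * I) hπ (-Real.pi)
  have e1 : (-Real.pi + 2 * Real.pi * 0 : ℝ) = -Real.pi := by ring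
  have e2 : (-Real.pi + 2 * Real.pi * 1 : ℝ) = Real.pi := by ring
  rw [e1, e2] at h1
  have h2 : ∫ θ in (-Real.pi)..Real.pi, K (θ * I) * I =
      (2 * Real.pi : ℝ) • ∫ x in (0 : ℝ)..1, K (((-Real.pi + 2 * Real.pi * x : ℝ) : ℂ) * I) * I := by
    rw [h1, smul_smul, mul_inv_cancel₀ hπ, one_smul]
  rw [h2, real_smul, ← intervalIntegral.integral_const_mul]
  refine intervalIntegral.integral_congr fun t _ => ?_
  have e3 : (-(Real.pi * I) + t * (Real.pi * I - -(Real.pi * I)) : ℂ) =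
      ((-Real.pi + 2 * Real.pi * t : ℝ) : ℂ) * I := by push_cast; ring
  rw [e3]
  push_cast
  ring

theorem seg_ray (K : ℂ → ℂ) (M : ℝ) (hM : 0 < M) (c : ℂ) : seg K c (M + c) =
    ∫ ρ in (0 : ℝ)..M, K (ρ + c) := by
  unfold seg
  have h1 := intervalIntegral.integral_comp_mul_left (a := 0) (b := 1)
    (fun ρ : ℝ => K (ρ + c)) hM.ne'
  rw [mul_zero, mul_one] at h1
  have h2 : ∫ ρ in (0 : ℝ)..M, K (ρ + c) = M • ∫ x in (0 : ℝ)..1, K (((M * x : ℝ) : ℂ) + c) := by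
    rw [h1, smul_smul, mul_inv_cancel₀ hM.ne', one_smul]
  rw [h2, real_smul, ← intervalIntegral.integral_const_mul]
  refine intervalIntegral.integral_congr fun t _ => ?_
  have e3 : (c + t * (M + c - c) : ℂ) = ((M * t : ℝ) : ℂ) + c := by push_cast; ring
  rw [e3, add_sub_cancel_right]
  ring

theorem seg_symm (K : ℂ → ℂ) (p x : ℂ) : seg K x p = - seg K p x := by
  unfold seg
  have h1 := intervalIntegral.integral_comp_sub_left (a := 0) (b := 1)
    (fun t : ℝ => K (p + t * (x - p)) * (x - p)) 1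
  rw [sub_self, sub_zero] at h1
  rw [← h1, ← intervalIntegral.integral_neg]
  refine intervalIntegral.integral_congr fun t _ => ?_
  have e : (x + t * (p - x) : ℂ) = p + ((1 - t : ℝ) : ℂ) * (x - p) := by push_cast; ring
  rw [e]
  ring

/-- **Limits along Hankel contours.** -/
theorem hankel {K : ℝ → ℂ → ℂ} {K0 : ℂ → ℂ} {M : ℝ → ℝ} {g : ℝ → ℝ} {C : ℝ}
    (hM : Tendsto M atTop atTop) (hg : IntegrableOn g (Ioi 0))
    (hK : ∀ᶠ τ in atTop, DifferentiableOn ℂ (K τ) (re ⁻¹' Iio (M τ + 1)))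
    (h1 : ∀ y : ℂ, Tendsto (fun τ => K τ y) atTop (𝓝 (K0 y)))
    (h2 : ∀ᶠ τ in atTop, ∀ θ ∈ Icc (-Real.pi) Real.pi, ‖K τ (θ * I)‖ ≤ C)
    (h3 : ∀ᶠ τ in atTop, ∀ ρ ∈ Ioc 0 (M τ), ‖K τ (ρ + Real.pi * I)‖ ≤ g ρ ∧
      ‖K τ (ρ + -(Real.pi * I))‖ ≤ g ρ)
    (h4 : Tendsto (fun τ => seg (K τ) (M τ + -(Real.pi * I)) (M τ + Real.pi * I)) atTop (𝓝 0)) :
    (∫ θ in (-Real.pi)..Real.pi, K0 (θ * I) * I) + (∫ ρ in Ioi (0 : ℝ), K0 (ρ + Real.pi * I)) -
      ∫ ρ in Ioi (0 : ℝ), K0 (ρ + -(Real.pi * I)) = 0 := by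
  have hπ := Real.pi_pos
  have hpm : (Real.pi * I : ℂ).re = 0 := by simp
  -- the decomposition
  have hdec : ∀ᶠ τ in atTop, seg (K τ) (M τ + -(Real.pi * I)) (M τ + Real.pi * I) =
      (∫ θ in (-Real.pi)..Real.pi, K τ (θ * I) * I) + (∫ ρ in (0 : ℝ)..M τ, K τ (ρ + Real.pi * I)) -
      ∫ ρ in (0 : ℝ)..M τ, K τ (ρ + -(Real.pi * I)) := by
    filter_upwards [hK, hM.eventually_gt_atTop 0] with τ hτ hMτ
    obtain ⟨hadd, -⟩ := t_SEG (re ⁻¹' Iio (M τ + 1)) (K τ) (isOpen_Iio.preimage continuous_re)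
      (convex_halfSpace_re_lt _) hτ
    have m1 : (M τ + -(Real.pi * I) : ℂ) ∈ (re ⁻¹' Iio (M τ + 1) : Set ℂ) := by
      rw [mem_preimage, add_re, neg_re, hpm, ofReal_re, mem_Iio]; linarith
    have m2 : (-(Real.pi * I) : ℂ) ∈ (re ⁻¹' Iio (M τ + 1) : Set ℂ) := by
      rw [mem_preimage, neg_re, hpm, mem_Iio]; linarith
    have m3 : (Real.pi * I : ℂ) ∈ (re ⁻¹' Iio (M τ + 1) : Set ℂ) := by
      rw [mem_preimage, hpm, mem_Iio]; linarith
    have m4 : (M τ + Real.pi * I : ℂ) ∈ (re ⁻¹' Iio (M τ + 1) : Set ℂ) := by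
      rw [mem_preimage, add_re, hpm, ofReal_re, mem_Iio]; linarith
    have a1 := hadd _ m1 _ m2 _ m3
    have a2 := hadd _ m1 _ m3 _ m4
    rw [← a2, ← a1, seg_arc, seg_ray _ _ hMτ, seg_symm, seg_ray _ _ hMτ]
    ring
  -- the limits
  have l1 : Tendsto (fun τ => ∫ θ in (-Real.pi)..Real.pi, K τ (θ * I) * I) atTop
      (𝓝 (∫ θ in (-Real.pi)..Real.pi, K0 (θ * I) * I)) := by
    refine intervalIntegral.tendsto_integral_filter_of_dominated_convergence (fun _ => C) ?_ ?_ ?_ ?_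
    · filter_upwards [hK, hM.eventually_gt_atTop 0] with τ hτ hMτ
      have hc : Continuous fun θ : ℝ => K τ (θ * I) * I := by
        refine Continuous.mul ?_ continuous_const
        refine hτ.continuousOn.comp_continuous (continuous_ofReal.mul continuous_const) fun θ => ?_
        rw [mem_preimage, mem_Iio]
        have : ((θ : ℂ) * I).re = 0 := by simp
        rw [this]
        linarith
      exact hc.aestronglyMeasurable
    · filter_upwards [h2] with τ hτ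
      refine Eventually.of_forall fun θ hθ => ?_
      rw [uIoc_of_le (by linarith)] at hθ
      rw [norm_mul, norm_I, mul_one]
      exact hτ θ ⟨hθ.1.le, hθ.2⟩
    · exact intervalIntegrable_const
    · exact Eventually.of_forall fun θ _ => (h1 _).mul_const I
  have hcont : ∀ c : ℂ, c.re = 0 → ∀ᶠ τ in atTop,
      ContinuousOn (fun ρ : ℝ => K τ (ρ + c)) (Icc 0 (M τ)) := by
    intro c hc
    filter_upwards [hK] with τ hτ
    refine hτ.continuousOn.comp (continuous_ofReal.add continuous_const).continuousOn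
      fun ρ hρ => ?_
    rw [mem_preimage, mem_Iio, add_re, hc, ofReal_re]
    linarith [hρ.2]
  have l2 : Tendsto (fun τ => ∫ ρ in (0 : ℝ)..M τ, K τ (ρ + Real.pi * I)) atTop
      (𝓝 (∫ ρ in Ioi (0 : ℝ), K0 (ρ + Real.pi * I))) :=
    ray_lim hM hg (hcont _ hpm) (fun ρ _ => h1 _) (h3.mono fun τ h ρ hρ => (h ρ hρ).1)
  have l3 : Tendsto (fun τ => ∫ ρ in (0 : ℝ)..M τ, K τ (ρ + -(Real.pi * I))) atTop
      (𝓝 (∫ ρ in Ioi (0 : ℝ), K0 (ρ + -(Real.pi * I)))) :=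
    ray_lim hM hg (hcont _ (by rw [neg_re, hpm, neg_zero])) (fun ρ _ => h1 _)
      (h3.mono fun τ h ρ hρ => (h ρ hρ).2)
  have l4 := (l1.add l2).sub l3
  have l5 := h4.congr' hdec
  exact tendsto_nhds_unique l4 l5

end Pool.Agent.E8helper32.SA
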