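import Pool.Agent.E8helper32.SA.Han
import Pool.Agent.Y427.SC.Sima

/-!
# Hankel's integral and Bessel functions
-/

set_option autoImplicit false

open Complex MeasureTheory Metric Set Filter Topology

namespace Pool.Agent.E8helper32.SA

open Pool.Agent.Y245.SC (seg t_SEG)
open Pool.Agent.Y245.SG (Bn)

/-- the weight on the rays -/
noncomputable def gs (s ρ : ℝ) : ℝ := Real.exp (s * ρ - Real.exp ρ)

theorem gs_pos (s ρ : ℝ) : 0 < gs s ρ := Real.exp_pos _

theorem gs_cont (s : ℝ) : Continuous (gs s) := by unfold gs; fun_prop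

theorem gs_le (s : ℝ) : ∀ᶠ ρ in atTop, gs s ρ ≤ Real.exp (-1 * ρ) := by
  have h1 := (Real.tendsto_exp_div_pow_atTop 1).eventually_ge_atTop (|s| + 1)
  filter_upwards [h1, eventually_gt_atTop 0] with ρ h2 h3
  rw [pow_one, le_div_iff₀ h3] at h2
  unfold gs
  refine Real.exp_le_exp.2 ?_
  have h4 : s * ρ ≤ |s| * ρ := mul_le_mul_of_nonneg_right (le_abs_self s) h3.le
  linarith

theorem gs_int (s : ℝ) : IntegrableOn (gs s) (Ioi 0) := by
  refine integrable_of_isBigO_exp_neg one_pos (gs_cont s).continuousOn ?_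
  refine Asymptotics.IsBigO.of_bound 1 ?_
  filter_upwards [gs_le s] with ρ hρ
  rw [Real.norm_of_nonneg (gs_pos s ρ).le, Real.norm_of_nonneg (Real.exp_pos _).le, one_mul]
  exact hρ

/-- the integrand -/
noncomputable def hF (s : ℝ) (κ y : ℂ) : ℂ := exp (exp y - κ * exp (-y) + s * y)

theorem hF_cont (s : ℝ) (κ : ℂ) : Continuous (hF s κ) := by unfold hF; fun_prop

/-- the Hankel integral -/
noncomputable def Hk (s : ℝ) (κ : ℂ) : ℂ :=
  (∫ θ in (-Real.pi)..Real.pi, hF s κ (θ * I) * I) +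
    (∫ ρ in Ioi (0 : ℝ), hF s κ (ρ + Real.pi * I)) -
    ∫ ρ in Ioi (0 : ℝ), hF s κ (ρ + -(Real.pi * I))

theorem exp_pi (ρ : ℝ) : exp (ρ + Real.pi * I) = ((-Real.exp ρ : ℝ) : ℂ) := by
  rw [exp_add, exp_pi_mul_I]; push_cast; ring

theorem exp_pi' (ρ : ℝ) : exp (ρ + -(Real.pi * I)) = ((-Real.exp ρ : ℝ) : ℂ) := by
  rw [exp_add, exp_neg, exp_pi_mul_I]; push_cast; ring

theorem hF_ray {c : ℂ} (hc : c.re = 0) (hce : ∀ ρ : ℝ, exp (ρ + c) = ((-Real.exp ρ : ℝ) : ℂ))
    (s : ℝ) (κ : ℂ) {ρ : ℝ} (hρ : 0 ≤ ρ) : ‖hF s κ (ρ + c)‖ ≤ Real.exp ‖κ‖ * gs s ρ := by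
  unfold hF gs
  rw [norm_exp, ← Real.exp_add]
  refine Real.exp_le_exp.2 ?_
  rw [add_re, sub_re, hce, ofReal_re]
  have h1 : (s * (ρ + c) : ℂ).re = s * ρ := by
    rw [re_ofReal_mul, add_re, hc, ofReal_re, add_zero]
  have h2 : -(κ * exp (-(ρ + c))).re ≤ ‖κ‖ := by
    have h3 : ‖κ * exp (-(ρ + c))‖ ≤ ‖κ‖ := by
      rw [norm_mul, norm_exp, neg_re, add_re, hc, ofReal_re, add_zero]
      have : Real.exp (-ρ) ≤ 1 := Real.exp_le_one_iff.2 (by linarith)
      exact mul_le_of_le_one_right (norm_nonneg _) this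
    have h4 := abs_re_le_norm (κ * exp (-(ρ + c)))
    have h5 := neg_abs_le (κ * exp (-(ρ + c))).re
    linarith
  rw [h1]
  linarith

theorem pi_re : (Real.pi * I : ℂ).re = 0 := by simp
theorem pi_re' : (-(Real.pi * I) : ℂ).re = 0 := by simp

theorem hF_int {c : ℂ} (hc : c.re = 0) (hce : ∀ ρ : ℝ, exp (ρ + c) = ((-Real.exp ρ : ℝ) : ℂ))
    (s : ℝ) (κ : ℂ) : IntegrableOn (fun ρ : ℝ => hF s κ (ρ + c)) (Ioi 0) := by
  have hm : AEStronglyMeasurable (fun ρ : ℝ => hF s κ (ρ + c)) (volume.restrict (Ioi 0)) :=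
    ((hF_cont s κ).comp (continuous_ofReal.add continuous_const)).aestronglyMeasurable
  refine Integrable.mono' ((gs_int s).const_mul (Real.exp ‖κ‖)) hm ?_
  rw [ae_restrict_iff' measurableSet_Ioi]
  exact Eventually.of_forall fun ρ hρ => hF_ray hc hce s κ (le_of_lt hρ)

/-! ### expansion in `κ` -/

theorem hF_hasSum (s : ℝ) (κ y : ℂ) :
    HasSum (fun k : ℕ => (-κ) ^ k / (k.factorial : ℂ) * hF (s - k) 0 y) (hF s κ y) := by
  have h1 : HasSum (fun k : ℕ => (-κ * exp (-y)) ^ k / (k.factorial : ℂ))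
      (exp (-κ * exp (-y))) := by
    rw [exp_eq_exp_ℂ]
    exact NormedSpace.expSeries_div_hasSum_exp _
  have h2 := h1.mul_right (exp (exp y + s * y))
  have h3 : exp (-κ * exp (-y)) * exp (exp y + s * y) = hF s κ y := by
    unfold hF
    rw [← exp_add]
    congr 1
    ring
  rw [h3] at h2
  refine h2.congr_fun fun k => ?_
  unfold hF
  rw [mul_pow, ← exp_nat_mul, mul_div_right_comm, mul_assoc, ← exp_add]
  congr 2
  push_cast
  ring

theorem gs_anti {s : ℝ} (k : ℕ) {ρ : ℝ} (hρ : 0 ≤ ρ) : gs (s - k) ρ ≤ gs s ρ := by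
  unfold gs
  refine Real.exp_le_exp.2 ?_
  have : 0 ≤ (k : ℝ) * ρ := by positivity
  nlinarith

theorem hasSum_ray {c : ℂ} (hc : c.re = 0)
    (hce : ∀ ρ : ℝ, exp (ρ + c) = ((-Real.exp ρ : ℝ) : ℂ)) (s : ℝ) (κ : ℂ) :
    HasSum (fun k : ℕ => (-κ) ^ k / (k.factorial : ℂ) *
      ∫ ρ in Ioi (0 : ℝ), hF (s - k) 0 (ρ + c)) (∫ ρ in Ioi (0 : ℝ), hF s κ (ρ + c)) := by
  have hsum : Summable fun k : ℕ => ‖κ‖ ^ k / (k.factorial : ℝ) :=
    Real.summable_pow_div_factorial _
  have h1 := hasSum_integral_of_dominated_convergence (μ := volume.restrict (Ioi (0 : ℝ)))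
    (F := fun (k : ℕ) (ρ : ℝ) => (-κ) ^ k / (k.factorial : ℂ) * hF (s - k) 0 (ρ + c))
    (f := fun ρ : ℝ => hF s κ (ρ + c))
    (fun k ρ => ‖κ‖ ^ k / (k.factorial : ℝ) * gs s ρ) ?_ ?_ ?_ ?_ ?_
  · refine h1.congr_fun fun k => ?_
    rw [integral_const_mul]
  · intro k
    exact (continuous_const.mul ((hF_cont _ _).comp
      (continuous_ofReal.add continuous_const))).aestronglyMeasurable
  · intro k
    rw [ae_restrict_iff' measurableSet_Ioi]
    refine Eventually.of_forall fun ρ hρ => ?_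
    rw [norm_mul, norm_div, norm_pow, norm_neg, Complex.norm_natCast]
    have h2 := hF_ray hc hce (s - k) 0 (le_of_lt hρ)
    rw [norm_zero, Real.exp_zero, one_mul] at h2
    have h3 := h2.trans (gs_anti k (le_of_lt hρ))
    gcongr
  · exact Eventually.of_forall fun ρ => hsum.mul_right _
  · have h2 : (fun ρ => ∑' k : ℕ, ‖κ‖ ^ k / (k.factorial : ℝ) * gs s ρ) =
        fun ρ => (∑' k : ℕ, ‖κ‖ ^ k / (k.factorial : ℝ)) * gs s ρ := by
      funext ρ
      rw [tsum_mul_right]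
    rw [h2]
    exact (gs_int s).const_mul _
  · exact Eventually.of_forall fun ρ => hF_hasSum s κ _

theorem hasSum_arc (s : ℝ) (κ : ℂ) :
    HasSum (fun k : ℕ => (-κ) ^ k / (k.factorial : ℂ) *
      ∫ θ in (-Real.pi)..Real.pi, hF (s - k) 0 (θ * I) * I)
      (∫ θ in (-Real.pi)..Real.pi, hF s κ (θ * I) * I) := by
  have hsum : Summable fun k : ℕ => ‖κ‖ ^ k / (k.factorial : ℝ) :=
    Real.summable_pow_div_factorial _
  have h1 := intervalIntegral.hasSum_integral_of_dominated_convergence (μ := volume)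
    (a := -Real.pi) (b := Real.pi)
    (F := fun (k : ℕ) (θ : ℝ) => (-κ) ^ k / (k.factorial : ℂ) * (hF (s - k) 0 (θ * I) * I))
    (f := fun θ : ℝ => hF s κ (θ * I) * I)
    (fun k _ => ‖κ‖ ^ k / (k.factorial : ℝ) * Real.exp 1) ?_ ?_ ?_ ?_ ?_
  · refine h1.congr_fun fun k => ?_
    rw [intervalIntegral.integral_const_mul]
  · intro k
    exact (continuous_const.mul (((hF_cont _ _).comp
      (continuous_ofReal.mul continuous_const)).mul continuous_const)).aestronglyMeasurable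
  · intro k
    refine Eventually.of_forall fun θ _ => ?_
    rw [norm_mul, norm_mul, norm_div, norm_pow, norm_neg, Complex.norm_natCast, norm_I, mul_one]
    have h2 : ‖hF (s - k) 0 (θ * I)‖ ≤ Real.exp 1 := by
      unfold hF
      rw [norm_exp]
      refine Real.exp_le_exp.2 ?_
      rw [zero_mul, sub_zero, add_re]
      have h3 : (((s - k : ℝ) : ℂ) * (θ * I)).re = 0 := by
        rw [re_ofReal_mul]; simp
      have h4 := re_le_norm (exp (θ * I))
      rw [norm_exp_ofReal_mul_I] at h4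
      linarith
    gcongr
  · exact Eventually.of_forall fun θ _ => hsum.mul_right _
  · exact intervalIntegrable_const
  · exact Eventually.of_forall fun θ _ => by
      refine ((hF_hasSum s κ (θ * I)).mul_right I).congr_fun fun k => ?_
      ring

/-- the expansion of the Hankel integral -/
theorem Hk_hasSum (s : ℝ) (κ : ℂ) :
    HasSum (fun k : ℕ => (-κ) ^ k / (k.factorial : ℂ) * Hk (s - k) 0) (Hk s κ) := by
  have h1 := ((hasSum_arc s κ).add (hasSum_ray pi_re exp_pi s κ)).sub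
    (hasSum_ray pi_re' exp_pi' s κ)
  refine h1.congr_fun fun k => ?_
  unfold Hk
  ring

/-! ### the recurrence -/

theorem hF_deriv (s : ℝ) (y : ℂ) :
    HasDerivAt (hF s 0) (hF (s + 1) 0 y + s * hF s 0 y) y := by
  have h1 : HasDerivAt (fun y : ℂ => exp y - 0 * exp (-y) + s * y) (exp y + s) y := by
    have h2 : HasDerivAt (fun y : ℂ => exp y + s * y) (exp y + s * 1) y :=
      (hasDerivAt_exp y).add ((hasDerivAt_id y).const_mul _)
    rw [mul_one] at h2
    refine h2.congr_of_eventuallyEq (Eventually.of_forall fun z => ?_)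
    simp only
    ring
  have h2 := h1.cexp
  have h3 : exp (exp y - 0 * exp (-y) + s * y) * (exp y + s) =
      hF (s + 1) 0 y + s * hF s 0 y := by
    unfold hF
    have h4 : exp (exp y - 0 * exp (-y) + ((s + 1 : ℝ) : ℂ) * y) =
        exp (exp y - 0 * exp (-y) + s * y) * exp y := by
      rw [← exp_add]
      congr 1
      push_cast
      ring
    rw [h4]
    ring
  rw [h3] at h2
  exact h2

theorem ray_rec {c : ℂ} (hc : c.re = 0)
    (hce : ∀ ρ : ℝ, exp (ρ + c) = ((-Real.exp ρ : ℝ) : ℂ)) (s : ℝ) :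
    (∫ ρ in Ioi (0 : ℝ), hF (s + 1) 0 (ρ + c)) + s * ∫ ρ in Ioi (0 : ℝ), hF s 0 (ρ + c) =
      - hF s 0 c := by
  have h1 : ∀ ρ ∈ Ici (0 : ℝ), HasDerivAt (fun ρ : ℝ => hF s 0 (ρ + c))
      (hF (s + 1) 0 (ρ + c) + s * hF s 0 (ρ + c)) ρ := by
    intro ρ _
    have h2 : HasDerivAt (fun ρ : ℝ => (ρ : ℂ) + c) 1 ρ := by
      have := (hasDerivAt_id (ρ : ℂ)).comp_ofReal.add_const c
      exact this
    have h3 := (hF_deriv s (ρ + c)).comp_of_eq ρ h2 rfl
    rw [mul_one] at h3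
    exact h3
  have h2 : IntegrableOn (fun ρ : ℝ => hF (s + 1) 0 (ρ + c) + s * hF s 0 (ρ + c)) (Ioi 0) :=
    (hF_int hc hce (s + 1) 0).add ((hF_int hc hce s 0).const_mul _)
  have h3 : Tendsto (fun ρ : ℝ => hF s 0 (ρ + c)) atTop (𝓝 0) := by
    refine squeeze_zero_norm' (a := fun ρ => Real.exp (-1 * ρ)) ?_ ?_
    · filter_upwards [gs_le s, eventually_ge_atTop 0] with ρ h4 h5
      have h6 := hF_ray hc hce s 0 h5
      rw [norm_zero, Real.exp_zero, one_mul] at h6
      exact h6.trans h4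
    · have : Tendsto (fun ρ : ℝ => -1 * ρ) atTop atBot := by
        simpa using tendsto_neg_atTop_atBot
      exact Real.tendsto_exp_atBot.comp this
  have h4 := integral_Ioi_of_hasDerivAt_of_tendsto' h1 h2 h3
  rw [integral_add (hF_int hc hce (s + 1) 0) ((hF_int hc hce s 0).const_mul _),
    integral_const_mul, ofReal_zero, zero_add, zero_sub] at h4
  exact h4

theorem arc_rec (s : ℝ) :
    (∫ θ in (-Real.pi)..Real.pi, hF (s + 1) 0 (θ * I) * I) +
      s * ∫ θ in (-Real.pi)..Real.pi, hF s 0 (θ * I) * I =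
      hF s 0 (Real.pi * I) - hF s 0 (-(Real.pi * I)) := by
  have h1 : ∀ θ ∈ uIcc (-Real.pi) Real.pi, HasDerivAt (fun θ : ℝ => hF s 0 (θ * I))
      (hF (s + 1) 0 (θ * I) * I + s * (hF s 0 (θ * I) * I)) θ := by
    intro θ _
    have h2 : HasDerivAt (fun θ : ℝ => (θ : ℂ) * I) I θ := by
      have := (hasDerivAt_id (θ : ℂ)).comp_ofReal.mul_const I
      rw [one_mul] at this
      exact this
    have h3 := (hF_deriv s (θ * I)).comp_of_eq θ h2 rfl
    have e : (hF (s + 1) 0 (θ * I) + s * hF s 0 (θ * I)) * I =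
        hF (s + 1) 0 (θ * I) * I + s * (hF s 0 (θ * I) * I) := by ring
    rw [e] at h3
    exact h3
  have c1 : ∀ s : ℝ, Continuous fun θ : ℝ => hF s 0 (θ * I) * I := fun s =>
    ((hF_cont s 0).comp (continuous_ofReal.mul continuous_const)).mul continuous_const
  have c2 : Continuous fun θ : ℝ => (s : ℂ) * (hF s 0 (θ * I) * I) :=
    continuous_const.mul (c1 s)
  have h4 := intervalIntegral.integral_eq_sub_of_hasDerivAt h1
    (((c1 (s + 1)).add c2).intervalIntegrable _ _)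
  rw [intervalIntegral.integral_add ((c1 (s + 1)).intervalIntegrable _ _)
    (c2.intervalIntegrable _ _), intervalIntegral.integral_const_mul] at h4
  rw [h4]
  congr 2
  push_cast
  ring

/-- **The recurrence.** -/
theorem Hk_rec (s : ℝ) : Hk (s + 1) 0 = -(s * Hk s 0) := by
  have h1 := arc_rec s
  have h2 := ray_rec pi_re exp_pi s
  have h3 := ray_rec pi_re' exp_pi' s
  unfold Hk
  linear_combination h1 + h2 - h3

/-! ### the first coefficient -/

theorem pm_ne {s : ℝ} (hs : ∀ m : ℤ, s ≠ m) :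
    exp (s * (Real.pi * I)) - exp (-(s * (Real.pi * I))) ≠ 0 := by
  intro h
  rw [sub_eq_zero, exp_eq_exp_iff_exists_int] at h
  obtain ⟨m, hm⟩ := h
  have h1 : (s : ℂ) * (Real.pi * I) = m * (Real.pi * I) := by linear_combination hm / 2
  have h2 : (Real.pi * I : ℂ) ≠ 0 := mul_ne_zero (ofReal_ne_zero.2 Real.pi_ne_zero) I_ne_zero
  have h3 := mul_right_cancel₀ h2 h1
  exact hs m (by exact_mod_cast h3)

theorem hF_pi (s ρ : ℝ) : hF s 0 (ρ + Real.pi * I) = exp (s * (Real.pi * I)) * (gs s ρ : ℂ) := by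
  unfold hF gs
  rw [exp_pi, ofReal_exp, ← exp_add]
  congr 1
  push_cast
  ring

theorem hF_pi' (s ρ : ℝ) :
    hF s 0 (ρ + -(Real.pi * I)) = exp (-(s * (Real.pi * I))) * (gs s ρ : ℂ) := by
  unfold hF gs
  rw [exp_pi', ofReal_exp, ← exp_add]
  congr 1
  push_cast
  ring

/-- the Hankel integral over the contour shifted to the left -/
theorem Hk_shift (s : ℝ) {R : ℝ} (hR : 0 < R) :
    Hk s 0 = (exp (s * (Real.pi * I)) - exp (-(s * (Real.pi * I)))) *
      (((∫ ρ in (0 : ℝ)..R, gs s (ρ - R)) + ∫ ρ in Ioi (0 : ℝ), gs s ρ : ℝ) : ℂ) +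
      ∫ θ in (-Real.pi)..Real.pi, hF s 0 (-R + θ * I) * I := by
  have hd : DifferentiableOn ℂ (hF s 0) univ := fun y _ =>
    (hF_deriv s y).differentiableAt.differentiableWithinAt
  obtain ⟨hadd, -⟩ := t_SEG univ (hF s 0) isOpen_univ convex_univ hd
  have a1 := hadd (-(Real.pi * I)) trivial (-R + -(Real.pi * I)) trivial (-R + Real.pi * I) trivial
  have a2 := hadd (-(Real.pi * I)) trivial (-R + Real.pi * I) trivial (Real.pi * I) trivial
  -- the left arc
  have b1 : seg (hF s 0) (-R + -(Real.pi * I)) (-R + Real.pi * I) =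
      ∫ θ in (-Real.pi)..Real.pi, hF s 0 (-R + θ * I) * I := by
    have h1 := seg_arc (fun y => hF s 0 (-R + y))
    rw [← h1]
    unfold seg
    refine intervalIntegral.integral_congr fun t _ => ?_
    have e1 : (-R + -(Real.pi * I) + t * (-R + Real.pi * I - (-R + -(Real.pi * I))) : ℂ) =
        -R + (-(Real.pi * I) + t * (Real.pi * I - -(Real.pi * I))) := by ring
    have e2 : (-R + Real.pi * I - (-R + -(Real.pi * I)) : ℂ) = Real.pi * I - -(Real.pi * I) := by
      ring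
    simp only
    rw [e1, e2]
  -- the horizontal segments
  have b2 : ∀ c : ℂ, seg (hF s 0) (-R + c) c = ∫ ρ in (0 : ℝ)..R, hF s 0 (((ρ - R : ℝ) : ℂ) + c) := by
    intro c
    have h1 := seg_ray (hF s 0) R hR (-R + c)
    have e1 : (R + (-R + c) : ℂ) = c := by ring
    rw [e1] at h1
    rw [h1]
    refine intervalIntegral.integral_congr fun ρ _ => ?_
    show hF s 0 _ = hF s 0 _
    congr 1
    push_cast
    ring
  have b3 : seg (hF s 0) (-R + Real.pi * I) (Real.pi * I) =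
      exp (s * (Real.pi * I)) * ((∫ ρ in (0 : ℝ)..R, gs s (ρ - R) : ℝ) : ℂ) := by
    rw [b2, ← intervalIntegral.integral_ofReal, ← intervalIntegral.integral_const_mul]
    refine intervalIntegral.integral_congr fun ρ _ => ?_
    exact hF_pi s (ρ - R)
  have b4 : seg (hF s 0) (-(Real.pi * I)) (-R + -(Real.pi * I)) =
      -(exp (-(s * (Real.pi * I))) * ((∫ ρ in (0 : ℝ)..R, gs s (ρ - R) : ℝ) : ℂ)) := by
    rw [seg_symm, b2, ← intervalIntegral.integral_ofReal, ← intervalIntegral.integral_const_mul]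
    congr 1
    refine intervalIntegral.integral_congr fun ρ _ => ?_
    exact hF_pi' s (ρ - R)
  have r1 : (∫ ρ in Ioi (0 : ℝ), hF s 0 (ρ + Real.pi * I)) =
      exp (s * (Real.pi * I)) * ((∫ ρ in Ioi (0 : ℝ), gs s ρ : ℝ) : ℂ) := by
    have h : (∫ ρ in Ioi (0 : ℝ), ((gs s ρ : ℝ) : ℂ)) = ((∫ ρ in Ioi (0 : ℝ), gs s ρ : ℝ) : ℂ) :=
      integral_ofReal
    rw [← h, ← integral_const_mul]
    refine integral_congr_ae (Eventually.of_forall fun ρ => ?_)
    exact hF_pi s ρ
  have r2 : (∫ ρ in Ioi (0 : ℝ), hF s 0 (ρ + -(Real.pi * I))) =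
      exp (-(s * (Real.pi * I))) * ((∫ ρ in Ioi (0 : ℝ), gs s ρ : ℝ) : ℂ) := by
    have h : (∫ ρ in Ioi (0 : ℝ), ((gs s ρ : ℝ) : ℂ)) = ((∫ ρ in Ioi (0 : ℝ), gs s ρ : ℝ) : ℂ) :=
      integral_ofReal
    rw [← h, ← integral_const_mul]
    refine integral_congr_ae (Eventually.of_forall fun ρ => ?_)
    exact hF_pi' s ρ
  unfold Hk
  rw [← seg_arc, ← a2, ← a1, b1, b3, b4, r1, r2]
  push_cast
  ring

/-- **The first coefficient does not vanish.** -/
theorem Hk_ne {s : ℝ} (hs0 : 0 < s) (hs : ∀ m : ℤ, s ≠ m) : Hk s 0 ≠ 0 := by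
  intro h0
  set D := exp (s * (Real.pi * I)) - exp (-(s * (Real.pi * I))) with hD
  have hDne : D ≠ 0 := pm_ne hs
  set I0 := ∫ ρ in Ioi (0 : ℝ), gs s ρ with hI0
  have hI0pos : 0 < I0 := by
    rw [hI0, setIntegral_pos_iff_support_of_nonneg_ae (Eventually.of_forall fun ρ =>
      (gs_pos s ρ).le) (gs_int s)]
    have : Function.support (gs s) = univ := by
      ext ρ
      simp [(gs_pos s ρ).ne']
    rw [this, univ_inter]
    simp
  have hb : ∀ R : ℝ, 0 < R → ‖D‖ * I0 ≤ 2 * Real.pi * (Real.exp 1 * Real.exp (-(s * R))) := by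
    intro R hR
    have h1 := Hk_shift s hR
    rw [h0, ← hD, ← hI0] at h1
    set J := ∫ ρ in (0 : ℝ)..R, gs s (ρ - R) with hJ
    have hJ0 : 0 ≤ J := intervalIntegral.integral_nonneg hR.le fun ρ _ => (gs_pos s _).le
    have h2 : ‖D * ((J + I0 : ℝ) : ℂ)‖ ≤ (Real.exp 1 * Real.exp (-(s * R))) *
        |Real.pi - -Real.pi| := by
      have h3 : D * ((J + I0 : ℝ) : ℂ) = -∫ θ in (-Real.pi)..Real.pi, hF s 0 (-R + θ * I) * I := by
        linear_combination -h1
      rw [h3, norm_neg]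
      refine intervalIntegral.norm_integral_le_of_norm_le_const fun θ _ => ?_
      rw [norm_mul, norm_I, mul_one]
      unfold hF
      rw [norm_exp, ← Real.exp_add]
      refine Real.exp_le_exp.2 ?_
      rw [zero_mul, sub_zero, add_re]
      have h4 : ((s : ℂ) * (-R + θ * I)).re = -(s * R) := by
        rw [re_ofReal_mul, add_re, neg_re, ofReal_re]
        simp
      have h5 := re_le_norm (exp (-R + θ * I))
      have h6 : ‖exp (-R + θ * I)‖ ≤ 1 := by
        rw [norm_exp, add_re, neg_re, ofReal_re]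
        have : ((θ : ℂ) * I).re = 0 := by simp
        rw [this, add_zero]
        exact Real.exp_le_one_iff.2 (by linarith)
      rw [h4]
      linarith
    rw [norm_mul, norm_real, Real.norm_of_nonneg (by linarith), sub_neg_eq_add,
      abs_of_pos (by positivity)] at h2
    calc ‖D‖ * I0 ≤ ‖D‖ * (J + I0) := by
          refine mul_le_mul_of_nonneg_left ?_ (norm_nonneg _)
          linarith
      _ ≤ _ := h2
      _ = _ := by ring
  have hlim : Tendsto (fun R : ℝ => 2 * Real.pi * (Real.exp 1 * Real.exp (-(s * R)))) atTop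
      (𝓝 (2 * Real.pi * (Real.exp 1 * 0))) := by
    refine (Tendsto.const_mul _ ?_).const_mul _
    refine Real.tendsto_exp_atBot.comp ?_
    exact tendsto_neg_atTop_atBot.comp (tendsto_id.const_mul_atTop hs0)
  rw [mul_zero, mul_zero] at hlim
  have h2 := ge_of_tendsto hlim (eventually_gt_atTop 0 |>.mono fun R hR => hb R hR)
  have h3 : 0 < ‖D‖ * I0 := mul_pos (norm_pos_iff.2 hDne) hI0pos
  linarith

/-! ### the Bessel functions -/

/-- the coefficient `∏ (j + 1 - ν)`, `j < k` -/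
noncomputable def poch (ν : ℝ) (k : ℕ) : ℂ := ∏ j ∈ Finset.range k, ((j : ℂ) + 1 - ν)

theorem Hk_down {ν : ℝ} (hν : ∀ m : ℤ, ν ≠ m) (k : ℕ) : Hk (ν - k) 0 = Hk ν 0 / poch ν k := by
  induction k with
  | zero =>
    unfold poch
    simp
  | succ k ih =>
    have h1 := Hk_rec (ν - (k + 1 : ℕ))
    have e1 : ν - ((k + 1 : ℕ) : ℝ) + 1 = ν - k := by push_cast; ring
    rw [e1, ih] at h1
    have h2 : ((k : ℂ) + 1 - ν) ≠ 0 := by
      intro h
      have h3 : (ν : ℂ) = ((k + 1 : ℕ) : ℂ) := by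
        push_cast
        linear_combination -h
      have h4 : ν = ((k + 1 : ℕ) : ℝ) := by exact_mod_cast h3
      exact hν ((k + 1 : ℕ) : ℤ) (by rw [h4]; norm_cast)
    have h3 : poch ν (k + 1) = poch ν k * ((k : ℂ) + 1 - ν) := by
      unfold poch
      rw [Finset.prod_range_succ]
    rw [h3, ← div_div, h1, eq_div_iff h2]
    push_cast
    ring

/-- **The second Bessel function.** -/
theorem bessel_of_Hk {ν : ℝ} (hν0 : 0 < ν) (hν : ∀ m : ℤ, ν ≠ m) {κ : ℂ} (h : Hk ν κ = 0) :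
    ∑' k : ℕ, (-κ) ^ k / ((k.factorial : ℂ) * poch ν k) = 0 := by
  have h1 := Hk_hasSum ν κ
  rw [h] at h1
  have h2 := h1.mul_left (Hk ν 0)⁻¹
  rw [mul_zero] at h2
  have hne := Hk_ne hν0 hν
  refine (h2.congr_fun fun k => ?_).tsum_eq
  rw [Hk_down hν]
  field_simp

/-- **The first Bessel function.** -/
theorem bessel_one {κ : ℂ} (hκ : κ ≠ 0) (h : Hk 1 κ = 0) : Bn 1 κ = 0 := by
  have hexp : ∀ ρ : ℝ, hF 1 κ (ρ + Real.pi * I) = hF 1 κ (ρ + -(Real.pi * I)) := by
    intro ρ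
    unfold hF
    have h1 : ∀ c : ℂ, exp (exp (ρ + c) - κ * exp (-(ρ + c)) + ((1 : ℝ) : ℂ) * (ρ + c)) =
        exp (exp (ρ + c) - κ * (exp (ρ + c))⁻¹) * exp (ρ + c) := by
      intro c
      rw [← exp_neg, ← exp_add]
      congr 1
      push_cast
      ring
    rw [h1, h1, exp_pi, exp_pi']
  unfold Hk at h
  simp only [hexp] at h
  rw [add_sub_cancel_right] at h
  have h2 : ∮ ω in C(0, 1), exp (1 * ω + (-κ) / ω) * ω ^ 0 * deriv (fun ω => ω) ω = 0 := by
    have hper : Function.Periodic (fun θ : ℝ => hF 1 κ (θ * I) * I) (2 * Real.pi) := by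
      intro θ
      have h3 : hF 1 κ (((θ + 2 * Real.pi : ℝ) : ℂ) * I) = hF 1 κ (θ * I) := by
        unfold hF
        have h4 : ∀ y : ℂ, exp (exp y - κ * exp (-y) + ((1 : ℝ) : ℂ) * y) =
            exp (exp y - κ * (exp y)⁻¹) * exp y := by
          intro y
          rw [← exp_neg, ← exp_add]
          congr 1
          push_cast
          ring
        rw [h4, h4]
        have h5 : exp (((θ + 2 * Real.pi : ℝ) : ℂ) * I) = exp (θ * I) := by
          push_cast
          rw [add_mul]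
          exact exp_periodic _
        rw [h5]
      simp only [h3]
    have h4 := hper.intervalIntegral_add_eq (-Real.pi) 0
    rw [zero_add, show -Real.pi + 2 * Real.pi = Real.pi by ring, h] at h4
    refine Eq.trans ?_ h4.symm
    unfold circleIntegral
    refine intervalIntegral.integral_congr fun θ _ => ?_
    have h6 : ∀ y : ℂ, exp (exp y - κ * exp (-y) + ((1 : ℝ) : ℂ) * y) =
        exp (exp y + -κ / exp y) * exp y := by
      intro y
      rw [← exp_add]
      congr 1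
      rw [neg_div, div_eq_mul_inv, ← exp_neg]
      push_cast
      ring
    have h7 : circleMap 0 1 θ = exp (θ * I) := by
      unfold circleMap
      simp
    have h8 : deriv (circleMap 0 1) θ = exp (θ * I) * I := by
      rw [deriv_circleMap, h7]
    have h9 : deriv (fun ω : ℂ => ω) (circleMap 0 1 θ) = 1 := by simp
    show deriv (circleMap 0 1) θ • (exp (1 * circleMap 0 1 θ + (-κ) / circleMap 0 1 θ) *
      circleMap 0 1 θ ^ 0 * deriv (fun ω : ℂ => ω) (circleMap 0 1 θ)) = hF 1 κ (θ * I) * I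
    rw [h9, h8, h7, smul_eq_mul, pow_zero, one_mul, mul_one, mul_one]
    unfold hF
    rw [h6]
    ring
  have h3 := Pool.Agent.Y427.SC.sima 1 2 0 (fun ω => ω) 1 (-κ) 0 one_pos one_lt_two
    differentiableOn_id rfl (by simp) (fun ω _ h => h)
  rw [h2] at h3
  have h4 : (2 * Real.pi * I * (-κ) ^ (0 + 1) : ℂ) ≠ 0 := by
    rw [zero_add, pow_one]
    exact mul_ne_zero two_pi_I_ne_zero (neg_ne_zero.2 hκ)
  have h5 := (mul_eq_zero.1 h3.symm).resolve_left h4
  rw [one_mul, neg_neg, zero_add] at h5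
  exact h5

end Pool.Agent.E8helper32.SA
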