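import Pool.Agent.E8helper32.SA.Df

/-!
# Laplace's method with dominated convergence
-/

set_option autoImplicit false

open Complex MeasureTheory Metric Set Filter Topology ComplexConjugate

namespace Pool.Agent.E8helper32.SA

/-- **Laplace's method.** -/
theorem lap {H : ℝ → ℝ → ℂ} {m c : ℝ} (hc : 0 < c)
    (hcont : ∀ᶠ r in atTop, ContinuousOn (H r) (Icc (-Real.pi) Real.pi))
    (hdom : ∀ᶠ r in atTop, ∀ θ ∈ Icc (-Real.pi) Real.pi, (H r θ).re ≤ -(c * r * θ ^ 2))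
    (hlim : ∀ u : ℝ, Tendsto (fun r => H r (u / √r)) atTop (𝓝 ((-(m * u ^ 2) : ℝ) : ℂ))) :
    Tendsto (fun r => (√r : ℂ) * ∫ θ in (-Real.pi)..Real.pi, exp (H r θ) * exp (θ * I)) atTop
      (𝓝 (∫ u : ℝ, exp ((-(m * u ^ 2) : ℝ) : ℂ))) := by
  have hπ := Real.pi_pos
  have hev : ∀ᶠ r : ℝ in atTop, (∫ u : ℝ, (Ioc (-Real.pi * √r) (Real.pi * √r)).indicator
      (fun u => exp (H r (u / √r)) * exp ((u / √r : ℝ) * I)) u) =
      (√r : ℂ) * ∫ θ in (-Real.pi)..Real.pi, exp (H r θ) * exp (θ * I) := by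
    filter_upwards [eventually_gt_atTop 0] with r hr
    have hs : 0 < √r := Real.sqrt_pos.2 hr
    rw [integral_indicator measurableSet_Ioc, ← intervalIntegral.integral_of_le (by nlinarith)]
    have h1 := intervalIntegral.integral_comp_div (a := -Real.pi * √r) (b := Real.pi * √r)
      (fun θ : ℝ => exp (H r θ) * exp (θ * I)) hs.ne'
    rw [h1, mul_div_cancel_right₀ _ hs.ne', mul_div_cancel_right₀ _ hs.ne', real_smul]
  refine Tendsto.congr' hev ?_
  have hinv : Tendsto (fun r : ℝ => (√r)⁻¹) atTop (𝓝 0) :=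
    tendsto_inv_atTop_zero.comp Real.tendsto_sqrt_atTop
  refine tendsto_integral_filter_of_dominated_convergence (fun u => Real.exp (-c * u ^ 2)) ?_ ?_
    (integrable_exp_neg_mul_sq hc) ?_
  · filter_upwards [hcont, eventually_gt_atTop 0] with r h1 hr
    have hs : 0 < √r := Real.sqrt_pos.2 hr
    refine (aestronglyMeasurable_indicator_iff measurableSet_Ioc).2 ?_
    refine ContinuousOn.aestronglyMeasurable ?_ measurableSet_Ioc
    have h2 : ContinuousOn (fun u : ℝ => H r (u / √r)) (Ioc (-Real.pi * √r) (Real.pi * √r)) := by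
      refine h1.comp (continuous_id.div_const _).continuousOn fun u hu => ?_
      constructor
      · rw [le_div_iff₀ hs]; exact hu.1.le
      · rw [div_le_iff₀ hs]; exact hu.2
    refine h2.cexp.mul ?_
    exact (Continuous.cexp ((continuous_ofReal.comp (continuous_id.div_const _)).mul
      continuous_const)).continuousOn
  · filter_upwards [hdom, eventually_gt_atTop 0] with r h1 hr
    have hs : 0 < √r := Real.sqrt_pos.2 hr
    refine Eventually.of_forall fun u => ?_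
    by_cases hu : u ∈ Ioc (-Real.pi * √r) (Real.pi * √r)
    · rw [indicator_of_mem hu, norm_mul, norm_exp_ofReal_mul_I, mul_one, norm_exp]
      refine Real.exp_le_exp.2 ?_
      refine (h1 (u / √r) ⟨?_, ?_⟩).trans (le_of_eq ?_)
      · rw [le_div_iff₀ hs]; exact hu.1.le
      · rw [div_le_iff₀ hs]; exact hu.2
      · rw [div_pow, Real.sq_sqrt hr.le]
        field_simp
    · rw [indicator_of_notMem hu, norm_zero]
      exact (Real.exp_pos _).le
  · refine Eventually.of_forall fun u => ?_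
    have h1 : Tendsto (fun r : ℝ => exp (H r (u / √r)) * exp ((u / √r : ℝ) * I)) atTop
        (𝓝 (exp ((-(m * u ^ 2) : ℝ) : ℂ) * exp (((0 : ℝ) : ℂ) * I))) := by
      refine ((continuous_exp.tendsto _).comp (hlim u)).mul ?_
      refine (continuous_exp.tendsto _).comp (Tendsto.mul_const _ ?_)
      refine (continuous_ofReal.tendsto _).comp ?_
      have := hinv.const_mul u
      rw [mul_zero] at this
      exact this
    rw [ofReal_zero, zero_mul, exp_zero, mul_one] at h1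
    refine h1.congr' ?_
    filter_upwards [Real.tendsto_sqrt_atTop.eventually_gt_atTop |u|] with r hr
    rw [indicator_of_mem]
    have h2 := Real.pi_gt_three
    have h3 := abs_nonneg u
    have h4 := neg_abs_le u
    have h5 := le_abs_self u
    constructor <;> nlinarith

theorem gauss_ne {m : ℝ} (hm : 0 < m) : ∫ u : ℝ, exp ((-(m * u ^ 2) : ℝ) : ℂ) ≠ 0 := by
  have h1 := integral_gaussian_complex (b := (m : ℂ)) (by rwa [ofReal_re])
  have h2 : (∫ u : ℝ, exp ((-(m * u ^ 2) : ℝ) : ℂ)) = ∫ u : ℝ, exp (-(m : ℂ) * u ^ 2) := by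
    congr 1
    funext u
    congr 1
    push_cast
    ring
  rw [h2, h1, ne_eq, cpow_eq_zero_iff]
  rintro ⟨h3, -⟩
  rcases div_eq_zero_iff.1 h3 with h4 | h4
  · exact Real.pi_ne_zero (by exact_mod_cast h4)
  · exact hm.ne' (by exact_mod_cast h4)

/-- quadratic estimate -/
theorem quad {f : ℂ → ℂ} {M : ℝ} (hf : DifferentiableOn ℂ f (ball 0 6))
    (hM : ∀ y ∈ ball (0 : ℂ) 6, ‖f y‖ ≤ M) (h0 : deriv f 0 = 0) {y : ℂ} (hy : ‖y‖ < 4) :
    ‖f y - f 0‖ ≤ M * ‖y‖ ^ 2 := by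
  have hM0 : 0 ≤ M := (norm_nonneg _).trans (hM 0 (mem_ball_self (by norm_num)))
  have hcl : ∀ {ρ : ℝ} {z : ℂ}, z ∈ ball (0 : ℂ) ρ → closedBall z 1 ⊆ ball 0 (ρ + 1) := by
    intro ρ z hz w hw
    rw [mem_ball_zero_iff] at hz ⊢
    rw [mem_closedBall, dist_eq_norm] at hw
    calc ‖w‖ = ‖(w - z) + z‖ := by rw [sub_add_cancel]
      _ ≤ ‖w - z‖ + ‖z‖ := norm_add_le _ _
      _ < ρ + 1 := by linarith
  have h1 : ∀ z ∈ ball (0 : ℂ) 5, ‖deriv f z‖ ≤ M := by
    intro z hz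
    have hsub : closedBall z 1 ⊆ ball (0 : ℂ) 6 := by
      have := hcl hz; norm_num at this; exact this
    have := norm_deriv_le_of_forall_mem_sphere_norm_le (c := z) (R := 1) (C := M) one_pos
      ((hf.mono hsub).diffContOnCl_ball subset_rfl)
      fun w hw => hM w (hsub (sphere_subset_closedBall hw))
    rwa [div_one] at this
  have hd1 : DifferentiableOn ℂ (deriv f) (ball 0 5) :=
    (hf.deriv isOpen_ball).mono (ball_subset_ball (by norm_num))
  have h2 : ∀ z ∈ ball (0 : ℂ) 4, ‖deriv (deriv f) z‖ ≤ M := by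
    intro z hz
    have hsub : closedBall z 1 ⊆ ball (0 : ℂ) 5 := by
      have := hcl hz; norm_num at this; exact this
    have := norm_deriv_le_of_forall_mem_sphere_norm_le (c := z) (R := 1) (C := M) one_pos
      ((hd1.mono hsub).diffContOnCl_ball subset_rfl)
      fun w hw => h1 w (hsub (sphere_subset_closedBall hw))
    rwa [div_one] at this
  have h3 : ∀ z ∈ ball (0 : ℂ) 4, ‖deriv f z‖ ≤ M * ‖z‖ := by
    intro z hz
    have := (convex_ball (0 : ℂ) 4).norm_image_sub_le_of_norm_deriv_le (f := deriv f) (C := M)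
      (fun w hw => hd1.differentiableAt (isOpen_ball.mem_nhds
        (ball_subset_ball (by norm_num : (4 : ℝ) ≤ 5) hw))) h2
      (mem_ball_self (by norm_num)) hz
    rwa [h0, sub_zero, sub_zero] at this
  have h4 := (convex_closedBall (0 : ℂ) ‖y‖).norm_image_sub_le_of_norm_deriv_le (f := f)
    (C := M * ‖y‖) (x := 0) (y := y)
    (fun w hw => hf.differentiableAt (isOpen_ball.mem_nhds (by
      rw [mem_closedBall_zero_iff] at hw
      rw [mem_ball_zero_iff]; linarith)))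
    (fun w hw => by
      rw [mem_closedBall_zero_iff] at hw
      refine (h3 w (by rw [mem_ball_zero_iff]; linarith)).trans ?_
      gcongr)
    (mem_closedBall_self (norm_nonneg _)) (by rw [mem_closedBall_zero_iff])
  rw [sub_zero] at h4
  calc ‖f y - f 0‖ ≤ M * ‖y‖ * ‖y‖ := h4
    _ = M * ‖y‖ ^ 2 := by ring

/-- third order Taylor estimate -/
theorem exp_three_bd (z : ℂ) : ‖exp z - 1 - z - z ^ 2 / 2‖ ≤ ‖z‖ ^ 3 * Real.exp ‖z‖ := by
  have := norm_exp_sub_sum_le_norm_mul_exp z 3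
  rw [Finset.sum_range_succ, Finset.sum_range_succ, Finset.sum_range_one] at this
  have e : exp z - 1 - z - z ^ 2 / 2 =
      exp z - (z ^ 0 / (Nat.factorial 0 : ℂ) + z ^ 1 / (Nat.factorial 1 : ℂ) +
        z ^ 2 / (Nat.factorial 2 : ℂ)) := by
    norm_num [Nat.factorial]
    ring
  rw [e]
  exact this

/-- the limit phase on the arc -/
noncomputable def gm (μ θ : ℝ) : ℂ := (exp (θ * I) - 1) + (exp (-(μ * (θ * I))) - 1) / μ

theorem gm_re {μ : ℝ} (hμ : 0 < μ) {θ : ℝ} (hθ : θ ∈ Icc (-Real.pi) Real.pi) :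
    (gm μ θ).re ≤ -(2 / Real.pi ^ 2 * θ ^ 2) := by
  have h1 : (exp (θ * I) - 1 : ℂ).re = Real.cos θ - 1 := by
    rw [sub_re, one_re, exp_ofReal_mul_I_re]
  have h2 : ((exp (-(μ * (θ * I))) - 1) / μ : ℂ).re = (Real.cos (-(μ * θ)) - 1) / μ := by
    rw [div_ofReal_re, sub_re, one_re]
    have : (-(μ * (θ * I)) : ℂ) = ((-(μ * θ) : ℝ) : ℂ) * I := by push_cast; ring
    rw [this, exp_ofReal_mul_I_re]
  unfold gm
  rw [add_re, h1, h2]
  have h3 := Real.cos_le_one_sub_mul_cos_sq (abs_le.2 ⟨hθ.1, hθ.2⟩)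
  have h4 : (Real.cos (-(μ * θ)) - 1) / μ ≤ 0 :=
    div_nonpos_of_nonpos_of_nonneg (by linarith [Real.cos_le_one (-(μ * θ))]) hμ.le
  linarith

theorem gm_norm {μ : ℝ} (hμ : 0 < μ) : ∃ C : ℝ, ∀ θ ∈ Icc (-Real.pi) Real.pi,
    ‖gm μ θ‖ ≤ C * θ ^ 2 := by
  refine ⟨Real.exp Real.pi + μ * Real.exp (μ * Real.pi), fun θ hθ => ?_⟩
  have habs : |θ| ≤ Real.pi := abs_le.2 ⟨hθ.1, hθ.2⟩
  have e : gm μ θ = (exp (θ * I) - 1 - θ * I) +
      (exp (-(μ * (θ * I))) - 1 - -(μ * (θ * I))) / μ := by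
    unfold gm
    have hμc : (μ : ℂ) ≠ 0 := ofReal_ne_zero.2 hμ.ne'
    field_simp
    ring
  have h1 := exp_two_bd (θ * I)
  have h2 := exp_two_bd (-(μ * (θ * I)))
  have n1 : ‖(θ * I : ℂ)‖ = |θ| := by rw [norm_mul, norm_I, mul_one, norm_real, Real.norm_eq_abs]
  have n2 : ‖(-(μ * (θ * I)) : ℂ)‖ = μ * |θ| := by
    rw [norm_neg, norm_mul, n1, norm_real, Real.norm_of_nonneg hμ.le]
  rw [n1] at h1
  rw [n2] at h2
  rw [e]
  refine (norm_add_le _ _).trans ?_
  rw [norm_div, norm_real, Real.norm_of_nonneg hμ.le, add_mul]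
  refine add_le_add ?_ ?_
  · refine h1.trans ?_
    rw [sq_abs, mul_comm]
    gcongr
  · rw [div_le_iff₀ hμ]
    refine h2.trans ?_
    rw [mul_pow, sq_abs]
    calc μ ^ 2 * θ ^ 2 * Real.exp (μ * |θ|) ≤ μ ^ 2 * θ ^ 2 * Real.exp (μ * Real.pi) := by gcongr
      _ = _ := by ring

/-- second order expansion of the limit phase -/
theorem gm_lim {μ : ℝ} (hμ : 0 < μ) (u : ℝ) :
    Tendsto (fun r : ℝ => (r : ℂ) * gm μ (u / √r)) atTop
      (𝓝 ((-((1 + μ) / 2 * u ^ 2) : ℝ) : ℂ)) := by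
  have hinv : Tendsto (fun r : ℝ => u / √r) atTop (𝓝 0) := by
    have := (tendsto_inv_atTop_zero.comp Real.tendsto_sqrt_atTop).const_mul u
    rw [mul_zero] at this
    exact this
  have hμc : (μ : ℂ) ≠ 0 := ofReal_ne_zero.2 hμ.ne'
  -- the remainders
  have hrem : ∀ b : ℂ, Tendsto (fun r : ℝ => (r : ℂ) * (exp (b * ((u / √r : ℝ) : ℂ)) - 1 -
      b * ((u / √r : ℝ) : ℂ) - (b * ((u / √r : ℝ) : ℂ)) ^ 2 / 2)) atTop (𝓝 0) := by
    intro b
    have hl : Tendsto (fun r : ℝ => ‖b‖ ^ 3 * u ^ 2 * (|u / √r| *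
        Real.exp (‖b‖ * |u / √r|))) atTop
        (𝓝 (‖b‖ ^ 3 * u ^ 2 * (|0| * Real.exp (‖b‖ * |0|)))) := by
      refine Tendsto.const_mul _ (hinv.abs.mul ?_)
      exact (Real.continuous_exp.tendsto _).comp (hinv.abs.const_mul _)
    rw [abs_zero, zero_mul, mul_zero] at hl
    refine squeeze_zero_norm' ?_ hl
    filter_upwards [eventually_gt_atTop 0] with r hr
    rw [norm_mul, norm_real, Real.norm_of_nonneg hr.le]
    have h1 := exp_three_bd (b * ((u / √r : ℝ) : ℂ))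
    rw [norm_mul, norm_real, Real.norm_eq_abs] at h1
    have h2 : r * |u / √r| ^ 2 = u ^ 2 := by
      rw [sq_abs, div_pow, Real.sq_sqrt hr.le]
      field_simp
    calc r * ‖exp (b * ((u / √r : ℝ) : ℂ)) - 1 - b * ((u / √r : ℝ) : ℂ) -
          (b * ((u / √r : ℝ) : ℂ)) ^ 2 / 2‖
        ≤ r * ((‖b‖ * |u / √r|) ^ 3 * Real.exp (‖b‖ * |u / √r|)) := by gcongr
      _ = ‖b‖ ^ 3 * (r * |u / √r| ^ 2) * (|u / √r| * Real.exp (‖b‖ * |u / √r|)) := by ring
      _ = _ := by rw [h2]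
  have h1 := (hrem I).add ((hrem (-(μ * I))).div_const (μ : ℂ))
  rw [zero_div, add_zero] at h1
  have h2 := h1.add (tendsto_const_nhds (x := ((-((1 + μ) / 2 * u ^ 2) : ℝ) : ℂ)))
  rw [zero_add] at h2
  refine h2.congr' ?_
  filter_upwards [eventually_gt_atTop 0] with r hr
  have h3 : (r : ℂ) * ((u / √r : ℝ) : ℂ) ^ 2 = u ^ 2 := by
    rw [← ofReal_pow, ← ofReal_mul, div_pow, Real.sq_sqrt hr.le]
    rw [← ofReal_pow]
    congr 1
    field_simp
  unfold gm
  have e1 : exp (-(μ * (((u / √r : ℝ) : ℂ) * I))) = exp (-(μ * I) * ((u / √r : ℝ) : ℂ)) := by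
    congr 1; ring
  have e2 : exp (((u / √r : ℝ) : ℂ) * I) = exp (I * ((u / √r : ℝ) : ℂ)) := by
    congr 1; ring
  rw [e1, e2]
  generalize exp (-(μ * I) * ((u / √r : ℝ) : ℂ)) = A at *
  generalize exp (I * ((u / √r : ℝ) : ℂ)) = B at *
  generalize ((u / √r : ℝ) : ℂ) = x at *
  have hI : (I : ℂ) ^ 2 = -1 := I_sq
  push_cast
  field_simp
  linear_combination (norm := skip) (μ * (1 + μ) : ℂ) * h3
  ring_nf
  rw [hI]
  ring

end Pool.Agent.E8helper32.SA
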