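import Pool.Agent.E8helper32.SA.Punct

/-!
# The Puiseux parametrization
-/

set_option autoImplicit false

open Complex Metric Set Filter Topology ComplexConjugate

namespace Pool.Agent.E8helper32.SA

open Pool.Agent.Results.MP_83fd13_an.BranchSingularities

variable {φ : ℂ → ℂ} {r : ℝ} {d : ℕ} {c : ℕ → ℂ → ℂ} {w1 : ℂ} {L : ℝ} {G : ℂ → ℂ} {q : ℕ}

/-- the function in the coordinate `t`, `w = w1 + t ^ q` -/
noncomputable def Xf (G : ℂ → ℂ) (q : ℕ) (t : ℂ) : ℂ := G (q * log t)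

/-- the radius -/
noncomputable def rad (L : ℝ) (q : ℕ) : ℝ := Real.exp (L / q)

theorem rad_pos : 0 < rad L q := Real.exp_pos _

theorem qlog_re (hq : 0 < q) {t : ℂ} (ht0 : t ≠ 0) (ht : ‖t‖ < rad L q) :
    ((q : ℂ) * log t).re < L := by
  rw [nat_mul_re, log_re]
  have h1 : 0 < ‖t‖ := norm_pos_iff.2 ht0
  have h2 : Real.log ‖t‖ < L / q := (Real.log_lt_iff_lt_exp h1).2 ht
  have hq' : (0 : ℝ) < q := Nat.cast_pos.2 hq
  rw [lt_div_iff₀ hq'] at h2
  linarith

theorem exp_qlog {t : ℂ} (ht0 : t ≠ 0) : exp ((q : ℂ) * log t) = t ^ q := by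
  rw [exp_nat_mul, exp_log ht0]

/-- the period property -/
def IsPer (L : ℝ) (G : ℂ → ℂ) (q : ℕ) : Prop := ∀ τ : ℂ, τ.re < L → G (τ + per q) = G τ

theorem Xf_diff (h : PG φ r d c w1 L G) (hq : 0 < q) (hper : IsPer L G q) {t : ℂ} (ht0 : t ≠ 0)
    (ht : ‖t‖ < rad L q) : DifferentiableAt ℂ (Xf G q) t :=
  log_lift (J := Iio L) isOpen_Iio h.hG hper ht0 (qlog_re hq ht0 ht)

theorem Xf_eq (hper : IsPer L G q) {a t : ℂ} (ha : exp a = t)
    (hre : ((q : ℂ) * a).re < L) : Xf G q t = G (q * a) := by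
  unfold Xf
  refine log_eq (J := Iio L) hper ?_ hre
  rw [ha, exp_log (by rw [← ha]; exact exp_ne_zero _)]

theorem Xf_rel (h : PG φ r d c w1 L G) (hq : 0 < q) {t : ℂ} (ht0 : t ≠ 0)
    (ht : ‖t‖ < rad L q) :
    ∑ k ∈ Finset.range (d + 1), Cf φ c k (w1 + t ^ q) * Xf G q t ^ k = 0 := by
  have h1 := h.rel (qlog_re hq ht0 ht)
  rwa [exp_qlog ht0] at h1

theorem Xf_ne (h : PG φ r d c w1 L G) (hq : 0 < q) {t : ℂ} (ht0 : t ≠ 0)
    (ht : ‖t‖ < rad L q) : Cf φ c d (w1 + t ^ q) ≠ 0 := by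
  have h1 := h.ne (qlog_re hq ht0 ht)
  rwa [exp_qlog ht0] at h1

theorem w1_norm (h : PG φ r d c w1 L G) : 1 < ‖w1‖ :=
  h.hL.h1 w1 (mem_ball_self (by positivity))

theorem pow_tendsto (hq : 0 < q) (w1 : ℂ) : Tendsto (fun t : ℂ => w1 + t ^ q) (𝓝 0) (𝓝 w1) := by
  have h1 : ContinuousAt (fun t : ℂ => w1 + t ^ q) 0 :=
    continuousAt_const.add (continuousAt_id.pow q)
  have h2 := h1.tendsto
  simp only [ne_eq, hq.ne', not_false_eq_true, zero_pow, add_zero] at h2
  exact h2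

/-- `X` is meromorphic at `0` -/
theorem Xf_mero (h : PG φ r d c w1 L G) (hq : 0 < q) (hper : IsPer L G q) :
    MeromorphicAt (Xf G q) 0 := by
  have hw1 := w1_norm h
  obtain ⟨M, δ, hM, hδ, hb⟩ := Cf_bdd h.hD hw1
  have hev : ∀ᶠ t in 𝓝 (0 : ℂ), w1 + t ^ q ∈ ball w1 δ ∧ 1 < ‖w1 + t ^ q‖ :=
    (pow_tendsto hq w1).eventually ((isOpen_ball.eventually_mem (mem_ball_self hδ)).and
      (continuous_norm.continuousAt.eventually (lt_mem_nhds hw1)))
  obtain ⟨ε, hε, hball⟩ := Metric.eventually_nhds_iff_ball.1 hev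
  set δ1 := min ε (rad L q) with hδ1
  have hδ1pos : 0 < δ1 := lt_min hε rad_pos
  have hCd : ∀ t ∈ ball (0 : ℂ) δ1, DifferentiableAt ℂ (fun t => Cf φ c d (w1 + t ^ q)) t := by
    intro t ht
    have h1 : DifferentiableAt ℂ (Cf φ c d) (w1 + t ^ q) :=
      Cf_diff' h.hD le_rfl (hball t (ball_subset_ball (min_le_left _ _) ht)).2
    have h2 : DifferentiableAt ℂ (fun t : ℂ => w1 + t ^ q) t :=
      (differentiableAt_const _).add (differentiableAt_fun_id.pow q)
    exact DifferentiableAt.comp (g := Cf φ c d) (f := fun t : ℂ => w1 + t ^ q) t h1 h2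
  have hCan : AnalyticAt ℂ (fun t => Cf φ c d (w1 + t ^ q)) 0 := by
    refine DifferentiableOn.analyticAt (s := ball 0 δ1) ?_ (ball_mem_nhds _ hδ1pos)
    exact fun t ht => (hCd t ht).differentiableWithinAt
  set H : ℂ → ℂ := fun t => Cf φ c d (w1 + t ^ q) * Xf G q t with hH
  have hHd : DifferentiableOn ℂ H (ball 0 δ1 \ {0}) := by
    rintro t ⟨ht, ht0⟩
    have ht' : ‖t‖ < rad L q := by
      rw [← mem_ball_zero_iff]; exact ball_subset_ball (min_le_right _ _) ht
    exact ((hCd t ht).mul (Xf_diff h hq hper ht0 ht')).differentiableWithinAt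
  have hHb : BddAbove (norm ∘ H '' (ball 0 δ1 \ {0})) := by
    refine ⟨M, ?_⟩
    rintro _ ⟨t, ⟨ht, ht0⟩, rfl⟩
    have ht' : ‖t‖ < rad L q := by
      rw [← mem_ball_zero_iff]; exact ball_subset_ball (min_le_right _ _) ht
    have h1 := root_bound (fun k => Cf φ c k (w1 + t ^ q)) (Xf G q t) (Xf_rel h hq ht0 ht')
    have h2 := hb _ (hball t (ball_subset_ball (min_le_left _ _) ht)).1
    simp only [Function.comp, hH, norm_mul]
    exact h1.trans h2
  have h3 := differentiableOn_update_limUnder_of_bddAbove (ball_mem_nhds (0 : ℂ) hδ1pos) hHd hHb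
  have h4 : MeromorphicAt H 0 := by
    refine (h3.analyticAt (ball_mem_nhds _ hδ1pos)).meromorphicAt.congr ?_
    filter_upwards [self_mem_nhdsWithin] with t ht
    exact Function.update_of_ne ht _ _
  refine (h4.div hCan.meromorphicAt).congr ?_
  have hb0 : ∀ᶠ t in 𝓝[≠] (0 : ℂ), t ∈ ball (0 : ℂ) δ1 :=
    eventually_nhdsWithin_of_eventually_nhds (isOpen_ball.eventually_mem (mem_ball_self hδ1pos))
  filter_upwards [self_mem_nhdsWithin, hb0] with t ht0 ht
  have ht' : ‖t‖ < rad L q := by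
    rw [← mem_ball_zero_iff]; exact ball_subset_ball (min_le_right _ _) ht
  have hne := Xf_ne h hq ht0 ht'
  simp only [Pi.div_apply, hH]
  rw [mul_div_cancel_left₀ _ hne]

/-- minimality of the period makes the parametrization injective -/
theorem Xf_ne_rot (h : PG φ r d c w1 L G) (hq : 0 < q) (hper : IsPer L G q)
    (hmin : ∀ m : ℕ, 0 < m → m < q → ¬ IsPer L G m) {ζ : ℂ} (hζ : ζ ^ q = 1) (hζ1 : ζ ≠ 1) :
    ∀ᶠ t in 𝓝[≠] (0 : ℂ), Xf G q t ≠ Xf G q (ζ * t) := by
  have hq0 : (q : ℂ) ≠ 0 := Nat.cast_ne_zero.2 hq.ne'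
  have hq0' : (0 : ℝ) < q := Nat.cast_pos.2 hq
  have : NeZero q := ⟨hq.ne'⟩
  have hζ0 : ζ ≠ 0 := by
    rintro rfl
    rw [zero_pow hq.ne'] at hζ
    exact zero_ne_one hζ
  have hm := Xf_mero h hq hper
  have hζa : AnalyticAt ℂ (fun t : ℂ => ζ * t) 0 := analyticAt_const.mul analyticAt_id
  have hm2 : MeromorphicAt (fun t => Xf G q (ζ * t)) 0 := by
    have hm' : MeromorphicAt (Xf G q) (ζ * 0) := by rwa [mul_zero]
    exact hm'.comp_analyticAt hζa
  rcases (hm.sub hm2).eventually_eq_zero_or_eventually_ne_zero with h1 | h1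
  · exfalso
    obtain ⟨j, hj, hje⟩ := (isPrimitiveRoot_exp q hq.ne').eq_pow_of_pow_eq_one hζ
    rw [← exp_nat_mul] at hje
    have hj0 : 0 < j := by
      rcases Nat.eq_zero_or_pos j with h0 | h0
      · subst h0
        rw [Nat.cast_zero, zero_mul, exp_zero] at hje
        exact absurd hje.symm hζ1
      · exact h0
    apply hmin j hj0 hj
    -- `G (τ + per j) = G τ` for `τ.re` very negative
    obtain ⟨ε, hε, h2⟩ := Metric.eventually_nhds_iff_ball.1 (eventually_nhdsWithin_iff.1 h1)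
    have hUo : IsOpen (re ⁻¹' Iio L : Set ℂ) := isOpen_Iio.preimage continuous_re
    have h3 : ∀ τ : ℂ, τ.re < L → τ.re < q * Real.log ε → G (τ + per j) = G τ := by
      intro τ hτ hτ2
      have ht : exp (τ / q) ∈ ball (0 : ℂ) ε := by
        rw [mem_ball_zero_iff, norm_exp, ← Real.lt_log_iff_exp_lt hε, ← ofReal_natCast, div_ofReal_re,
          div_lt_iff₀ hq0']
        linarith
      have h4 := h2 _ ht (exp_ne_zero _)
      simp only [Pi.sub_apply] at h4
      rw [sub_eq_zero] at h4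
      have h5 : Xf G q (exp (τ / q)) = G τ := by
        rw [Xf_eq hper rfl (by rwa [mul_div_cancel₀ _ hq0]), mul_div_cancel₀ _ hq0]
      have h6 : (q : ℂ) * (j * (2 * Real.pi * I / q) + τ / q) = τ + per j := by
        unfold per
        field_simp
        ring
      have h7 : Xf G q (ζ * exp (τ / q)) = G (τ + per j) := by
        rw [← hje, ← exp_add, Xf_eq hper rfl (by
          rw [h6, add_re, per_re, add_zero]; exact hτ), h6]
      rw [← h7, ← h4, h5]
    have hsh : DifferentiableOn ℂ (fun τ => G (τ + per j)) (re ⁻¹' Iio L) := by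
      intro τ hτ
      have h1 : τ + per j ∈ (re ⁻¹' Iio L : Set ℂ) := by
        rw [mem_preimage, add_re, per_re, add_zero]; exact hτ
      have h2 : DifferentiableAt ℂ G (τ + per j) := h.hG.differentiableAt (hUo.mem_nhds h1)
      have h3 : DifferentiableAt ℂ (fun τ => τ + per j) τ := differentiableAt_id.add_const _
      exact (DifferentiableAt.comp τ h2 h3).differentiableWithinAt
    set a : ℝ := min L (q * Real.log ε) - 1 with ha
    have ha1 : a < L := by
      have := min_le_left L (q * Real.log ε); rw [ha]; linarith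
    have ha2 : a < q * Real.log ε := by
      have := min_le_right L (q * Real.log ε); rw [ha]; linarith
    have hev : (fun τ => G (τ + per j)) =ᶠ[𝓝 (a : ℂ)] G := by
      have ho : IsOpen (re ⁻¹' Iio L ∩ re ⁻¹' Iio (q * Real.log ε) : Set ℂ) :=
        hUo.inter (isOpen_Iio.preimage continuous_re)
      filter_upwards [ho.mem_nhds (x := (a : ℂ)) ⟨by
        rw [mem_preimage, ofReal_re]; exact ha1, by rw [mem_preimage, ofReal_re]; exact ha2⟩]
        with τ hτ
      exact h3 τ hτ.1 hτ.2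
    exact fun τ hτ => eqOn_convex (convex_halfSpace_re_lt L) hUo hsh h.hG (x := (a : ℂ))
      (by rw [mem_ofPred_eq, ofReal_re]; exact ha1) hev hτ
  · filter_upwards [h1] with t ht
    intro he
    exact ht (sub_eq_zero.2 he)

/-- injectivity near `0` -/
theorem Xf_inj (h : PG φ r d c w1 L G) (hq : 0 < q) (hper : IsPer L G q)
    (hmin : ∀ m : ℕ, 0 < m → m < q → ¬ IsPer L G m) :
    ∃ δ : ℝ, 0 < δ ∧ ∀ s ∈ ball (0 : ℂ) δ, ∀ s' ∈ ball (0 : ℂ) δ, s ≠ 0 → s' ≠ 0 →
      s ^ q = s' ^ q → Xf G q s = Xf G q s' → s = s' := by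
  classical
  have h1 : ∀ᶠ t in 𝓝[≠] (0 : ℂ), ∀ j ∈ Finset.range q,
      exp (2 * Real.pi * I / q) ^ j ≠ 1 → Xf G q t ≠ Xf G q (exp (2 * Real.pi * I / q) ^ j * t) := by
    rw [Filter.eventually_all_finset]
    intro j _
    rw [eventually_imp_distrib_left]
    intro hj
    refine Xf_ne_rot h hq hper hmin ?_ hj
    rw [← pow_mul, mul_comm j q, pow_mul, (isPrimitiveRoot_exp q hq.ne').pow_eq_one, one_pow]
  obtain ⟨δ, hδ, h2⟩ := Metric.eventually_nhds_iff_ball.1 (eventually_nhdsWithin_iff.1 h1)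
  refine ⟨δ, hδ, fun s hs s' hs' hs0 hs'0 hpow hX => ?_⟩
  have : NeZero q := ⟨hq.ne'⟩
  by_contra hne
  obtain ⟨j, hj, hje⟩ := (isPrimitiveRoot_exp q hq.ne').eq_pow_of_pow_eq_one
    (ξ := s' / s) (by rw [div_pow, ← hpow, div_self (pow_ne_zero _ hs0)])
  refine h2 s hs hs0 j (Finset.mem_range.2 hj) ?_ ?_
  · rw [hje]
    intro h3
    rw [div_eq_one_iff_eq hs0] at h3
    exact hne h3.symm
  · rw [hje, div_mul_cancel₀ _ hs0]
    exact hX

end Pool.Agent.E8helper32.SA
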