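import Pool.Agent.E8helper32.SA.Coord

/-!
# The identity for open paths
-/

set_option autoImplicit false

open Complex MeasureTheory Metric Set Filter Topology ComplexConjugate

namespace Pool.Agent.E8helper32.SA

open Pool.Agent.Results.MP_83fd13_an.BranchSingularities
open Pool.Agent.Y245.SC (seg kap t_SEG t_PAR t_KAP)
open Pool.Agent.Y245.UC (Rf kerU VG VGH)

variable {φ : ℂ → ℂ} {r : ℝ} {d : ℕ} {c : ℕ → ℂ → ℂ} {w1 : ℂ} {L : ℝ} {G : ℂ → ℂ} {q : ℕ}
  {Λ : ℝ} {ℓ : ℂ → ℂ}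

/-- change of variables for segments -/
theorem seg_comp {V W : Set ℂ} (hV : Convex ℝ V) (hVo : IsOpen V) (hW : Convex ℝ W)
    (hWo : IsOpen W) {g h : ℂ → ℂ} (hg : DifferentiableOn ℂ g V) (hh : DifferentiableOn ℂ h W)
    (hm : MapsTo h W V) {p x : ℂ} (hp : p ∈ W) (hx : x ∈ W) :
    seg g (h p) (h x) = seg (fun s => g (h s) * deriv h s) p x := by
  obtain ⟨-, h1⟩ := t_SEG V g hVo hV hg
  have hgh : DifferentiableOn ℂ (fun s => g (h s) * deriv h s) W :=
    (hg.comp hh hm).mul (hh.deriv hWo)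
  obtain ⟨-, h2⟩ := t_SEG W _ hWo hW hgh
  have h3 : ∀ y ∈ W, HasDerivAt (fun y => seg g (h p) (h y) -
      seg (fun s => g (h s) * deriv h s) p y) 0 y := by
    intro y hy
    have h4 := h1 (h p) (hm hp) (h y) (hm hy)
    have h5 : HasDerivAt h (deriv h y) y := (hh.differentiableAt (hWo.mem_nhds hy)).hasDerivAt
    have h6 := (h4.comp y h5).sub (h2 p hp y hy)
    rw [sub_self] at h6
    exact h6
  have h4 : DifferentiableOn ℂ (fun y => seg g (h p) (h y) -
      seg (fun s => g (h s) * deriv h s) p y) W := fun y hy =>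
    (h3 y hy).differentiableAt.differentiableWithinAt
  have h5 := hWo.is_const_of_deriv_eq_zero hW.isPreconnected h4
    (fun y hy => (h3 y hy).deriv) hx hp
  have h6 : ∀ (g : ℂ → ℂ) (p : ℂ), seg g p p = 0 := by
    intro g p
    unfold seg
    simp
  simp only [h6, sub_self] at h5
  exact sub_eq_zero.1 h5

theorem seg_self (g : ℂ → ℂ) (p : ℂ) : seg g p p = 0 := by
  unfold seg
  simp

theorem seg_congr {g g' : ℂ → ℂ} {p x : ℂ} (h : ∀ t ∈ Icc (0 : ℝ) 1,
    g (p + t * (x - p)) = g' (p + t * (x - p))) : seg g p x = seg g' p x := by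
  unfold seg
  refine intervalIntegral.integral_congr fun t ht => ?_
  rw [uIcc_of_le zero_le_one] at ht
  rw [h t ht]

theorem seg_mem {W : Set ℂ} (hW : Convex ℝ W) {p x : ℂ} (hp : p ∈ W) (hx : x ∈ W) {t : ℝ}
    (ht : t ∈ Icc (0 : ℝ) 1) : p + t * (x - p) ∈ W := by
  have h := hW hp hx (a := 1 - t) (b := t) (by linarith [ht.2]) ht.1 (by ring)
  convert h using 1
  rw [real_smul, real_smul]
  push_cast
  ring

/-- the kernel in the coordinate `σ` -/
noncomputable def kers (a : ℝ) (T : ℂ → ℂ) (b s σ : ℂ) : ℂ :=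
  (T s - b) ^ 2 * kap a ((T s - b) * (exp s - exp σ)) * exp s

theorem kap_diff {a : ℝ} (ha : 0 < a) : Differentiable ℂ (kap a) := (t_KAP a ha.le).1

/-- the integral of the kernel is holomorphic -/
theorem kers_int {a : ℝ} (ha : 0 < a) {T : ℂ → ℂ} (hT : DifferentiableOn ℂ T (re ⁻¹' Iio Λ))
    (b : ℂ) {σ1 : ℂ} (hσ1 : σ1.re < Λ) :
    DifferentiableOn ℂ (fun σ => seg (fun s => kers a T b s σ) σ1 σ) (re ⁻¹' Iio Λ) := by
  have hUo : IsOpen (re ⁻¹' Iio Λ : Set ℂ) := isOpen_Iio.preimage continuous_re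
  have hUc : Convex ℝ (re ⁻¹' Iio Λ : Set ℂ) := convex_halfSpace_re_lt Λ
  unfold seg
  refine t_PAR (re ⁻¹' Iio Λ)
    (fun z t => kers a T b (σ1 + t * (z - σ1)) z * (z - σ1)) hUo ?_ ?_
  · have hm : MapsTo (fun p : ℂ × ℝ => σ1 + p.2 * (p.1 - σ1)) ((re ⁻¹' Iio Λ) ×ˢ Icc (0 : ℝ) 1)
        (re ⁻¹' Iio Λ) := fun p hp => seg_mem hUc hσ1 hp.1 hp.2
    have hc : ContinuousOn (fun p : ℂ × ℝ => σ1 + p.2 * (p.1 - σ1))
        ((re ⁻¹' Iio Λ) ×ˢ Icc (0 : ℝ) 1) := by
      apply Continuous.continuousOn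
      exact continuous_const.add ((continuous_ofReal.comp continuous_snd).mul
        (continuous_fst.sub continuous_const))
    have hTc : ContinuousOn (fun p : ℂ × ℝ => T (σ1 + p.2 * (p.1 - σ1)))
        ((re ⁻¹' Iio Λ) ×ˢ Icc (0 : ℝ) 1) := hT.continuousOn.comp hc hm
    have hfst : ContinuousOn (fun p : ℂ × ℝ => p.1) ((re ⁻¹' Iio Λ) ×ˢ Icc (0 : ℝ) 1) :=
      continuous_fst.continuousOn
    have hk : ContinuousOn (fun p : ℂ × ℝ => kap a ((T (σ1 + p.2 * (p.1 - σ1)) - b) *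
        (exp (σ1 + p.2 * (p.1 - σ1)) - exp p.1))) ((re ⁻¹' Iio Λ) ×ˢ Icc (0 : ℝ) 1) := by
      refine (kap_diff ha).continuous.comp_continuousOn ?_
      exact (hTc.sub continuousOn_const).mul (hc.cexp.sub hfst.cexp)
    unfold kers
    exact (((((hTc.sub continuousOn_const).pow 2).mul hk).mul hc.cexp)).mul
      (hfst.sub continuousOn_const)
  · intro t ht z hz
    have h1 : σ1 + t * (z - σ1) ∈ (re ⁻¹' Iio Λ : Set ℂ) := seg_mem hUc hσ1 hz ht
    have h2 : DifferentiableAt ℂ (fun z => σ1 + t * (z - σ1)) z :=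
      (differentiableAt_const _).add ((differentiableAt_const _).mul
        (differentiableAt_fun_id.sub_const _))
    have h3 : DifferentiableAt ℂ (fun z => T (σ1 + t * (z - σ1))) z :=
      DifferentiableAt.comp (g := T) (f := fun z => σ1 + t * (z - σ1)) z
        (hT.differentiableAt (hUo.mem_nhds h1)) h2
    have h4 : DifferentiableAt ℂ (fun z => kap a ((T (σ1 + t * (z - σ1)) - b) *
        (exp (σ1 + t * (z - σ1)) - exp z))) z :=
      DifferentiableAt.comp (g := kap a) z (kap_diff ha _)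
        ((h3.sub_const b).mul (h2.cexp.sub differentiableAt_exp))
    refine DifferentiableAt.differentiableWithinAt ?_
    unfold kers
    exact ((((h3.sub_const b).pow 2).mul h4).mul h2.cexp).mul (differentiableAt_fun_id.sub_const _)

/-- **The identity for open paths.** -/
theorem opi (hG : PG φ r d c w1 L G) (hC : Co φ r w1 L Λ ℓ) {a : ℝ} (ha : 0 < a)
    (hVG : ∀ (z : ℂ) (f : ℂ → ℂ), Branch φ r z f → ∀ b, VG a φ b (1 / conj z) (Rf f)) {σ1 : ℂ}
    (hσ1 : σ1.re < Λ) (b : ℂ) :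
    Ts G ℓ (σ1 + 2 * Real.pi * I) - Ts G ℓ σ1 =
      seg (fun s => kers a (Ts G ℓ) b s σ1) σ1 (σ1 + 2 * Real.pi * I) := by
  have hD := hG.hD
  have hUo : IsOpen (re ⁻¹' Iio Λ : Set ℂ) := isOpen_Iio.preimage continuous_re
  have hUc : Convex ℝ (re ⁻¹' Iio Λ : Set ℂ) := convex_halfSpace_re_lt Λ
  set zs : ℂ := φ (1 / conj w1) with hzs
  set u : ℂ → ℂ := fun s => psi φ r (zs + exp s) with hu
  have hzm : ∀ s : ℂ, s.re < Λ → zs + exp s ∈ φ '' ball 0 1 := fun s hs => hC.h1 _ (exp_mem hs)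
  have hum : ∀ s : ℂ, s.re < Λ → u s ∈ ball (0 : ℂ) 1 := fun s hs => (psi_mem hD (hzm s hs)).1
  have hφu : ∀ s : ℂ, s.re < Λ → φ (u s) = zs + exp s := fun s hs => (psi_mem hD (hzm s hs)).2
  have hu0 : ∀ s : ℂ, s.re < Λ → u s ≠ 0 := fun s hs => hC.h2 _ (exp_mem hs)
  have hud : ∀ s : ℂ, s.re < Λ → HasDerivAt u ((deriv φ (u s))⁻¹ * exp s) s := by
    intro s hs
    have h1 := psi_diffAt hD (hzm s hs)
    exact h1.comp s ((hasDerivAt_exp s).const_add zs)
  have huD : DifferentiableOn ℂ u (re ⁻¹' Iio Λ) := fun s hs =>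
    (hud s hs).differentiableAt.differentiableWithinAt
  have hTd := Ts_diff hC hG.hG
  -- the germ at `σ1`
  obtain ⟨g, hg, hTg⟩ := Ts_germ hG hC hσ1
  have hinv : ∀ x : ℂ, 1 / conj (1 / conj x) = x := Pool.Agent.Y500.UC.rho_rho
  obtain ⟨H, hH, hev⟩ := hVG _ g hg b
  rw [hinv] at hev
  -- `F = Rf g` is holomorphic near `u σ1`
  obtain ⟨ρ0, hρ0, hgd⟩ := branch_diff hD.hφ hg
  have hFev : ∀ᶠ v in 𝓝 (u σ1), DifferentiableAt ℂ (Rf g) v ∧ v ∈ ball (0 : ℂ) 1 := by
    have h1 : ContinuousAt Pool.Agent.Y500.UC.rho (u σ1) :=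
      Pool.Agent.Y500.UC.rho_cont (hu0 σ1 hσ1)
    have h2 : ∀ᶠ v in 𝓝 (u σ1), Pool.Agent.Y500.UC.rho v ∈
        ball (Pool.Agent.Y500.UC.rho (u σ1)) ρ0 :=
      h1.eventually (isOpen_ball.eventually_mem (mem_ball_self hρ0))
    filter_upwards [h2, isOpen_ne.mem_nhds (hu0 σ1 hσ1),
      isOpen_ball.mem_nhds (hum σ1 hσ1)] with v hv1 hv2 hv3
    refine ⟨Pool.Agent.Y500.UC.Rf_diff hv2 ?_, hv3⟩
    exact hgd.differentiableAt (isOpen_ball.mem_nhds hv1)
  obtain ⟨ρ, hρ, hFb⟩ := Metric.eventually_nhds_iff_ball.1 hFev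
  -- the neighbourhood of `σ1`
  have huc : ContinuousAt u σ1 := (hud σ1 hσ1).continuousAt
  have hev2 : ∀ᶠ s in 𝓝 σ1, (s ∈ (re ⁻¹' Iio Λ : Set ℂ) ∧ u s ∈ ball (u σ1) ρ) ∧
      (Ts G ℓ s = Rf g (u s)) ∧ (Rf g (u s) - b = H (u s) +
        seg (fun v => kerU a φ v (u s) (Rf g v - b)) (u σ1) (u s)) :=
    ((hUo.eventually_mem (x := σ1) hσ1).and
      (huc.eventually (isOpen_ball.eventually_mem (mem_ball_self hρ)))).and
      (hTg.and (huc.eventually hev))
  obtain ⟨ε, hε, hb⟩ := Metric.eventually_nhds_iff_ball.1 hev2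
  -- the local identity
  have hloc : ∀ s ∈ ball σ1 ε, Ts G ℓ s - b = H (u s) +
      seg (fun s' => kers a (Ts G ℓ) b s' s) σ1 s := by
    intro s hs
    obtain ⟨⟨h1, h2⟩, h3, h4⟩ := hb s hs
    rw [h3, h4]
    congr 1
    have hker : DifferentiableOn ℂ (fun v => kerU a φ v (u s) (Rf g v - b)) (ball (u σ1) ρ) := by
      intro v hv
      obtain ⟨h5, h6⟩ := hFb v hv
      have h7 : v ∈ ball (0 : ℂ) r := ball_subset_ball hD.hr.le h6
      have h8 : DifferentiableAt ℂ φ v := hD.hφ.differentiableAt (isOpen_ball.mem_nhds h7)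
      have h9 : DifferentiableAt ℂ (deriv φ) v :=
        (hD.hφ.deriv isOpen_ball).differentiableAt (isOpen_ball.mem_nhds h7)
      have h10 : DifferentiableAt ℂ (fun v => kap a ((Rf g v - b) * (φ v - φ (u s)))) v :=
        DifferentiableAt.comp (g := kap a) v (kap_diff ha _)
          ((h5.sub_const b).mul (h8.sub_const _))
      refine DifferentiableAt.differentiableWithinAt ?_
      unfold kerU
      exact ((((h5.sub_const b).pow 2).mul h10).mul h9)
    have h5 := seg_comp (V := ball (u σ1) ρ) (W := ball σ1 ε) (convex_ball _ _) isOpen_ball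
      (convex_ball _ _) isOpen_ball hker (h := u)
      (fun s' hs' => (hud s' (hb s' hs').1.1).differentiableAt.differentiableWithinAt)
      (fun s' hs' => (hb s' hs').1.2) (mem_ball_self hε) hs
    rw [h5]
    refine seg_congr fun t ht => ?_
    have h6 : σ1 + t * (s - σ1) ∈ ball σ1 ε := seg_mem (convex_ball _ _) (mem_ball_self hε) hs ht
    obtain ⟨⟨h7, -⟩, h8, -⟩ := hb _ h6
    generalize σ1 + t * (s - σ1) = s' at h6 h7 h8 ⊢
    have h9 : deriv u s' = (deriv φ (u s'))⁻¹ * exp s' := (hud s' h7).deriv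
    have h10 : deriv φ (u s') ≠ 0 := dne hD (ball_subset_ball hD.hr.le (hum s' h7))
    unfold kerU kers
    rw [← h8, h9, hφu s' h7, hφu s h1, add_sub_add_left_eq_sub]
    field_simp
  -- the identity theorem
  have hR : DifferentiableOn ℂ (fun s => H (u s) + seg (fun s' => kers a (Ts G ℓ) b s' s) σ1 s)
      (re ⁻¹' Iio Λ) :=
    (hH.comp huD hum).add (kers_int ha hTd b hσ1)
  have heq := eqOn_convex hUc hUo (hTd.sub_const b) hR (x := σ1) hσ1 (by
    filter_upwards [isOpen_ball.mem_nhds (mem_ball_self hε)] with s hs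
    exact hloc s hs)
  have hσ2 : (σ1 + 2 * Real.pi * I).re < Λ := by
    have : (σ1 + 2 * Real.pi * I).re = σ1.re := by simp
    rw [this]; exact hσ1
  have e1 := heq hσ1
  have e2 := heq (x := σ1 + 2 * Real.pi * I) hσ2
  simp only at e1 e2
  rw [seg_self, add_zero] at e1
  have hexp : exp (σ1 + 2 * Real.pi * I) = exp σ1 := exp_periodic σ1
  have hu2 : u (σ1 + 2 * Real.pi * I) = u σ1 := by simp only [hu, hexp]
  have hk2 : (fun s' => kers a (Ts G ℓ) b s' (σ1 + 2 * Real.pi * I)) =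
      fun s' => kers a (Ts G ℓ) b s' σ1 := by
    funext s'
    unfold kers
    rw [hexp]
  rw [hu2, hk2] at e2
  linear_combination e2 - e1

end Pool.Agent.E8helper32.SA
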