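import Pool.Agent.E8helper32.SA.Lap

/-!
# The phase
-/

set_option autoImplicit false

open Complex MeasureTheory Metric Set Filter Topology ComplexConjugate

namespace Pool.Agent.E8helper32.SA

variable {μ : ℝ} {q : ℕ} {E : ℂ → ℂ} {δ K : ℝ}

/-- the function `N` -/
noncomputable def Nf (E : ℂ → ℂ) (q : ℕ) (μ : ℝ) (t : ℂ) : ℂ := μ * E t - t * deriv E t / q

/-- the phase -/
noncomputable def hp (E : ℂ → ℂ) (q : ℕ) (μ : ℝ) (t y : ℂ) : ℂ :=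
  exp y + E (t * exp (y / q)) * exp (-(μ * y)) / Nf E q μ t

/-- the perturbation of the phase -/
noncomputable def qp (E : ℂ → ℂ) (q : ℕ) (μ : ℝ) (t y : ℂ) : ℂ :=
  E (t * exp (y / q)) * exp (-(μ * y)) / Nf E q μ t - exp (-(μ * y)) / μ

theorem hp_eq (t : ℂ) (θ : ℝ) : hp E q μ t (θ * I) - hp E q μ t 0 =
    gm μ θ + (qp E q μ t (θ * I) - qp E q μ t 0) := by
  unfold hp qp gm
  rw [mul_zero, neg_zero, exp_zero]
  ring

theorem Nf_zero : Nf E q μ 0 = μ * E 0 := by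
  unfold Nf
  rw [zero_mul, zero_div, sub_zero]

theorem Nf_diff (hE : DifferentiableOn ℂ E (ball 0 δ)) :
    DifferentiableOn ℂ (Nf E q μ) (ball 0 δ) := by
  unfold Nf
  exact (hE.const_mul _).sub ((differentiableOn_id.mul (hE.deriv isOpen_ball)).div_const _)

/-- smallness data -/
structure Sm (E : ℂ → ℂ) (q : ℕ) (μ δ K : ℝ) : Prop where
  hμ : 0 < μ
  hE : DifferentiableOn ℂ E (ball 0 δ)
  hδ : 0 < δ
  hK : 0 ≤ K
  hE0 : E 0 ≠ 0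
  hEK : ∀ t ∈ ball (0 : ℂ) δ, ‖E t - E 0‖ ≤ K * ‖t‖
  hNK : ∀ t ∈ ball (0 : ℂ) δ, ‖Nf E q μ t - Nf E q μ 0‖ ≤ K * ‖t‖
  hN : ∀ t ∈ ball (0 : ℂ) δ, ‖Nf E q μ 0‖ / 2 ≤ ‖Nf E q μ t‖
  hEN : ∀ t ∈ ball (0 : ℂ) δ, ∀ t' ∈ ball (0 : ℂ) δ, ‖E t / Nf E q μ t'‖ ≤ 1 / μ + 1 / 8

theorem lip_zero {f : ℂ → ℂ} (hf : DifferentiableAt ℂ f 0) : ∃ K : ℝ, 0 ≤ K ∧
    ∀ᶠ t in 𝓝 (0 : ℂ), ‖f t - f 0‖ ≤ K * ‖t‖ := by
  obtain ⟨K, hK, h⟩ := hf.isBigO_sub.exists_nonneg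
  refine ⟨K, hK, ?_⟩
  filter_upwards [h.bound] with t ht
  rwa [sub_zero] at ht

theorem exists_sm (hμ : 0 < μ) {δ0 : ℝ} (hδ0 : 0 < δ0)
    (hE : DifferentiableOn ℂ E (ball 0 δ0)) (hE0 : E 0 ≠ 0) :
    ∃ δ K : ℝ, δ ≤ δ0 ∧ Sm E q μ δ K := by
  have h0 : ball (0 : ℂ) δ0 ∈ 𝓝 (0 : ℂ) := isOpen_ball.mem_nhds (mem_ball_self hδ0)
  have hEd := hE.differentiableAt h0
  have hNd := (Nf_diff (q := q) (μ := μ) hE).differentiableAt h0
  obtain ⟨K1, hK1, h1⟩ := lip_zero hEd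
  obtain ⟨K2, hK2, h2⟩ := lip_zero hNd
  have hN0 : Nf E q μ 0 ≠ 0 := by
    rw [Nf_zero]; exact mul_ne_zero (ofReal_ne_zero.2 hμ.ne') hE0
  have hN0' : 0 < ‖Nf E q μ 0‖ := norm_pos_iff.2 hN0
  have h3 : ∀ᶠ t in 𝓝 (0 : ℂ), ‖Nf E q μ 0‖ / 2 ≤ ‖Nf E q μ t‖ :=
    (hNd.continuousAt.norm.eventually (lt_mem_nhds (half_lt_self hN0'))).mono fun t h => h.le
  have h4 : ∀ᶠ x in 𝓝 ((0 : ℂ), (0 : ℂ)), ‖E x.1 / Nf E q μ x.2‖ ≤ 1 / μ + 1 / 8 := by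
    have hE1 : ContinuousAt (fun x : ℂ × ℂ => E x.1) (0, 0) :=
      ContinuousAt.comp (g := E) (f := Prod.fst) hEd.continuousAt continuous_fst.continuousAt
    have hN1 : ContinuousAt (fun x : ℂ × ℂ => Nf E q μ x.2) (0, 0) :=
      ContinuousAt.comp (g := Nf E q μ) (f := Prod.snd) hNd.continuousAt
        continuous_snd.continuousAt
    have hc : ContinuousAt (fun x : ℂ × ℂ => ‖E x.1 / Nf E q μ x.2‖) (0, 0) :=
      (hE1.div hN1 hN0).norm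
    refine (hc.eventually (gt_mem_nhds ?_)).mono fun x h => le_of_lt h
    simp only
    rw [Nf_zero, norm_div, norm_mul, norm_real, Real.norm_of_nonneg hμ.le]
    have h5 : ‖E 0‖ ≠ 0 := norm_ne_zero_iff.2 hE0
    have h6 : ‖E 0‖ / (μ * ‖E 0‖) = 1 / μ := by field_simp
    rw [h6]
    linarith
  obtain ⟨ε1, hε1, hb1⟩ := Metric.eventually_nhds_iff_ball.1 (h1.and (h2.and h3))
  obtain ⟨ε2, hε2, hb2⟩ := Metric.eventually_nhds_iff_ball.1 h4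
  have hs1 : ball (0 : ℂ) (min δ0 (min ε1 ε2)) ⊆ ball 0 ε1 :=
    ball_subset_ball ((min_le_right _ _).trans (min_le_left _ _))
  have hs2 : ball (0 : ℂ) (min δ0 (min ε1 ε2)) ⊆ ball 0 ε2 :=
    ball_subset_ball ((min_le_right _ _).trans (min_le_right _ _))
  refine ⟨min δ0 (min ε1 ε2), max K1 K2, min_le_left _ _, hμ,
    hE.mono (ball_subset_ball (min_le_left _ _)), lt_min hδ0 (lt_min hε1 hε2),
    hK1.trans (le_max_left _ _), hE0, ?_, ?_, ?_, ?_⟩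
  · intro t ht
    refine (hb1 t (hs1 ht)).1.trans ?_
    gcongr
    exact le_max_left _ _
  · intro t ht
    refine (hb1 t (hs1 ht)).2.1.trans ?_
    gcongr
    exact le_max_right _ _
  · exact fun t ht => (hb1 t (hs1 ht)).2.2
  · intro t ht t' ht'
    refine hb2 (t, t') ?_
    rw [← ball_prod_same]
    exact ⟨hs2 ht, hs2 ht'⟩

variable (S : Sm E q μ δ K)
include S

theorem Sm.Npos : 0 < ‖Nf E q μ 0‖ := by
  rw [Nf_zero]
  exact norm_pos_iff.2 (mul_ne_zero (ofReal_ne_zero.2 S.hμ.ne') S.hE0)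

theorem Sm.Nne {t : ℂ} (ht : t ∈ ball (0 : ℂ) δ) : Nf E q μ t ≠ 0 := by
  rw [← norm_pos_iff]
  linarith [S.hN t ht, S.Npos]

omit S in
theorem arg_bd (hq : 0 < q) {t y : ℂ} (ht : ‖t‖ * Real.exp 6 < δ) (hy : y ∈ ball (0 : ℂ) 6) :
    ‖t * exp (y / q)‖ ≤ ‖t‖ * Real.exp 6 ∧ t * exp (y / q) ∈ ball (0 : ℂ) δ := by
  have h1 : ‖t * exp (y / q)‖ ≤ ‖t‖ * Real.exp 6 := by
    rw [norm_mul, norm_exp]
    refine mul_le_mul_of_nonneg_left (Real.exp_le_exp.2 ?_) (norm_nonneg _)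
    refine (re_le_norm _).trans ?_
    rw [mem_ball_zero_iff] at hy
    rw [norm_div, norm_natCast]
    have hq' : (1 : ℝ) ≤ q := Nat.one_le_cast.2 hq
    calc ‖y‖ / q ≤ ‖y‖ / 1 := by gcongr
      _ ≤ 6 := by rw [div_one]; exact hy.le
  exact ⟨h1, by rw [mem_ball_zero_iff]; exact lt_of_le_of_lt h1 ht⟩

omit S in
theorem t_mem {t : ℂ} (ht : ‖t‖ * Real.exp 6 < δ) : t ∈ ball (0 : ℂ) δ := by
  rw [mem_ball_zero_iff]
  refine lt_of_le_of_lt ?_ ht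
  exact le_mul_of_one_le_right (norm_nonneg _) (Real.one_le_exp (by norm_num))

theorem Sm.qp_diffAt {t y : ℂ} (hy : t * exp (y / q) ∈ ball (0 : ℂ) δ) :
    DifferentiableAt ℂ (qp E q μ t) y := by
  have h1 : DifferentiableAt ℂ E (t * exp (y / q)) :=
    S.hE.differentiableAt (isOpen_ball.mem_nhds hy)
  have h2 : DifferentiableAt ℂ (fun y : ℂ => t * exp (y / q)) y := by fun_prop
  have h3 : DifferentiableAt ℂ (fun y : ℂ => E (t * exp (y / q))) y :=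
    DifferentiableAt.comp (g := E) (f := fun y : ℂ => t * exp (y / q)) y h1 h2
  have h4 : DifferentiableAt ℂ (fun y : ℂ => exp (-(μ * y))) y := by fun_prop
  unfold qp
  exact ((h3.mul h4).div_const _).sub (h4.div_const _)

theorem Sm.qp_bd (hq : 0 < q) {t y : ℂ} (ht : ‖t‖ * Real.exp 6 < δ) (hy : y ∈ ball (0 : ℂ) 6) :
    ‖qp E q μ t y‖ ≤
      Real.exp (μ * 6) * (K * (μ * Real.exp 6 + 1) * (2 / (μ * ‖Nf E q μ 0‖))) * ‖t‖ := by
  have hμ := S.hμ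
  have hμc : (μ : ℂ) ≠ 0 := ofReal_ne_zero.2 hμ.ne'
  obtain ⟨h1, h2⟩ := arg_bd hq ht hy
  have htm := t_mem ht
  have hNt := S.Nne htm
  have e : qp E q μ t y = exp (-(μ * y)) * ((μ * (E (t * exp (y / q)) - E 0) -
      (Nf E q μ t - Nf E q μ 0)) / (μ * Nf E q μ t)) := by
    have e2 : (μ * (E (t * exp (y / q)) - E 0) - (Nf E q μ t - Nf E q μ 0)) =
        μ * E (t * exp (y / q)) - Nf E q μ t := by
      rw [Nf_zero]; ring
    rw [e2]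
    unfold qp
    field_simp
  rw [e, norm_mul, norm_div, norm_mul (μ : ℂ) (Nf E q μ t), norm_real, Real.norm_of_nonneg hμ.le]
  have h3 : ‖exp (-(μ * y))‖ ≤ Real.exp (μ * 6) := by
    rw [norm_exp]
    refine Real.exp_le_exp.2 ((re_le_norm _).trans ?_)
    rw [norm_neg, norm_mul, norm_real, Real.norm_of_nonneg hμ.le]
    rw [mem_ball_zero_iff] at hy
    gcongr
  have h4 : ‖μ * (E (t * exp (y / q)) - E 0) - (Nf E q μ t - Nf E q μ 0)‖ ≤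
      K * (μ * Real.exp 6 + 1) * ‖t‖ := by
    have h5 := S.hEK _ h2
    have h6 := S.hNK _ htm
    have h7 := S.hK
    calc ‖μ * (E (t * exp (y / q)) - E 0) - (Nf E q μ t - Nf E q μ 0)‖
        ≤ ‖(μ : ℂ) * (E (t * exp (y / q)) - E 0)‖ + ‖Nf E q μ t - Nf E q μ 0‖ := norm_sub_le _ _
      _ = μ * ‖E (t * exp (y / q)) - E 0‖ + ‖Nf E q μ t - Nf E q μ 0‖ := by
          rw [norm_mul, norm_real, Real.norm_of_nonneg hμ.le]
      _ ≤ μ * (K * (‖t‖ * Real.exp 6)) + K * ‖t‖ := by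
          gcongr
          exact h5.trans (by gcongr)
      _ = _ := by ring
  have h5 := S.hN t htm
  have h6 := S.Npos
  have h7 := S.hK
  calc ‖exp (-(μ * y))‖ * (‖μ * (E (t * exp (y / q)) - E 0) - (Nf E q μ t - Nf E q μ 0)‖ /
        (μ * ‖Nf E q μ t‖))
      ≤ Real.exp (μ * 6) * ((K * (μ * Real.exp 6 + 1) * ‖t‖) / (μ * (‖Nf E q μ 0‖ / 2))) := by
        gcongr
    _ = _ := by field_simp

theorem Sm.qp_deriv {t : ℂ} (ht : t ∈ ball (0 : ℂ) δ) : deriv (qp E q μ t) 0 = 0 := by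
  have hμc : (μ : ℂ) ≠ 0 := ofReal_ne_zero.2 S.hμ.ne'
  have hNt := S.Nne ht
  have h1 : HasDerivAt E (deriv E t) (t * exp (0 / q)) := by
    rw [zero_div, exp_zero, mul_one]
    exact (S.hE.differentiableAt (isOpen_ball.mem_nhds ht)).hasDerivAt
  have h2 : HasDerivAt (fun y : ℂ => t * exp (y / q)) (t * (exp (0 / q) * (1 / q))) 0 :=
    (((hasDerivAt_id (0 : ℂ)).div_const (q : ℂ)).cexp).const_mul t
  have h3 := h1.comp (0 : ℂ) h2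
  have h4 : HasDerivAt (fun y : ℂ => exp (-(μ * y))) (exp (-(μ * 0)) * -(μ * 1)) 0 :=
    (((hasDerivAt_id (0 : ℂ)).const_mul (μ : ℂ)).neg).cexp
  have h5 := (((h3.mul h4).div_const (Nf E q μ t)).sub (h4.div_const (μ : ℂ)))
  have h6 : deriv (qp E q μ t) 0 = _ := h5.deriv
  rw [h6]
  simp only [Function.comp_apply, zero_div, exp_zero, mul_zero, neg_zero, mul_one, one_mul]
  rw [sub_eq_zero, neg_div, div_self hμc, div_eq_iff hNt]
  unfold Nf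
  ring

theorem Sm.qp_quad (hq : 0 < q) : ∃ C : ℝ, ∀ t : ℂ, ‖t‖ * Real.exp 6 < δ →
    ∀ θ ∈ Icc (-Real.pi) Real.pi, ‖qp E q μ t (θ * I) - qp E q μ t 0‖ ≤ C * ‖t‖ * θ ^ 2 := by
  refine ⟨Real.exp (μ * 6) * (K * (μ * Real.exp 6 + 1) * (2 / (μ * ‖Nf E q μ 0‖))),
    fun t ht θ hθ => ?_⟩
  have h1 : ‖(θ * I : ℂ)‖ = |θ| := by
    rw [norm_mul, norm_I, mul_one, norm_real, Real.norm_eq_abs]
  have h2 := quad (f := qp E q μ t) (fun y hy =>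
    (S.qp_diffAt (arg_bd hq ht hy).2).differentiableWithinAt)
    (fun y hy => S.qp_bd hq ht hy) (S.qp_deriv (t_mem ht)) (y := θ * I) (by
      rw [h1]
      have := abs_le.2 ⟨hθ.1, hθ.2⟩
      linarith [Real.pi_lt_four])
  rw [h1, sq_abs] at h2
  exact h2

end Pool.Agent.E8helper32.SA
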