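import Pool.Agent.E8helper32.SA.Opi

/-!
# The Puiseux form of the Schwarz function at a cusp
-/

set_option autoImplicit false

open Complex MeasureTheory Metric Set Filter Topology ComplexConjugate

namespace Pool.Agent.E8helper32.SA

open Pool.Agent.Results.MP_83fd13_an.BranchSingularities
open Pool.Agent.Y245.SC (seg kap t_SEG t_PAR t_KAP)
open Pool.Agent.Y245.UC (Rf kerU VG VGH)

variable {φ : ℂ → ℂ} {r : ℝ} {d : ℕ} {c : ℕ → ℂ → ℂ} {w1 : ℂ} {L : ℝ} {G : ℂ → ℂ} {q : ℕ}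
  {Λ : ℝ} {ℓ : ℂ → ℂ}

/-- the change of the local parameter -/
noncomputable def mt (ℓ : ℂ → ℂ) (q : ℕ) (t : ℂ) : ℂ := t * exp (ℓ (t ^ q) / q)

theorem Ts_X (hq : 0 < q) (hper : IsPer L G q) (hC : Co φ r w1 L Λ ℓ) {σ : ℂ} (hσ : σ.re < Λ) :
    Ts G ℓ σ = conj (Xf G q (conj (mt ℓ q (exp (σ / q))))) := by
  have hq0 : (q : ℂ) ≠ 0 := Nat.cast_ne_zero.2 hq.ne'
  have hpow : exp (σ / q) ^ q = exp σ := by rw [← exp_nat_mul, mul_div_cancel₀ _ hq0]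
  have ha : exp (conj ((σ + ℓ (exp σ)) / q)) = conj (mt ℓ q (exp (σ / q))) := by
    rw [exp_conj]
    unfold mt
    rw [hpow, ← exp_add, ← add_div]
  have hqa : (q : ℂ) * conj ((σ + ℓ (exp σ)) / q) = conj (σ + ℓ (exp σ)) := by
    rw [map_div₀, conj_natCast, mul_div_cancel₀ _ hq0]
  rw [Xf_eq hper ha (by rw [hqa, conj_re]; exact hC.re_lt hσ), hqa]
  rfl

/-- the function `E` -/
noncomputable def Ef (g ℓ : ℂ → ℂ) (p q : ℕ) (t : ℂ) : ℂ :=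
  conj (g (conj (mt ℓ q t))) * exp (-((p / q : ℂ) * ℓ (t ^ q)))

theorem pow_ball (hq : 0 < q) {t : ℂ} {Λ : ℝ} (ht : t ∈ ball (0 : ℂ) (Real.exp (Λ / q))) :
    t ^ q ∈ ball (0 : ℂ) (Real.exp Λ) := by
  rw [mem_ball_zero_iff] at ht ⊢
  rw [norm_pow]
  have hq' : (0 : ℝ) < q := Nat.cast_pos.2 hq
  calc ‖t‖ ^ q < Real.exp (Λ / q) ^ q := pow_lt_pow_left₀ ht (norm_nonneg _) hq.ne'
    _ = Real.exp Λ := by rw [← Real.exp_nat_mul, mul_div_cancel₀ _ hq'.ne']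

theorem mt_diff (hq : 0 < q) (hℓ : DifferentiableOn ℂ ℓ (ball 0 (Real.exp Λ))) {t : ℂ}
    (ht : t ∈ ball (0 : ℂ) (Real.exp (Λ / q))) : DifferentiableAt ℂ (mt ℓ q) t := by
  have h1 : DifferentiableAt ℂ ℓ (t ^ q) :=
    hℓ.differentiableAt (isOpen_ball.mem_nhds (pow_ball hq ht))
  have h2 : DifferentiableAt ℂ (fun t : ℂ => ℓ (t ^ q)) t :=
    DifferentiableAt.comp (g := ℓ) (f := fun t : ℂ => t ^ q) t h1 (differentiableAt_pow q)
  unfold mt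
  exact differentiableAt_fun_id.mul (h2.div_const _).cexp

theorem mt_zero : mt ℓ q 0 = 0 := by unfold mt; rw [zero_mul]

theorem mt_ne {t : ℂ} (ht : t ≠ 0) : mt ℓ q t ≠ 0 := mul_ne_zero ht (exp_ne_zero _)

theorem mt_rot {t ζ : ℂ} (hζ : ζ ^ q = 1) : mt ℓ q (ζ * t) = ζ * mt ℓ q t := by
  unfold mt
  rw [mul_pow, hζ, one_mul, mul_assoc]

/-- **The Puiseux form.** -/
theorem pui (hG : PG φ r d c w1 L G) (hq : 0 < q) (hper : IsPer L G q)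
    (hmin : ∀ m : ℕ, 0 < m → m < q → ¬ IsPer L G m) {p : ℕ} {g : ℂ → ℂ}
    (hg : AnalyticAt ℂ g 0) (hg0 : g 0 ≠ 0)
    (hev : ∀ᶠ t in 𝓝[≠] (0 : ℂ), Xf G q t = g t / t ^ p) (hC : Co φ r w1 L Λ ℓ) :
    ∃ (Λ' : ℝ) (E : ℂ → ℂ), Λ' ≤ Λ ∧ DifferentiableOn ℂ E (ball 0 (Real.exp (Λ' / q))) ∧
      E 0 ≠ 0 ∧ (∀ σ : ℂ, σ.re < Λ' → Ts G ℓ σ = E (exp (σ / q)) * exp (-((p / q : ℂ) * σ))) ∧
      (∀ t ∈ ball (0 : ℂ) (Real.exp (Λ' / q)), ∀ t' ∈ ball (0 : ℂ) (Real.exp (Λ' / q)), t ≠ 0 →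
        t' ≠ 0 → t ^ q = t' ^ q → E t / t ^ p = E t' / t' ^ p → t = t') := by
  have hq0 : (q : ℂ) ≠ 0 := Nat.cast_ne_zero.2 hq.ne'
  have hq0' : (0 : ℝ) < q := Nat.cast_pos.2 hq
  obtain ⟨δ1, hδ1, hinj⟩ := Xf_inj hG hq hper hmin
  obtain ⟨δ2, hδ2, hX⟩ := Metric.eventually_nhds_iff_ball.1 (eventually_nhdsWithin_iff.1 hev)
  obtain ⟨δ3, hδ3, hgd⟩ : ∃ δ3 : ℝ, 0 < δ3 ∧ ∀ t ∈ ball (0 : ℂ) δ3, AnalyticAt ℂ g t :=
    Metric.eventually_nhds_iff_ball.1 hg.eventually_analyticAt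
  set δ := min δ1 (min δ2 δ3) with hδdef
  have hδ : 0 < δ := lt_min hδ1 (lt_min hδ2 hδ3)
  have h0b : (0 : ℂ) ∈ ball (0 : ℂ) (Real.exp (Λ / q)) := mem_ball_self (Real.exp_pos _)
  have hmc : ContinuousAt (mt ℓ q) 0 := (mt_diff hq hC.hℓ h0b).continuousAt
  have hm : ∀ᶠ t in 𝓝 (0 : ℂ), mt ℓ q t ∈ ball (0 : ℂ) δ := by
    refine hmc.eventually (isOpen_ball.eventually_mem ?_)
    rw [mt_zero]
    exact mem_ball_self hδ
  obtain ⟨ε, hε, hmb⟩ := Metric.eventually_nhds_iff_ball.1 hm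
  -- the new `Λ'`
  set Λ' := min Λ (q * Real.log ε) with hΛ'
  have hΛ'1 : Λ' ≤ Λ := min_le_left _ _
  have hΛ'2 : Real.exp (Λ' / q) ≤ ε := by
    rw [← Real.le_log_iff_exp_le hε, div_le_iff₀ hq0']
    calc Λ' ≤ q * Real.log ε := min_le_right _ _
      _ = Real.log ε * q := mul_comm _ _
  have hb1 : ball (0 : ℂ) (Real.exp (Λ' / q)) ⊆ ball 0 (Real.exp (Λ / q)) :=
    ball_subset_ball (Real.exp_le_exp.2 (by gcongr))
  have hb2 : ∀ t ∈ ball (0 : ℂ) (Real.exp (Λ' / q)), mt ℓ q t ∈ ball (0 : ℂ) δ := fun t ht =>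
    hmb t (ball_subset_ball hΛ'2 ht)
  have hcb : ∀ t ∈ ball (0 : ℂ) (Real.exp (Λ' / q)), conj (mt ℓ q t) ∈ ball (0 : ℂ) δ := by
    intro t ht
    have := hb2 t ht
    rw [mem_ball_zero_iff] at this ⊢
    rwa [norm_conj]
  have hc0 : ∀ t : ℂ, t ≠ 0 → conj (mt ℓ q t) ≠ 0 := fun t ht => by
    rw [ne_eq, _root_.map_eq_zero]; exact mt_ne ht
  -- the relation between `E` and `X`
  have hEX : ∀ t ∈ ball (0 : ℂ) (Real.exp (Λ' / q)), t ≠ 0 →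
      conj (Xf G q (conj (mt ℓ q t))) = Ef g ℓ p q t / t ^ p := by
    intro t ht ht0
    have h1 : conj (mt ℓ q t) ∈ ball (0 : ℂ) δ2 :=
      ball_subset_ball ((min_le_right _ _).trans (min_le_left _ _)) (hcb t ht)
    rw [hX _ h1 (hc0 t ht0), map_div₀, map_pow, conj_conj]
    unfold Ef
    have h2 : mt ℓ q t ^ p = t ^ p * exp ((p / q : ℂ) * ℓ (t ^ q)) := by
      unfold mt
      rw [mul_pow, ← exp_nat_mul]
      congr 2
      ring
    rw [h2, exp_neg, div_eq_div_iff (mul_ne_zero (pow_ne_zero _ ht0) (exp_ne_zero _))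
      (pow_ne_zero _ ht0)]
    field_simp
  refine ⟨Λ', Ef g ℓ p q, hΛ'1, ?_, ?_, ?_, ?_⟩
  · intro t ht
    have h1 : DifferentiableAt ℂ g (conj (mt ℓ q t)) :=
      (hgd _ (ball_subset_ball ((min_le_right _ _).trans (min_le_right _ _))
        (hcb t ht))).differentiableAt
    have h2 := DifferentiableAt.conj_conj h1
    rw [conj_conj] at h2
    have h3 : DifferentiableAt ℂ (fun t => conj (g (conj (mt ℓ q t)))) t :=
      DifferentiableAt.comp (g := conj ∘ g ∘ conj) t h2 (mt_diff hq hC.hℓ (hb1 ht))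
    have h4 : DifferentiableAt ℂ ℓ (t ^ q) :=
      hC.hℓ.differentiableAt (isOpen_ball.mem_nhds (pow_ball hq (hb1 ht)))
    have h5 : DifferentiableAt ℂ (fun t : ℂ => ℓ (t ^ q)) t :=
      DifferentiableAt.comp (g := ℓ) (f := fun t : ℂ => t ^ q) t h4 (differentiableAt_pow q)
    unfold Ef
    exact (h3.mul ((h5.const_mul _).neg.cexp)).differentiableWithinAt
  · unfold Ef
    rw [mt_zero, map_zero]
    exact mul_ne_zero (by rwa [ne_eq, _root_.map_eq_zero]) (exp_ne_zero _)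
  · intro σ hσ
    have ht : exp (σ / q) ∈ ball (0 : ℂ) (Real.exp (Λ' / q)) := by
      rw [mem_ball_zero_iff, norm_exp, ← ofReal_natCast, div_ofReal_re]
      exact Real.exp_lt_exp.2 (by gcongr)
    rw [Ts_X hq hper hC (hσ.trans_le hΛ'1), hEX _ ht (exp_ne_zero _), div_eq_mul_inv]
    congr 1
    rw [← exp_nat_mul, ← exp_neg]
    congr 1
    ring
  · intro t ht t' ht' ht0 ht'0 hpw hEE
    rw [← hEX t ht ht0, ← hEX t' ht' ht'0] at hEE
    have hX' : Xf G q (conj (mt ℓ q t)) = Xf G q (conj (mt ℓ q t')) := by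
      have := congrArg conj hEE
      rwa [conj_conj, conj_conj] at this
    have h1 : mt ℓ q t ^ q = mt ℓ q t' ^ q := by
      unfold mt
      rw [mul_pow, mul_pow, hpw]
    have h2 := hinj _ (ball_subset_ball (min_le_left _ _) (hcb t ht)) _
      (ball_subset_ball (min_le_left _ _) (hcb t' ht')) (hc0 t ht0) (hc0 t' ht'0)
      (by rw [← map_pow, h1, map_pow]) hX'
    have h3 : mt ℓ q t = mt ℓ q t' := by
      have := congrArg conj h2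
      rwa [conj_conj, conj_conj] at this
    unfold mt at h3
    rw [hpw] at h3
    exact mul_right_cancel₀ (exp_ne_zero _) h3

end Pool.Agent.E8helper32.SA
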