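import Pool.Agent.E8helper32.SA.Disc

/-!
# Branches near an isolated zero of the leading coefficient
-/

set_option autoImplicit false

open Complex Metric Set Filter Topology ComplexConjugate

namespace Pool.Agent.E8helper32.SA

open Pool.Agent.Results.MP_83fd13_an.BranchSingularities

variable {φ : ℂ → ℂ} {r : ℝ} {d : ℕ} {c : ℕ → ℂ → ℂ}

theorem rho_mem {w1 : ℂ} (hw1 : 1 < ‖w1‖) : 1 / conj w1 ∈ ball (0 : ℂ) 1 := by
  rw [mem_ball_zero_iff, norm_div, norm_one, norm_conj, div_lt_one (by linarith)]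
  exact hw1

theorem Cf_ne (hD : Data φ r d c) {w1 : ℂ} (hw1 : 1 < ‖w1‖) :
    ∀ᶠ w in 𝓝[≠] w1, Cf φ c d w ≠ 0 := by
  have hw0 : w1 ≠ 0 := by
    rintro rfl
    rw [norm_zero] at hw1
    linarith
  have h3 : DifferentiableOn ℂ (c d ∘ φ) (ball 0 r) :=
    (hD.hc d le_rfl).comp hD.hφ (mapsTo_image φ _)
  have han := h3.analyticOnNhd isOpen_ball
  have hu1 : 1 / conj w1 ∈ ball (0 : ℂ) r := ball_subset_ball hD.hr.le (rho_mem hw1)
  have h4 : ∀ᶠ u in 𝓝[≠] (1 / conj w1), (c d ∘ φ) u ≠ 0 := by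
    rcases (han _ hu1).eventually_eq_zero_or_eventually_ne_zero with h5 | h5
    · exfalso
      obtain ⟨z, ⟨u, hu, rfl⟩, hz⟩ := hD.hd
      have h6 := han.eqOn_zero_of_preconnected_of_eventuallyEq_zero
        (convex_ball (0 : ℂ) r).isPreconnected hu1 h5
      exact hz (h6 (ball_subset_ball hD.hr.le hu))
    · exact h5
  have h5 : Tendsto (fun w : ℂ => 1 / conj w) (𝓝[≠] w1) (𝓝[≠] (1 / conj w1)) := by
    refine tendsto_nhdsWithin_iff.2 ⟨?_, ?_⟩
    · exact (Pool.Agent.Y500.UC.rho_cont hw0).tendsto.mono_left nhdsWithin_le_nhds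
    · filter_upwards [self_mem_nhdsWithin] with w hw
      intro h6
      apply hw
      rw [mem_singleton_iff] at h6 ⊢
      have h7 : (1 / conj (1 / conj w) : ℂ) = 1 / conj (1 / conj w1) := by rw [h6]
      have h8 := Pool.Agent.Y500.UC.rho_rho w
      have h9 := Pool.Agent.Y500.UC.rho_rho w1
      unfold Pool.Agent.Y500.UC.rho at h8 h9
      rw [h8, h9] at h7
      exact h7
  filter_upwards [h5.eventually h4] with w hw
  unfold Cf
  intro h6
  rw [_root_.map_eq_zero] at h6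
  exact hw h6

/-- a punctured disc of good points -/
structure Good (φ : ℂ → ℂ) (c : ℕ → ℂ → ℂ) (d : ℕ) (w1 : ℂ) (L : ℝ) : Prop where
  h1 : ∀ w ∈ ball w1 (2 * Real.exp L), 1 < ‖w‖
  h2 : ∀ w ∈ ball w1 (2 * Real.exp L), w ≠ w1 → Cf φ c d w ≠ 0

theorem exists_good (hD : Data φ r d c) {w1 : ℂ} (hw1 : 1 < ‖w1‖) :
    ∃ L : ℝ, Good φ c d w1 L := by
  have h1 : ∀ᶠ w in 𝓝 w1, 1 < ‖w‖ := continuous_norm.continuousAt.eventually (lt_mem_nhds hw1)
  have h2 := eventually_nhdsWithin_iff.1 (Cf_ne hD hw1)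
  obtain ⟨ε, hε, h3⟩ := Metric.eventually_nhds_iff_ball.1 (h1.and h2)
  refine ⟨Real.log (ε / 2), ?_, ?_⟩
  · intro w hw
    rw [Real.exp_log (by positivity), mul_div_cancel₀ _ (two_ne_zero)] at hw
    exact (h3 w hw).1
  · intro w hw hne
    rw [Real.exp_log (by positivity), mul_div_cancel₀ _ (two_ne_zero)] at hw
    exact (h3 w hw).2 hne

theorem good_sub {w1 : ℂ} {L : ℝ} {τ : ℂ} (hτ : τ.re < L) {w : ℂ}
    (hw : w ∈ ball (w1 + exp τ) ‖exp τ‖) : w ∈ ball w1 (2 * Real.exp L) ∧ w ≠ w1 := by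
  rw [mem_ball, dist_eq_norm] at hw
  have h1 : ‖exp τ‖ < Real.exp L := by rw [norm_exp]; exact Real.exp_lt_exp.2 hτ
  constructor
  · rw [mem_ball, dist_eq_norm]
    have h2 : w - w1 = (w - (w1 + exp τ)) + exp τ := by ring
    rw [h2]
    have h3 := norm_add_le (w - (w1 + exp τ)) (exp τ)
    linarith
  · rintro rfl
    rw [sub_add_cancel_left, norm_neg] at hw
    exact lt_irrefl _ hw

/-- the continuation in the coordinate `τ` -/
theorem punct_cont (hD : Data φ r d c) {lam : ℝ} (hlam : 0 < lam)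
    (hBU : BranchesBlowUp φ r lam) {w1 : ℂ} {L : ℝ} (hL : Good φ c d w1 L) {τ0 : ℂ}
    (hτ0 : τ0.re < L) {f : ℂ → ℂ} (hf : Branch φ r (w1 + exp τ0) f) :
    ∃ G : ℂ → ℂ, DifferentiableOn ℂ G (re ⁻¹' Iio L) ∧ G =ᶠ[𝓝 τ0] (fun t => f (w1 + exp t)) ∧
      ∀ τ : ℂ, τ.re < L →
        ∃ g : ℂ → ℂ, Branch φ r (w1 + exp τ) g ∧ G =ᶠ[𝓝 τ] fun t => g (w1 + exp t) := by
  refine exp_cont hD.hφ (convex_halfSpace_re_lt L) (isOpen_Iio.preimage continuous_re)
    (s := 1 / 2) (by norm_num) ?_ hτ0 hf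
  intro τ hτ
  refine ⟨‖exp τ‖, norm_pos_iff.2 (exp_ne_zero _), ?_, ?_, ?_⟩
  · intro w hw
    exact hL.h1 w (good_sub hτ hw).1
  · intro w hw
    exact crosses_good hD hlam hBU (hL.h2 w (good_sub hτ hw).1 (good_sub hτ hw).2)
  · intro t ht
    have := exp_sub_lt le_rfl ht
    rwa [show (2 * (1 / 2) : ℝ) = 1 by norm_num, mul_one] at this

/-- the setting in the coordinate `τ` -/
structure PG (φ : ℂ → ℂ) (r : ℝ) (d : ℕ) (c : ℕ → ℂ → ℂ) (w1 : ℂ) (L : ℝ) (G : ℂ → ℂ) : Prop where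
  hD : Data φ r d c
  hL : Good φ c d w1 L
  hG : DifferentiableOn ℂ G (re ⁻¹' Iio L)
  hbr : ∀ τ : ℂ, τ.re < L →
    ∃ g : ℂ → ℂ, Branch φ r (w1 + exp τ) g ∧ G =ᶠ[𝓝 τ] fun t => g (w1 + exp t)

variable {w1 : ℂ} {L : ℝ} {G : ℂ → ℂ}

theorem PG.mem (_ : PG φ r d c w1 L G) {τ : ℂ} (hτ : τ.re < L) :
    w1 + exp τ ∈ ball w1 (2 * Real.exp L) ∧ w1 + exp τ ≠ w1 :=
  good_sub hτ (mem_ball_self (norm_pos_iff.2 (exp_ne_zero _)))

theorem PG.rel (h : PG φ r d c w1 L G) {τ : ℂ} (hτ : τ.re < L) :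
    ∑ k ∈ Finset.range (d + 1), Cf φ c k (w1 + exp τ) * G τ ^ k = 0 := by
  obtain ⟨g, hg, hG⟩ := h.hbr τ hτ
  have h1 := (rel_branch h.hD hg).self_of_nhds
  rw [hG.eq_of_nhds]
  exact h1

theorem PG.ne (h : PG φ r d c w1 L G) {τ : ℂ} (hτ : τ.re < L) :
    Cf φ c d (w1 + exp τ) ≠ 0 := h.hL.h2 _ (h.mem hτ).1 (h.mem hτ).2

theorem exp_add_per (τ : ℂ) (j : ℕ) : exp (τ + per j) = exp τ := by
  unfold per
  have := exp_periodic.nat_mul j τ
  simpa using this

/-- pigeonhole -/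
theorem PG.pigeon (h : PG φ r d c w1 L G) {τ : ℂ} (hτ : τ.re < L) :
    ∃ i j : ℕ, i < j ∧ j ≤ d ∧ G (τ + per i) = G (τ + per j) := by
  classical
  let p : Polynomial ℂ := ∑ k ∈ Finset.range (d + 1),
    Polynomial.C (Cf φ c k (w1 + exp τ)) * Polynomial.X ^ k
  have hcoef : p.coeff d = Cf φ c d (w1 + exp τ) := by
    simp only [p, Polynomial.finsetSum_coeff, Polynomial.coeff_C_mul_X_pow]
    rw [Finset.sum_eq_single d]
    · simp
    · intro b _ hb
      rw [if_neg (Ne.symm hb)]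
    · intro hd
      exact absurd (Finset.mem_range.2 (Nat.lt_succ_self d)) hd
  have hp0 : p ≠ 0 := by
    intro h0
    rw [h0, Polynomial.coeff_zero] at hcoef
    exact h.ne hτ hcoef.symm
  have hdeg : p.natDegree ≤ d := by
    refine Polynomial.natDegree_sum_le_of_forall_le _ _ fun k hk => ?_
    exact (Polynomial.natDegree_C_mul_X_pow_le _ _).trans
      (Nat.lt_succ_iff.1 (Finset.mem_range.1 hk))
  have hroot : ∀ j : ℕ, G (τ + per j) ∈ p.roots.toFinset := by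
    intro j
    rw [Multiset.mem_toFinset, Polynomial.mem_roots hp0, Polynomial.IsRoot.def]
    have h1 := h.rel (τ := τ + per j) (by rw [add_re, per_re, add_zero]; exact hτ)
    rw [exp_add_per] at h1
    simp only [p, Polynomial.eval_finsetSum, Polynomial.eval_mul, Polynomial.eval_C,
      Polynomial.eval_pow, Polynomial.eval_X]
    exact h1
  have hcard : p.roots.toFinset.card < (Finset.range (d + 1)).card := by
    rw [Finset.card_range]
    exact Nat.lt_succ_iff.2 ((Multiset.toFinset_card_le _).trans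
      ((Polynomial.card_roots' p).trans hdeg))
  obtain ⟨i, hi, j, hj, hij, he⟩ := Finset.exists_ne_map_eq_of_card_lt_of_maps_to hcard
    (f := fun j => G (τ + per j)) (fun j _ => hroot j)
  rw [Finset.mem_range] at hi hj
  rcases lt_or_gt_of_ne hij with h1 | h1
  · exact ⟨i, j, h1, by omega, he⟩
  · exact ⟨j, i, h1, by omega, he.symm⟩

/-- there is a period -/
theorem PG.period (h : PG φ r d c w1 L G) :
    ∃ q : ℕ, 0 < q ∧ ∀ τ : ℂ, τ.re < L → G (τ + per q) = G τ := by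
  classical
  have hUo : IsOpen (re ⁻¹' Iio L : Set ℂ) := isOpen_Iio.preimage continuous_re
  have hUc : IsPreconnected (re ⁻¹' Iio L : Set ℂ) := (convex_halfSpace_re_lt L).isPreconnected
  -- a point
  have hτ0 : ((L - 1 : ℝ) : ℂ).re < L := by rw [ofReal_re]; linarith
  set τ0 : ℂ := ((L - 1 : ℝ) : ℂ) with hτ0def
  have hfr : ∃ i j : ℕ, i < j ∧ ∃ᶠ τ in 𝓝[≠] τ0, G (τ + per i) = G (τ + per j) := by
    by_contra hcon
    push Not at hcon
    have h1 : ∀ᶠ τ in 𝓝[≠] τ0, ∀ j ∈ Finset.range (d + 1), ∀ i ∈ Finset.range j,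
        G (τ + per i) ≠ G (τ + per j) := by
      rw [Filter.eventually_all_finset]
      intro j _
      rw [Filter.eventually_all_finset]
      intro i hi
      exact hcon i j (Finset.mem_range.1 hi)
    have h2 : ∀ᶠ τ in 𝓝[≠] τ0, τ.re < L :=
      eventually_nhdsWithin_of_eventually_nhds (hUo.eventually_mem (x := τ0) hτ0)
    obtain ⟨τ, hτ1, hτ2⟩ := (h1.and h2).exists
    obtain ⟨i, j, hij, hjd, he⟩ := h.pigeon hτ2
    exact hτ1 j (Finset.mem_range.2 (by omega)) i (Finset.mem_range.2 hij) he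
  obtain ⟨i, j, hij, hfr⟩ := hfr
  have hsh : ∀ k : ℕ, DifferentiableOn ℂ (fun τ => G (τ + per k)) (re ⁻¹' Iio L) := by
    intro k τ hτ
    have h1 : τ + per k ∈ (re ⁻¹' Iio L : Set ℂ) := by
      rw [mem_preimage, add_re, per_re, add_zero]; exact hτ
    have h2 : DifferentiableAt ℂ G (τ + per k) := h.hG.differentiableAt (hUo.mem_nhds h1)
    have h3 : DifferentiableAt ℂ (fun τ => τ + per k) τ := differentiableAt_id.add_const _
    exact (DifferentiableAt.comp τ h2 h3).differentiableWithinAt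
  have heq := ((hsh i).analyticOnNhd hUo).eqOn_of_preconnected_of_frequently_eq
    ((hsh j).analyticOnNhd hUo) hUc hτ0 hfr
  refine ⟨j - i, by omega, fun τ hτ => ?_⟩
  have h1 := heq (x := τ - per i) (by
    rw [mem_preimage, sub_re, per_re, sub_zero]; exact hτ)
  simp only [sub_add_cancel] at h1
  rw [h1]
  congr 1
  unfold per
  push_cast [Nat.cast_sub hij.le]
  ring

end Pool.Agent.E8helper32.SA
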