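import Pool.Agent.Results.MP_83fd13_an.BranchSingularities
import Pool.Agent.E8helper32.SA.Convex

/-!
# The algebraic relation for all branches
-/

set_option autoImplicit false

open Complex Metric Set Filter Topology ComplexConjugate

namespace Pool.Agent.E8helper32.SA

open Pool.Agent.Results.MP_83fd13_an.BranchSingularities

/-- the setting: the boundary curve satisfies an algebraic equation for `conj z` whose
coefficients are holomorphic -/
structure Data (φ : ℂ → ℂ) (r : ℝ) (d : ℕ) (c : ℕ → ℂ → ℂ) : Prop where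
  hr : 1 < r
  hφ : DifferentiableOn ℂ φ (ball 0 r)
  hinj : InjOn φ (ball 0 r)
  hc : ∀ k ≤ d, DifferentiableOn ℂ (c k) (φ '' ball 0 r)
  hrel : ∀ z ∈ φ '' sphere 0 1, ∑ k ∈ Finset.range (d + 1), c k z * conj z ^ k = 0
  hd : ∃ z ∈ φ '' ball 0 1, c d z ≠ 0

/-- the reflected coefficients -/
noncomputable def Cf (φ : ℂ → ℂ) (c : ℕ → ℂ → ℂ) (k : ℕ) (w : ℂ) : ℂ :=
  conj (c k (φ (1 / conj w)))

variable {φ : ℂ → ℂ} {r : ℝ} {d : ℕ} {c : ℕ → ℂ → ℂ}

theorem branch_norm {z : ℂ} {f : ℂ → ℂ} (h : Branch φ r z f) : 1 < ‖z‖ := by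
  cases h with
  | base z h1 h2 => exact h1
  | step z z' c ρ f g h hB hg hz hz' hfg => exact hB _ hz'

theorem branch_diff (hφ : DifferentiableOn ℂ φ (ball 0 r)) {z : ℂ} {f : ℂ → ℂ}
    (h : Branch φ r z f) : ∃ ρ : ℝ, 0 < ρ ∧ DifferentiableOn ℂ f (ball z ρ) := by
  cases h with
  | base z h1 h2 =>
    obtain ⟨ρ, hρ, hs⟩ := Metric.isOpen_iff.1 ((isOpen_ball : IsOpen (ball (0 : ℂ) r))) z
      (by rwa [mem_ball_zero_iff])
    exact ⟨ρ, hρ, hφ.mono hs⟩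
  | step z z' c ρ f g h hB hg hz hz' hfg =>
    obtain ⟨ρ', hρ, hs⟩ := Metric.isOpen_iff.1 ((isOpen_ball : IsOpen (ball c ρ))) _ hz'
    exact ⟨ρ', hρ, hg.mono hs⟩

theorem branch_congr (hφ : DifferentiableOn ℂ φ (ball 0 r)) {z : ℂ} {f g : ℂ → ℂ}
    (h : Branch φ r z f) (hfg : f =ᶠ[𝓝 z] g) : Branch φ r z g := by
  obtain ⟨ρ, hρ, hd⟩ := branch_diff hφ h
  obtain ⟨ρ', hρ', hs⟩ := Metric.eventually_nhds_iff_ball.1 hfg
  have h1 : 1 < ‖z‖ := branch_norm h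
  refine Branch.step z z z (min (min ρ ρ') (‖z‖ - 1)) f g h ?_ ?_ (mem_ball_self ?_)
    (mem_ball_self ?_) hfg
  · intro w hw
    have h2 : ‖w - z‖ < ‖z‖ - 1 := by
      rw [← dist_eq_norm]; exact lt_of_lt_of_le hw (min_le_right _ _)
    have h3 : ‖z‖ ≤ ‖w‖ + ‖w - z‖ := by
      have := norm_sub_le w (w - z)
      rwa [sub_sub_cancel] at this
    linarith
  · intro w hw
    have h2 : w ∈ ball z ρ := ball_subset_ball ((min_le_left _ _).trans (min_le_left _ _)) hw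
    have h3 : ball z (min (min ρ ρ') (‖z‖ - 1)) ⊆ ball z ρ' :=
      ball_subset_ball ((min_le_left _ _).trans (min_le_right _ _))
    exact ((hd w h2).mono (ball_subset_ball ((min_le_left _ _).trans (min_le_left _ _)))).congr
      (fun v hv => (hs v (h3 hv)).symm) (hs w (h3 hw)).symm
  · exact lt_min (lt_min hρ hρ') (by linarith)
  · exact lt_min (lt_min hρ hρ') (by linarith)

theorem branch_ball {z z' c' : ℂ} {ρ : ℝ} {f : ℂ → ℂ}
    (h : Branch φ r z f) (hB : ∀ w ∈ ball c' ρ, 1 < ‖w‖) (hf : DifferentiableOn ℂ f (ball c' ρ))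
    (hz : z ∈ ball c' ρ) (hz' : z' ∈ ball c' ρ) : Branch φ r z' f :=
  Branch.step z z' c' ρ f f h hB hf hz hz' (EventuallyEq.refl _ _)

theorem Cf_diff (hD : Data φ r d c) {k : ℕ} (hk : k ≤ d) {w : ℂ} (hw : r⁻¹ < ‖w‖) :
    DifferentiableAt ℂ (Cf φ c k) w := by
  have hr0 : 0 < r := by linarith [hD.hr]
  have hw0 : 0 < ‖w‖ := lt_trans (by positivity) hw
  have h2 : DifferentiableAt ℂ (c k ∘ φ) (Pool.Agent.Y500.UC.rho w) := by
    have h3 : DifferentiableOn ℂ (c k ∘ φ) (ball 0 r) :=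
      (hD.hc k hk).comp hD.hφ (mapsTo_image φ _)
    refine h3.differentiableAt (isOpen_ball.mem_nhds ?_)
    rw [mem_ball_zero_iff, Pool.Agent.Y500.UC.norm_rho, div_lt_iff₀ hw0]
    rw [inv_lt_iff_one_lt_mul₀ hr0] at hw
    rwa [mul_comm]
  exact Pool.Agent.Y500.UC.Rf_diff (norm_pos_iff.1 hw0) h2

theorem Cf_diff' (hD : Data φ r d c) {k : ℕ} (hk : k ≤ d) {w : ℂ} (hw : 1 < ‖w‖) :
    DifferentiableAt ℂ (Cf φ c k) w :=
  Cf_diff hD hk ((inv_lt_one_of_one_lt₀ hD.hr).trans hw)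

/-- the left side of the relation -/
noncomputable def Rl (φ : ℂ → ℂ) (c : ℕ → ℂ → ℂ) (d : ℕ) (f : ℂ → ℂ) (w : ℂ) : ℂ :=
  ∑ k ∈ Finset.range (d + 1), Cf φ c k w * f w ^ k

theorem Rl_diff (hD : Data φ r d c) {f : ℂ → ℂ} {w : ℂ} (hw : r⁻¹ < ‖w‖)
    (hf : DifferentiableAt ℂ f w) : DifferentiableAt ℂ (Rl φ c d f) w := by
  unfold Rl
  refine DifferentiableAt.fun_sum fun k hk => ?_
  exact (Cf_diff hD (Nat.lt_succ_iff.1 (Finset.mem_range.1 hk)) hw).mul (hf.pow k)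

theorem rel_circle (hD : Data φ r d c) {w : ℂ} (hw : ‖w‖ = 1) : Rl φ c d φ w = 0 := by
  have h1 : (1 / conj w : ℂ) = w := Pool.Agent.Y500.UC.rho_circle hw
  have h2 := hD.hrel (φ w) ⟨w, mem_sphere_zero_iff_norm.2 hw, rfl⟩
  have h3 := congrArg conj h2
  rw [map_sum, map_zero] at h3
  unfold Rl Cf
  rw [h1, ← h3]
  refine Finset.sum_congr rfl fun k _ => ?_
  rw [map_mul, map_pow, conj_conj]

theorem freq_circle : ∃ᶠ w in 𝓝[≠] (1 : ℂ), ‖w‖ = 1 := by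
  have h1 : Tendsto (fun n : ℕ => exp (((1 / ((n : ℝ) + 1) : ℝ) : ℂ) * I)) atTop (𝓝 1) := by
    have h2 : Tendsto (fun n : ℕ => (((1 / ((n : ℝ) + 1) : ℝ) : ℂ) * I)) atTop (𝓝 0) := by
      have h3 := (Complex.continuous_ofReal.tendsto 0).comp
        (tendsto_one_div_add_atTop_nhds_zero_nat (𝕜 := ℝ))
      have h4 := h3.mul_const I
      simpa using h4
    have h5 := (Complex.continuous_exp.tendsto 0).comp h2
    rwa [Complex.exp_zero] at h5
  have h2 : Tendsto (fun n : ℕ => exp (((1 / ((n : ℝ) + 1) : ℝ) : ℂ) * I)) atTop (𝓝[≠] 1) := by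
    refine tendsto_nhdsWithin_iff.2 ⟨h1, Eventually.of_forall fun n => ?_⟩
    intro he
    rw [mem_singleton_iff, Complex.exp_eq_one_iff] at he
    obtain ⟨m, hm⟩ := he
    have h6 : ((1 / ((n : ℝ) + 1) : ℝ) : ℂ) = m * (2 * Real.pi) := by
      have : ((1 / ((n : ℝ) + 1) : ℝ) : ℂ) * I = (m * (2 * Real.pi)) * I := by rw [hm]; ring
      exact mul_right_cancel₀ I_ne_zero this
    have h7 : (1 / ((n : ℝ) + 1) : ℝ) = m * (2 * Real.pi) := by exact_mod_cast h6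
    have h8 : (0 : ℝ) < 1 / ((n : ℝ) + 1) := by positivity
    have h9 : (1 / ((n : ℝ) + 1) : ℝ) ≤ 1 := by
      rw [div_le_one (by positivity)]
      have : (0 : ℝ) ≤ n := Nat.cast_nonneg n
      linarith
    have hpi := Real.pi_gt_three
    have hm0 : 0 < m := by
      have : (0 : ℝ) < m := by
        by_contra hcon
        push Not at hcon
        have := mul_nonpos_of_nonpos_of_nonneg hcon (by positivity : (0 : ℝ) ≤ 2 * Real.pi)
        linarith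
      exact_mod_cast this
    have hm1 : (1 : ℝ) ≤ m := by exact_mod_cast hm0
    nlinarith
  exact h2.frequently (Frequently.of_forall fun n => by rw [norm_exp_ofReal_mul_I])

/-- the relation in the annulus -/
theorem rel_annulus (hD : Data φ r d c) {w : ℂ} (hw : r⁻¹ < ‖w‖) (hw' : ‖w‖ < r) :
    Rl φ c d φ w = 0 := by
  have hri : r⁻¹ < 1 := inv_lt_one_of_one_lt₀ hD.hr
  have hA : IsOpen {v : ℂ | r⁻¹ < ‖v‖ ∧ ‖v‖ < r} :=
    (isOpen_lt continuous_const continuous_norm).inter (isOpen_lt continuous_norm continuous_const)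
  have hdiff : DifferentiableOn ℂ (Rl φ c d φ) {v : ℂ | r⁻¹ < ‖v‖ ∧ ‖v‖ < r} := by
    rintro v ⟨hv1, hv2⟩
    exact (Rl_diff hD hv1 (hD.hφ.differentiableAt (isOpen_ball.mem_nhds
      (by rwa [mem_ball_zero_iff])))).differentiableWithinAt
  have h1 := (hdiff.analyticOnNhd hA).eqOn_zero_of_preconnected_of_frequently_eq_zero
    (Pool.Agent.Y500.UC.annulus hD.hr) (z₀ := 1) ⟨by rw [norm_one]; exact hri, by
      rw [norm_one]; exact hD.hr⟩ (freq_circle.mono fun v hv => rel_circle hD hv)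
  exact h1 ⟨hw, hw'⟩

/-- the relation for branches -/
theorem rel_branch (hD : Data φ r d c) {z : ℂ} {f : ℂ → ℂ} (h : Branch φ r z f) :
    ∀ᶠ w in 𝓝 z, Rl φ c d f w = 0 := by
  induction h with
  | base z h1 h2 =>
    have ho : IsOpen {v : ℂ | 1 < ‖v‖ ∧ ‖v‖ < r} :=
      (isOpen_lt continuous_const continuous_norm).inter
        (isOpen_lt continuous_norm continuous_const)
    filter_upwards [ho.mem_nhds ⟨h1, h2⟩] with v hv
    exact rel_annulus hD ((inv_lt_one_of_one_lt₀ hD.hr).trans hv.1) hv.2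
  | step z z' c' ρ f g h hB hg hz hz' hfg ih =>
    have hdiff : DifferentiableOn ℂ (Rl φ c d g) (ball c' ρ) := fun v hv =>
      (Rl_diff hD ((inv_lt_one_of_one_lt₀ hD.hr).trans (hB v hv))
        (hg.differentiableAt (isOpen_ball.mem_nhds hv))).differentiableWithinAt
    have h0 : Rl φ c d g =ᶠ[𝓝 z] fun _ => (0 : ℂ) := by
      filter_upwards [ih, hfg] with v hv1 hv2
      rw [← hv1]
      unfold Rl
      rw [hv2]
    have h1 := eqOn_convex (convex_ball c' ρ) isOpen_ball hdiff (differentiableOn_const 0) hz h0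
    filter_upwards [isOpen_ball.mem_nhds hz'] with v hv
    exact h1 hv

/-- the relation on discs -/
theorem rel_ball (hD : Data φ r d c) {z : ℂ} {g : ℂ → ℂ} {V : Set ℂ}
    (hV : Convex ℝ V) (hVo : IsOpen V)
    (h : Branch φ r z g) (hB : ∀ w ∈ V, 1 < ‖w‖) (hg : DifferentiableOn ℂ g V)
    (hz : z ∈ V) : ∀ w ∈ V, Rl φ c d g w = 0 := by
  have hdiff : DifferentiableOn ℂ (Rl φ c d g) V := fun v hv =>
    (Rl_diff hD ((inv_lt_one_of_one_lt₀ hD.hr).trans (hB v hv))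
      (hg.differentiableAt (hVo.mem_nhds hv))).differentiableWithinAt
  exact eqOn_convex hV hVo hdiff (differentiableOn_const 0) hz (rel_branch hD h)

/-- the root bound -/
theorem root_bound (a : ℕ → ℂ) (X : ℂ) (h : ∑ k ∈ Finset.range (d + 1), a k * X ^ k = 0) :
    ‖a d‖ * ‖X‖ ≤ ∑ k ∈ Finset.range (d + 1), ‖a k‖ := by
  rcases le_or_gt ‖X‖ 1 with hX | hX
  · calc ‖a d‖ * ‖X‖ ≤ ‖a d‖ * 1 := by gcongr
      _ = ‖a d‖ := mul_one _
      _ ≤ ∑ k ∈ Finset.range (d + 1), ‖a k‖ :=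
        Finset.single_le_sum (f := fun k => ‖a k‖) (fun k _ => norm_nonneg _)
          (Finset.mem_range.2 (Nat.lt_succ_self d))
  · rw [Finset.sum_range_succ] at h
    have h1 : a d * X ^ d = - ∑ k ∈ Finset.range d, a k * X ^ k := by
      rw [eq_neg_iff_add_eq_zero, add_comm]; exact h
    have hX0 : 0 < ‖X‖ := by linarith
    rcases Nat.eq_zero_or_pos d with hd | hd
    · subst hd
      simp only [Finset.range_zero, Finset.sum_empty, neg_zero, pow_zero, mul_one] at h1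
      rw [h1]
      simp
    · have h2 : ‖a d‖ * ‖X‖ ^ d ≤ (∑ k ∈ Finset.range d, ‖a k‖) * ‖X‖ ^ (d - 1) := by
        calc ‖a d‖ * ‖X‖ ^ d = ‖a d * X ^ d‖ := by rw [norm_mul, norm_pow]
          _ = ‖∑ k ∈ Finset.range d, a k * X ^ k‖ := by rw [h1, norm_neg]
          _ ≤ ∑ k ∈ Finset.range d, ‖a k * X ^ k‖ := norm_sum_le _ _
          _ ≤ ∑ k ∈ Finset.range d, ‖a k‖ * ‖X‖ ^ (d - 1) := by
            refine Finset.sum_le_sum fun k hk => ?_
            rw [norm_mul, norm_pow]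
            have hk' : k ≤ d - 1 := Nat.le_sub_one_of_lt (Finset.mem_range.1 hk)
            gcongr
            exact hX.le
          _ = _ := by rw [Finset.sum_mul]
      have h3 : ‖X‖ ^ d = ‖X‖ * ‖X‖ ^ (d - 1) := by
        rw [← pow_succ', Nat.sub_add_cancel hd]
      rw [h3, ← mul_assoc] at h2
      have h4 : ‖a d‖ * ‖X‖ ≤ ∑ k ∈ Finset.range d, ‖a k‖ :=
        le_of_mul_le_mul_right h2 (by positivity)
      rw [Finset.sum_range_succ]
      have := norm_nonneg (a d)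
      linarith

/-- the extension across the boundary point when the growth is slow -/
theorem ext_of_slow {lam : ℝ} (hlam : 0 < lam) (hBU : BranchesBlowUp φ r lam) {c' : ℂ} {ρ : ℝ}
    {g : ℂ → ℂ} {w1 : ℂ} (hρ : 0 < ρ) (hB : ∀ w ∈ closedBall c' ρ, 1 < ‖w‖)
    (hg : DifferentiableOn ℂ g (ball c' ρ)) (hbr : ∃ z ∈ ball c' ρ, Branch φ r z g)
    (hw1 : w1 ∈ sphere c' ρ)
    (hslow : ∀ η : ℝ, 0 < η → ∃ δ : ℝ, 0 < δ ∧
      ∀ w ∈ ball c' ρ, ‖w - w1‖ < δ → ‖w - w1‖ * ‖g w‖ ≤ η) :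
    ∃ (ε : ℝ) (E : ℂ → ℂ), 0 < ε ∧ DifferentiableOn ℂ E (ball w1 ε) ∧
      ∀ w ∈ ball w1 ε ∩ ball c' ρ, E w = g w := by
  set m := lam * ‖deriv φ (1 / conj w1)‖ with hm
  have hm0 : 0 ≤ m := by positivity
  obtain ⟨δ, hδ, hδ2⟩ := hslow (1 / (m + 1)) (by positivity)
  have hw1' : 1 < ‖w1‖ := hB w1 (sphere_subset_closedBall hw1)
  refine hBU c' ρ g w1 (1 / (m + 1)) δ hρ hB hg hbr hw1 hδ ?_ ?_
  · rw [← hm, mul_one_div]
    have h1 : m / (m + 1) < 1 := by rw [div_lt_one (by positivity)]; linarith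
    nlinarith
  · intro w hw hwδ
    refine le_trans ?_ (hδ2 w hw hwδ)
    gcongr
    have h1 : ‖w1 - c'‖ = ρ := by rwa [mem_sphere, dist_eq_norm] at hw1
    have h2 : ‖w1 - c'‖ ≤ ‖w - w1‖ + ‖w - c'‖ := by
      have := norm_sub_le (w - c') (w - w1)
      have e : (w - c') - (w - w1) = w1 - c' := by ring
      rw [e] at this
      linarith
    linarith

/-- the coefficients are bounded near a point -/
theorem Cf_bdd (hD : Data φ r d c) {w1 : ℂ} (hw1 : 1 < ‖w1‖) :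
    ∃ M δ : ℝ, 0 < M ∧ 0 < δ ∧ ∀ w ∈ ball w1 δ,
      ∑ k ∈ Finset.range (d + 1), ‖Cf φ c k w‖ ≤ M := by
  have h1 : ContinuousAt (fun w => ∑ k ∈ Finset.range (d + 1), ‖Cf φ c k w‖) w1 := by
    refine tendsto_finsetSum _ fun k hk => ?_
    exact (Cf_diff' hD (Nat.lt_succ_iff.1 (Finset.mem_range.1 hk)) hw1).continuousAt.norm
  have h2 : 0 ≤ ∑ k ∈ Finset.range (d + 1), ‖Cf φ c k w1‖ :=
    Finset.sum_nonneg fun k _ => norm_nonneg _
  obtain ⟨δ, hδ, h3⟩ := Metric.eventually_nhds_iff_ball.1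
    (h1.eventually (gt_mem_nhds (lt_add_one (∑ k ∈ Finset.range (d + 1), ‖Cf φ c k w1‖))))
  exact ⟨_, δ, by linarith, hδ, fun w hw => (h3 w hw).le⟩

/-- **Good points.** -/
theorem ext_good (hD : Data φ r d c) {lam : ℝ} (hlam : 0 < lam) (hBU : BranchesBlowUp φ r lam)
    {c' : ℂ} {ρ : ℝ} {g : ℂ → ℂ} {w1 : ℂ} (hρ : 0 < ρ) (hB : ∀ w ∈ closedBall c' ρ, 1 < ‖w‖)
    (hg : DifferentiableOn ℂ g (ball c' ρ)) (hbr : ∃ z ∈ ball c' ρ, Branch φ r z g)
    (hw1 : w1 ∈ sphere c' ρ) (hgood : Cf φ c d w1 ≠ 0) :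
    ∃ (ε : ℝ) (E : ℂ → ℂ), 0 < ε ∧ DifferentiableOn ℂ E (ball w1 ε) ∧
      ∀ w ∈ ball w1 ε ∩ ball c' ρ, E w = g w := by
  have hw1' : 1 < ‖w1‖ := hB w1 (sphere_subset_closedBall hw1)
  refine ext_of_slow hlam hBU hρ hB hg hbr hw1 fun η hη => ?_
  obtain ⟨M, δ1, hM, hδ1, h1⟩ := Cf_bdd hD hw1'
  have hcont := (Cf_diff' hD le_rfl hw1').continuousAt.norm
  have hpos : 0 < ‖Cf φ c d w1‖ := norm_pos_iff.2 hgood
  obtain ⟨δ2, hδ2, h2⟩ := Metric.eventually_nhds_iff_ball.1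
    (hcont.eventually (lt_mem_nhds (half_lt_self hpos)))
  obtain ⟨z, hz, hbz⟩ := hbr
  have hrel := rel_ball hD (convex_ball c' ρ) isOpen_ball hbz
    (fun w hw => hB w (ball_subset_closedBall hw)) hg hz
  set m := ‖Cf φ c d w1‖ / 2 with hm
  have hm0 : 0 < m := by positivity
  refine ⟨min (min δ1 δ2) (η * m / M), lt_min (lt_min hδ1 hδ2) (by positivity), ?_⟩
  intro w hw hwδ
  have hwb : w ∈ ball w1 (min δ1 δ2) := by
    rw [mem_ball, dist_eq_norm]; exact hwδ.trans_le (min_le_left _ _)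
  have h3 := root_bound (fun k => Cf φ c k w) (g w) (hrel w hw)
  have h4 := h1 w (ball_subset_ball (min_le_left _ _) hwb)
  have h5 := h2 w (ball_subset_ball (min_le_right _ _) hwb)
  have h6 : m * ‖g w‖ ≤ M := by
    calc m * ‖g w‖ ≤ ‖Cf φ c d w‖ * ‖g w‖ := by gcongr
      _ ≤ _ := h3
      _ ≤ M := h4
  have h7 : ‖w - w1‖ ≤ η * m / M := (hwδ.trans_le (min_le_right _ _)).le
  rw [le_div_iff₀ hM] at h7
  have h8 : ‖w - w1‖ * (m * ‖g w‖) ≤ ‖w - w1‖ * M := by gcongr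
  have h9 : m * (‖w - w1‖ * ‖g w‖) ≤ m * η := by nlinarith
  exact le_of_mul_le_mul_left h9 hm0

end Pool.Agent.E8helper32.SA
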